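import Pool.Agent.Helper30K1.GD.LIP

set_option autoImplicit false

/-!
Project GD: the integral for parameters which are bad only finitely often (helper39).
-/

namespace Pool.Agent.Helper30K1.GD

open Complex Filter Topology MeasureTheory Set
open Pool.Agent.Y969.GP (ff)
open Pool.Agent.N879.GD

namespace LDa

lemma split_int {g : ℝ → ℂ} (hg : ∀ T, IntegrableOn g (Ioc 0 T)) {a b c : ℝ} (ha : 0 ≤ a) (hab : a ≤ b)
    (hbc : b ≤ c) : ∫ t in Ioc a c, g t = (∫ t in Ioc a b, g t) + ∫ t in Ioc b c, g t := by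
  rw [← Ioc_union_Ioc_eq_Ioc hab hbc]
  refine setIntegral_union ?_ measurableSet_Ioc ((hg b).mono_set (Ioc_subset_Ioc_left ha))
    ((hg c).mono_set (Ioc_subset_Ioc_left (ha.trans hab)))
  exact Ioc_disjoint_Ioc_of_le le_rfl

lemma D0_bound {η A : ℝ} (hη : 0 < η) (hA : 1 ≤ A) : ∀ᶠ T : ℝ in atTop, ∀ u : ℝ, A⁻¹ * T ≤ u →
    u ≤ A * (2 * T) → 0 ≤ D0 u ∧ D0 u ≤ T ^ η := by
  have h1 : ∀ᶠ T : ℝ in atTop, Real.log T ≤ 1 / 2 * T ^ η := by
    have := (isLittleO_log_rpow_atTop hη).bound (show (0 : ℝ) < 1 / 2 by norm_num)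
    filter_upwards [this, eventually_ge_atTop 1] with T hT hT1
    rw [Real.norm_of_nonneg (Real.log_nonneg hT1), Real.norm_of_nonneg (by positivity)] at hT
    exact hT
  have h2 : ∀ᶠ T : ℝ in atTop, 2 * (Real.log (2 * A) + 2) ≤ T ^ η :=
    (tendsto_rpow_atTop hη).eventually_ge_atTop _
  filter_upwards [h1, h2, eventually_ge_atTop (A * (2 * Real.pi)), eventually_gt_atTop 0]
    with T hT1 hT2 hT3 hT0 u hu1 hu2
  have hA0 : 0 < A := by linarith
  have hp := Real.pi_pos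
  have hp3 := Real.pi_gt_three
  have h5 := Real.eulerMascheroniConstant_lt_two_thirds
  have h6 := Real.one_half_lt_eulerMascheroniConstant
  have hu0 : 2 * Real.pi ≤ u := by
    refine le_trans ?_ hu1
    rw [inv_mul_eq_div, le_div_iff₀ hA0]
    linarith
  have hu00 : 0 < u := by linarith
  unfold D0
  constructor
  · have : 0 ≤ Real.log (u / (2 * Real.pi)) := Real.log_nonneg (by
      rw [le_div_iff₀ (by positivity)]
      linarith)
    linarith
  · have h7 : Real.log (u / (2 * Real.pi)) ≤ Real.log (2 * A) + Real.log T := by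
      rw [← Real.log_mul (by positivity) hT0.ne']
      refine Real.log_le_log (by positivity) ?_
      rw [div_le_iff₀ (by positivity)]
      nlinarith [mul_pos hA0 hT0]
    linarith

lemma cell {θ : ℝ} {n : ℕ} {t : ℝ} (ht1 : 2 ^ n ≤ t) (ht2 : t ≤ 2 * 2 ^ n) :
    ∃ i < NN θ n, gp θ n i ≤ t ∧ t ≤ gp θ n (i + 1) := by
  classical
  have hN := NN_pos (θ := θ) n
  have hex : ∃ j, t ≤ gp θ n (j + 1) := ⟨NN θ n - 1, by
    rw [Nat.sub_add_cancel hN, gp_last]
    exact ht2⟩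
  refine ⟨Nat.find hex, ?_, ?_, Nat.find_spec hex⟩
  · have : Nat.find hex ≤ NN θ n - 1 := Nat.find_min' hex (by
      rw [Nat.sub_add_cancel hN, gp_last]
      exact ht2)
    omega
  · rcases Nat.eq_zero_or_pos (Nat.find hex) with h0 | h0
    · rw [h0]
      unfold gp
      simpa using ht1
    · have h1 := Nat.find_min hex (Nat.sub_lt h0 one_pos)
      have h2 : Nat.find hex - 1 + 1 = Nat.find hex := Nat.sub_add_cancel h0
      have h3 : ¬ t ≤ gp θ n (Nat.find hex) := by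
        have h4 : ¬ t ≤ gp θ n (Nat.find hex - 1 + 1) := h1
        rwa [h2] at h4
      exact (not_le.1 h3).le

lemma cell_len {θ : ℝ} {n i : ℕ} : gp θ n (i + 1) - gp θ n i ≤ ((2 : ℝ) ^ n) ^ (1 - θ) := by
  have hN : (0 : ℝ) < NN θ n := by exact_mod_cast NN_pos (θ := θ) n
  have hT : (0 : ℝ) < 2 ^ n := by positivity
  have h1 : ((2 : ℝ) ^ n) ^ θ ≤ NN θ n := Nat.le_ceil _
  have h2 : gp θ n (i + 1) - gp θ n i = 2 ^ n / NN θ n := by
    unfold gp
    push_cast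
    field_simp
    ring
  rw [h2, Real.rpow_sub hT, Real.rpow_one]
  gcongr

/-- one cell -/
lemma cell_int {k : ℕ} {F : ℝ → ℂ} (hF : Gr F) {l : Fin k → ℝ} (hl : ∀ j, 0 < l j) {a b t L : ℝ}
    (ha : 0 < a) (hat : a ≤ t) (htb : t ≤ b) (hD : ∀ s ∈ Icc a b, ∀ j, 0 ≤ D0 (l j * s) ∧ D0 (l j * s) ≤ L) :
    ‖∫ s in Ioc a t, F s * ((dif l s : ℝ) : ℂ)‖ ≤
      JJ (fun t => ((‖F t‖ : ℝ) : ℂ)) l a b + 2 * L ^ k * ∫ s in Icc a b, ‖F s‖ := by
  have hG : Measurable (fun t => ((‖F t‖ : ℝ) : ℂ)) := by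
    have := hF.1
    fun_prop
  have i1 := mul_dif_int hF hF.1 (fun _ => rfl) hl (b := b) ha
  have i2 := mul_dif_int hF hG (fun t => by simp) hl (b := b) ha
  have i3 : IntegrableOn (fun s => ‖F s‖) (Icc a b) :=
    ((F_int hF b).mono_set fun t ht => ⟨ha.trans_le ht.1, ht.2⟩).norm
  have i4 : IntegrableOn (fun s => ‖F s‖ * dif l s) (Icc a b) := by
    have := i2.re
    refine this.congr (Eventually.of_forall fun s => ?_)
    simp [← ofReal_mul]
  have hp : ∀ s ∈ Icc a b, |dif l s| ≤ dif l s + 2 * L ^ k := by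
    intro s hs
    have p1 : 0 ≤ ∏ j, ff (l j * s) := Finset.prod_nonneg fun j _ => by
      unfold ff
      positivity
    have p2 : 0 ≤ ∏ j, D0 (l j * s) := Finset.prod_nonneg fun j _ => (hD s hs j).1
    have p3 : ∏ j, D0 (l j * s) ≤ L ^ k := by
      calc ∏ j, D0 (l j * s) ≤ ∏ _j : Fin k, L :=
            Finset.prod_le_prod (fun j _ => (hD s hs j).1) fun j _ => (hD s hs j).2
        _ = _ := by rw [Finset.prod_const, Finset.card_univ, Fintype.card_fin]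
    unfold dif
    rw [abs_le]
    constructor <;> linarith
  calc ‖∫ s in Ioc a t, F s * ((dif l s : ℝ) : ℂ)‖ ≤ ∫ s in Ioc a t, ‖F s * ((dif l s : ℝ) : ℂ)‖ :=
        norm_integral_le_integral_norm _
    _ ≤ ∫ s in Icc a b, ‖F s * ((dif l s : ℝ) : ℂ)‖ :=
        setIntegral_mono_set i1.norm (Eventually.of_forall fun s => norm_nonneg _)
          (Eventually.of_forall fun s hs => ⟨hs.1.le, hs.2.trans htb⟩)
    _ ≤ ∫ s in Icc a b, (‖F s‖ * dif l s + 2 * L ^ k * ‖F s‖) := by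
        refine setIntegral_mono_on i1.norm (i4.add (i3.const_mul _)) measurableSet_Icc fun s hs => ?_
        rw [norm_mul, norm_real, Real.norm_eq_abs]
        have := mul_le_mul_of_nonneg_left (hp s hs) (norm_nonneg (F s))
        linarith
    _ = (∫ s in Icc a b, ‖F s‖ * dif l s) + 2 * L ^ k * ∫ s in Icc a b, ‖F s‖ := by
        rw [integral_add i4 (i3.const_mul _), integral_const_mul]
    _ ≤ _ := by
        gcongr
        unfold JJ
        have e1 : (∫ s in Icc a b, ((‖F s‖ : ℝ) : ℂ) * ((dif l s : ℝ) : ℂ)) =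
            ((∫ s in Icc a b, ‖F s‖ * dif l s : ℝ) : ℂ) := by
          refine Eq.trans (integral_congr_ae (Eventually.of_forall fun s => ?_)) integral_ofReal
          simp
        rw [e1, norm_real]
        exact le_abs_self _

/-- one dyadic block -/
lemma block {k : ℕ} {F : ℝ → ℂ} {A θ ρ δ : ℝ} (hF : Gr F) (hA : 1 ≤ A)
    (hδρ : δ < ρ) (hδθ : 2 * δ < θ) {l : Fin k → ℝ} (hl : ∀ j, A⁻¹ ≤ l j ∧ l j ≤ A)
    (hg : ∀ T, IntegrableOn (fun t => F t * ((dif l t : ℝ) : ℂ)) (Ioc 0 T))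
    (hbad : ∀ᶠ n : ℕ in atTop, l ∉ Bad k F A 1 θ ρ n) :
    ∃ C : ℝ, 0 < C ∧ ∀ᶠ n : ℕ in atTop, ∀ t : ℝ, 2 ^ n ≤ t → t ≤ 2 * 2 ^ n →
      ‖∫ s in Ioc (2 ^ n) t, F s * ((dif l s : ℝ) : ℂ)‖ ≤ C * ((2 : ℝ) ^ n) ^ (1 - δ) := by
  have hA0 : 0 < A := by linarith
  have hl0 : ∀ j, 0 < l j := fun j => lt_of_lt_of_le (by positivity) (hl j).1
  set μ : ℝ := θ / 2 - δ with hμ
  have hμ0 : 0 < μ := by linarith
  obtain ⟨CF, hCF, hCF1⟩ := F_sq_le hF hμ0
  set η : ℝ := μ / (2 * (k + 1)) with hη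
  have hη0 : 0 < η := by positivity
  have hkη : k * η ≤ μ / 2 := by
    rw [hη, mul_div_assoc', div_le_div_iff₀ (by positivity) (by norm_num)]
    nlinarith
  refine ⟨2 + 2 * (1 + CF * 2 ^ (1 + μ)), by positivity, ?_⟩
  filter_upwards [hbad, tend2.eventually (D0_bound hη0 hA), tend2.eventually_ge_atTop 1]
    with n hn hD hT t ht1 ht2
  set T : ℝ := (2 : ℝ) ^ n with hTdef
  have hT0 : 0 < T := by linarith
  obtain ⟨i, hi, hi1, hi2⟩ := cell (θ := θ) ht1 ht2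
  set a := gp θ n i with ha
  set b := gp θ n (i + 1) with hb
  have haT : T ≤ a := gp_ge n i
  have hbT : b ≤ 2 * T := gp_le n hi
  have ha0 : 0 < a := by linarith
  -- not bad
  have g1 : JJ F l T a ≤ T ^ (1 - ρ) := by
    by_contra hc
    exact hn ⟨hl, i, hi, Or.inl (by rw [one_mul]; exact not_le.1 hc)⟩
  have g2 : JJ (fun t => ((‖F t‖ : ℝ) : ℂ)) l a b ≤ T ^ (1 - ρ) := by
    by_contra hc
    exact hn ⟨hl, i, hi, Or.inr (by rw [one_mul]; exact not_le.1 hc)⟩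
  have g3 : T ^ (1 - ρ) ≤ T ^ (1 - δ) := Real.rpow_le_rpow_of_exponent_le hT (by linarith)
  have g4 := cell_int hF hl0 (L := T ^ η) ha0 hi1 hi2 (fun s hs j => by
    have hs0 : 0 < s := ha0.trans_le hs.1
    refine hD _ ?_ ?_
    · have := (hl j).1
      have := haT.trans hs.1
      have := (hl0 j).le
      gcongr
    · have := (hl j).2
      have := hs.2.trans hbT
      gcongr)
  -- the absolute integral
  have g5 : ∫ s in Icc a b, ‖F s‖ ≤ (1 + CF * 2 ^ (1 + μ)) * T ^ (1 - θ / 2 + μ / 2) := by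
    have hα : 0 < T ^ ((θ + μ) / 2) := by positivity
    have f1 := F_L1 hF ha0 (hi1.trans hi2) hbT hα
    have f2 := hCF1 (2 * T) (by linarith)
    have f3 : T ^ ((θ + μ) / 2) * (b - a) ≤ T ^ (1 - θ / 2 + μ / 2) := by
      calc T ^ ((θ + μ) / 2) * (b - a) ≤ T ^ ((θ + μ) / 2) * T ^ (1 - θ) := by
            gcongr
            exact cell_len
        _ = _ := by
            rw [← Real.rpow_add hT0]
            congr 1
            ring
    have f4 : (T ^ ((θ + μ) / 2))⁻¹ * ∫ s in Ioc 0 (2 * T), ‖F s‖ ^ 2 ≤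
        CF * 2 ^ (1 + μ) * T ^ (1 - θ / 2 + μ / 2) := by
      calc (T ^ ((θ + μ) / 2))⁻¹ * ∫ s in Ioc 0 (2 * T), ‖F s‖ ^ 2
          ≤ (T ^ ((θ + μ) / 2))⁻¹ * (CF * (2 * T) ^ (1 + μ)) := by gcongr
        _ = CF * 2 ^ (1 + μ) * (T ^ (-((θ + μ) / 2)) * T ^ (1 + μ)) := by
            rw [Real.mul_rpow (by norm_num) hT0.le, Real.rpow_neg hT0.le]
            ring
        _ = _ := by
            rw [← Real.rpow_add hT0]
            congr 2
            ring
    linarith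
  have g6 : 2 * (T ^ η) ^ k * ∫ s in Icc a b, ‖F s‖ ≤ 2 * (1 + CF * 2 ^ (1 + μ)) * T ^ (1 - δ) := by
    have f5 : (T ^ η) ^ k ≤ T ^ (μ / 2) := by
      rw [← Real.rpow_natCast, ← Real.rpow_mul hT0.le]
      refine Real.rpow_le_rpow_of_exponent_le hT ?_
      linarith
    calc 2 * (T ^ η) ^ k * ∫ s in Icc a b, ‖F s‖
        ≤ 2 * T ^ (μ / 2) * ((1 + CF * 2 ^ (1 + μ)) * T ^ (1 - θ / 2 + μ / 2)) := by
          have : 0 ≤ ∫ s in Icc a b, ‖F s‖ := integral_nonneg fun s => norm_nonneg _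
          gcongr
      _ = 2 * (1 + CF * 2 ^ (1 + μ)) * (T ^ (μ / 2) * T ^ (1 - θ / 2 + μ / 2)) := by ring
      _ = _ := by
          rw [← Real.rpow_add hT0]
          congr 2
          rw [hμ]
          ring
  have g7 : ‖∫ s in Ioc T a, F s * ((dif l s : ℝ) : ℂ)‖ ≤ T ^ (1 - ρ) := by
    rw [← integral_Icc_eq_integral_Ioc]
    exact g1
  have g8 := split_int hg hT0.le haT hi1
  rw [g8]
  have g9 := norm_add_le (∫ s in Ioc T a, F s * ((dif l s : ℝ) : ℂ))
    (∫ s in Ioc a t, F s * ((dif l s : ℝ) : ℂ))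
  linarith

end LDa

open LDa

theorem t_DET (h : S_INT) : S_DET := by
  intro k F A θ ρ δ hF hA hθ hθ1 hρ hρ1 hδ hδρ hδθ l hl hbad
  have hA0 : 0 < A := by linarith
  have hl0 : ∀ j, 0 < l j := fun j => lt_of_lt_of_le (by positivity) (hl j).1
  have hg : ∀ T, IntegrableOn (fun t => F t * ((dif l t : ℝ) : ℂ)) (Ioc 0 T) := by
    intro T
    have h1 := h k F hF l hl0 T
    refine (h1.1.sub h1.2).congr (Eventually.of_forall fun t => ?_)
    simp only [dif, Pi.sub_apply]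
    push_cast
    ring
  obtain ⟨C, hC, hblock⟩ := block hF hA hδρ hδθ hl hg hbad
  obtain ⟨n₀, hn₀⟩ := eventually_atTop.1 hblock
  have hδ1 : 0 < 1 - δ := by linarith
  have hq : 1 < (2 : ℝ) ^ (1 - δ) := Real.one_lt_rpow one_lt_two hδ1
  set I : ℝ → ℂ := fun T => ∫ t in Ioc 0 T, F t * ((dif l t : ℝ) : ℂ) with hI
  set K : ℝ := ‖I (2 ^ n₀)‖ + C / ((2 : ℝ) ^ (1 - δ) - 1) with hK
  have hq0 : 0 < (2 : ℝ) ^ (1 - δ) - 1 := by linarith
  have hK0 : 0 ≤ K := by positivity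
  have hKC : K + C ≤ K * (2 : ℝ) ^ (1 - δ) := by
    have e1 : C / ((2 : ℝ) ^ (1 - δ) - 1) * ((2 : ℝ) ^ (1 - δ) - 1) = C := div_mul_cancel₀ _ hq0.ne'
    have e2 : C / ((2 : ℝ) ^ (1 - δ) - 1) ≤ K := by
      rw [hK]
      linarith [norm_nonneg (I (2 ^ n₀))]
    have e3 := mul_le_mul_of_nonneg_right e2 hq0.le
    rw [e1] at e3
    linarith
  have hstep : ∀ n, n₀ ≤ n → ‖I (2 ^ n)‖ ≤ K * ((2 : ℝ) ^ n) ^ (1 - δ) := by
    intro n hn
    induction n, hn using Nat.le_induction with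
    | base =>
      have e4 : 1 ≤ ((2 : ℝ) ^ n₀) ^ (1 - δ) := Real.one_le_rpow (one_le_pow₀ one_le_two) hδ1.le
      have e5 : ‖I (2 ^ n₀)‖ ≤ K := by
        rw [hK]
        have : 0 ≤ C / ((2 : ℝ) ^ (1 - δ) - 1) := by positivity
        linarith
      nlinarith
    | succ n hn ih =>
      have e6 : I (2 ^ (n + 1)) = I (2 ^ n) + ∫ t in Ioc (2 ^ n) (2 ^ (n + 1)), F t * ((dif l t : ℝ) : ℂ) :=
        split_int hg le_rfl (by positivity) (pow_le_pow_right₀ one_le_two (Nat.le_succ n))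
      have e7 := hn₀ n hn (2 ^ (n + 1)) (pow_le_pow_right₀ one_le_two (Nat.le_succ n))
        (by rw [pow_succ]; linarith)
      rw [e6]
      refine (norm_add_le _ _).trans ?_
      have e8 : ((2 : ℝ) ^ (n + 1)) ^ (1 - δ) = ((2 : ℝ) ^ n) ^ (1 - δ) * (2 : ℝ) ^ (1 - δ) := by
        rw [pow_succ, Real.mul_rpow (by positivity) (by norm_num)]
      rw [e8]
      have e9 : 0 ≤ ((2 : ℝ) ^ n) ^ (1 - δ) := by positivity
      have e10 := mul_le_mul_of_nonneg_right hKC e9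
      linarith
  set B : ℝ := ∫ t in Ioc 0 (2 ^ n₀), ‖F t * ((dif l t : ℝ) : ℂ)‖ with hB
  have hB0 : 0 ≤ B := integral_nonneg fun t => norm_nonneg _
  refine ⟨K + C + B, fun T hT => ?_⟩
  have hT1 : 1 ≤ T ^ (1 - δ) := Real.one_le_rpow hT hδ1.le
  rcases le_total (2 ^ n₀) T with hc | hc
  · -- find the block
    obtain ⟨n, hn1, hn2⟩ := exists_nat_pow_near hT one_lt_two
    have hn : n₀ ≤ n := by
      by_contra hcon
      have : n + 1 ≤ n₀ := by omega
      have := pow_le_pow_right₀ (one_le_two (α := ℝ)) this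
      linarith
    have e11 : I T = I (2 ^ n) + ∫ t in Ioc (2 ^ n) T, F t * ((dif l t : ℝ) : ℂ) :=
      split_int hg le_rfl (by positivity) hn1
    have e12 := hn₀ n hn T hn1 (by rw [pow_succ] at hn2; linarith)
    have e13 := hstep n hn
    change ‖I T‖ ≤ _
    rw [e11]
    refine (norm_add_le _ _).trans ?_
    have e14 : ((2 : ℝ) ^ n) ^ (1 - δ) ≤ T ^ (1 - δ) := by gcongr
    have e15 : (K + C) * ((2 : ℝ) ^ n) ^ (1 - δ) ≤ (K + C) * T ^ (1 - δ) := by gcongr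
    have e16 : 0 ≤ B * T ^ (1 - δ) := by positivity
    linarith
  · have e17 : ‖I T‖ ≤ B := by
      refine (norm_integral_le_integral_norm _).trans ?_
      exact setIntegral_mono_set (hg _).norm (Eventually.of_forall fun s => norm_nonneg _)
        (Eventually.of_forall (Ioc_subset_Ioc_right hc))
    change ‖I T‖ ≤ _
    have e18 : B ≤ B * T ^ (1 - δ) := le_mul_of_one_le_right hB0 hT1
    have e19 : 0 ≤ (K + C) * T ^ (1 - δ) := by positivity
    linarith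

end Pool.Agent.Helper30K1.GD
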