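import Pool.Agent.N879.GD.Cru

set_option autoImplicit false

/-!
Project GD: mean square over one dilation (helper83).
-/

namespace Pool.Agent.Helper30K1.GD

open Complex Filter Topology MeasureTheory Set
open Pool.Agent.Y969.GP (ff)
open Pool.Agent.N879.GD

namespace Dil1

/-- a smooth bump equal to one on `[1/A, 2A]`, supported in `[1/(2A), 3A]` -/
lemma exists_bump {A : ℝ} (hA : 1 ≤ A) : ∃ w : ℝ → ℝ, ContDiff ℝ (⊤ : ℕ∞) w ∧ HasCompactSupport w ∧
    tsupport w ⊆ Ioi 0 ∧ (∀ x ∈ Icc A⁻¹ (2 * A), w x = 1) ∧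
    (∀ x, x ∉ Icc (A⁻¹ / 2) (3 * A) → w x = 0) := by
  have hA0 : 0 < A := by linarith
  have hAi : 0 < A⁻¹ := by positivity
  have hAi1 : A⁻¹ ≤ 1 := inv_le_one_of_one_le₀ hA
  let f : ContDiffBump ((A⁻¹ + 2 * A) / 2) :=
    ⟨(2 * A - A⁻¹) / 2, (2 * A - A⁻¹) / 2 + A⁻¹ / 2, by linarith, by linarith⟩
  refine ⟨f, f.contDiff, f.hasCompactSupport, ?_, ?_, ?_⟩
  · rw [f.tsupport_eq]
    intro x hx
    rw [Metric.mem_closedBall, Real.dist_eq] at hx
    have h1 := (abs_le.1 hx).1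
    have h2 : f.rOut = (2 * A - A⁻¹) / 2 + A⁻¹ / 2 := rfl
    rw [h2] at h1
    rw [mem_Ioi]
    linarith
  · intro x hx
    apply f.one_of_mem_closedBall
    rw [Metric.mem_closedBall, Real.dist_eq]
    have h2 : f.rIn = (2 * A - A⁻¹) / 2 := rfl
    rw [h2, abs_le]
    constructor <;> linarith [hx.1, hx.2]
  · intro x hx
    apply f.zero_of_le_dist
    rw [Real.dist_eq]
    have h2 : f.rOut = (2 * A - A⁻¹) / 2 + A⁻¹ / 2 := rfl
    rw [h2]
    by_contra h3
    push Not at h3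
    apply hx
    have h4 := abs_lt.1 h3
    constructor <;> linarith [h4.1, h4.2]

lemma cont_D0 {u : ℝ} (hu : 0 < u) : ContinuousAt D0 u := by
  unfold D0
  have h1 : ContinuousAt (fun v : ℝ => v / (2 * Real.pi)) u := by fun_prop
  exact (h1.log (by positivity)).add continuousAt_const

end Dil1

open Dil1

theorem t_DIL1 (h1 : S_LEW) (h2 : S_PL) : S_DIL1 := by
  obtain ⟨δ, hδ0, hδ1, hL⟩ := h1
  obtain ⟨-, -, -, hff, -, -⟩ := t_CRU
  refine ⟨δ, hδ0, hδ1, ?_⟩
  intro A hA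
  have hA0 : 0 < A := by linarith
  have hAi : 0 < A⁻¹ := by positivity
  have hAi1 : A⁻¹ ≤ 1 := inv_le_one_of_one_le₀ hA
  obtain ⟨w, hw1, hw2, hw3, hw4, hw5⟩ := exists_bump hA
  obtain ⟨C, T₀, hC, hT₀, hB⟩ := hL w hw1 hw2 hw3
  refine ⟨2 * A * C ^ 2, T₀, by positivity, hT₀, ?_⟩
  intro T F hT hF
  have hT0 : 0 < T := by linarith
  set I2 : ENNReal := ∫⁻ t in Icc T (2 * T), ‖F t‖ₑ ^ 2 with hI2
  by_cases htop : I2 = ⊤
  · rw [htop, ENNReal.mul_top]
    · exact le_top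
    · rw [ne_eq, ENNReal.ofReal_eq_zero, not_le]
      positivity
  -- the function `G`
  set G : ℝ → ℂ := fun u => ((w (u / T) * (ff u - D0 u) : ℝ) : ℂ) with hG
  set F' : ℝ → ℂ := (Icc T (2 * T)).indicator (fun t => (t : ℂ) * F t) with hF'
  have hGc : Continuous G := by
    rw [hG]
    refine continuous_ofReal.comp ?_
    rw [continuous_iff_continuousAt]
    intro u
    by_cases hu : 0 < u
    · exact (hw1.continuous.continuousAt.comp (by fun_prop)).mul
        (hff.continuousAt.sub (cont_D0 hu))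
    · have h3 : (fun u => w (u / T) * (ff u - D0 u)) =ᶠ[𝓝 u] fun _ => 0 := by
        have h4 : ∀ᶠ v in 𝓝 u, v < T * (A⁻¹ / 2) := by
          apply Iio_mem_nhds
          have : 0 < T * (A⁻¹ / 2) := by positivity
          linarith
        filter_upwards [h4] with v hv
        rw [hw5, zero_mul]
        rintro ⟨h5, -⟩
        rw [le_div_iff₀ hT0] at h5
        linarith
      exact continuousAt_const.congr h3.symm
  have hGs : ∀ t, t ∉ Icc (T * (A⁻¹ / 2)) (3 * A * T) → G t = 0 := by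
    intro t ht
    simp only [hG]
    rw [hw5, zero_mul, ofReal_zero]
    rintro ⟨h5, h6⟩
    rw [le_div_iff₀ hT0] at h5
    rw [div_le_iff₀ hT0] at h6
    exact ht ⟨by linarith, h6⟩
  have hF'm : Measurable F' := by
    rw [hF']
    exact (continuous_ofReal.measurable.mul hF).indicator measurableSet_Icc
  have hF's : ∀ t, t ∉ Icc (T * (A⁻¹ / 2)) (3 * A * T) → F' t = 0 := by
    intro t ht
    rw [hF', indicator_of_notMem]
    rintro ⟨h5, h6⟩
    apply ht
    constructor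
    · refine le_trans ?_ h5
      nlinarith
    · refine h6.trans ?_
      nlinarith
  have hF'n : ∀ t, ‖F' t‖ₑ ^ 2 ≤ ENNReal.ofReal ((2 * T) ^ 2) *
      (Icc T (2 * T)).indicator (fun t => ‖F t‖ₑ ^ 2) t := by
    intro t
    rw [hF']
    by_cases ht : t ∈ Icc T (2 * T)
    · rw [indicator_of_mem ht, indicator_of_mem ht, enorm_mul, mul_pow]
      gcongr
      rw [ENNReal.ofReal_pow (by positivity)]
      gcongr
      rw [← ofReal_norm, norm_real, Real.norm_eq_abs, abs_of_nonneg (by linarith [ht.1])]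
      exact ENNReal.ofReal_le_ofReal ht.2
    · rw [indicator_of_notMem ht]
      simp
  have hF'2 : ∫⁻ t, ‖F' t‖ₑ ^ 2 ≠ ⊤ := by
    apply ne_top_of_le_ne_top _ (lintegral_mono hF'n)
    rw [lintegral_const_mul' _ _ ENNReal.ofReal_ne_top, lintegral_indicator measurableSet_Icc]
    exact ENNReal.mul_ne_top ENNReal.ofReal_ne_top htop
  have hBb : ∀ τ : ℝ, ‖∫ u in Ioi (0 : ℝ), G u / u * cexp (-(I * ((τ * Real.log u : ℝ) : ℂ)))‖ ≤
      C * T ^ (-δ) := by
    intro τ
    refine le_trans (le_of_eq ?_) (hB T τ hT)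
    congr 1
    refine setIntegral_congr_fun measurableSet_Ioi fun u _ => ?_
    simp only [hG]
    push_cast
    ring
  have key := h2 F' G (T * (A⁻¹ / 2)) (3 * A * T) (C * T ^ (-δ)) (by positivity) (by nlinarith)
    hF'm hF's hF'2 hGc hGs (by positivity) hBb
  -- lower bound of the left side
  have hLHS : ENNReal.ofReal A⁻¹ * ∫⁻ l in Icc A⁻¹ A,
      ‖∫ t in Icc T (2 * T), F t * ((ff (l * t) - D0 (l * t) : ℝ) : ℂ)‖ₑ ^ 2 ≤
      ∫⁻ l in Ioi (0 : ℝ), ‖∫ t in Ioi (0 : ℝ), F' t * G (l * t) / t‖ₑ ^ 2 *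
        ENNReal.ofReal l⁻¹ := by
    rw [← lintegral_const_mul' _ _ ENNReal.ofReal_ne_top]
    have hsub : Icc A⁻¹ A ⊆ Ioi (0 : ℝ) := fun l hl => lt_of_lt_of_le hAi hl.1
    refine le_trans ?_ (lintegral_mono_set hsub)
    refine setLIntegral_mono' measurableSet_Icc fun l hl => ?_
    rw [mul_comm]
    have hl0 : 0 < l := hsub hl
    have e1 : ∫ t in Ioi (0 : ℝ), F' t * G (l * t) / t =
        ∫ t in Icc T (2 * T), F t * ((ff (l * t) - D0 (l * t) : ℝ) : ℂ) := by
      have hs2 : Icc T (2 * T) ⊆ Ioi (0 : ℝ) := fun t ht => lt_of_lt_of_le hT0 ht.1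
      have e2 : ∀ t ∈ Ioi (0 : ℝ), F' t * G (l * t) / t =
          (Icc T (2 * T)).indicator (fun t => F t * ((ff (l * t) - D0 (l * t) : ℝ) : ℂ)) t := by
        intro t ht0
        by_cases ht : t ∈ Icc T (2 * T)
        · rw [indicator_of_mem ht, hF', indicator_of_mem ht]
          simp only [hG]
          rw [hw4, one_mul]
          · have : (t : ℂ) ≠ 0 := ofReal_ne_zero.2 (ne_of_gt ht0)
            field_simp
          · constructor
            · rw [le_div_iff₀ hT0]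
              exact mul_le_mul hl.1 ht.1 hT0.le hl0.le
            · rw [div_le_iff₀ hT0]
              calc l * t ≤ A * (2 * T) := mul_le_mul hl.2 ht.2 ht0.le hA0.le
                _ = 2 * A * T := by ring
        · rw [indicator_of_notMem ht, hF', indicator_of_notMem ht]
          simp
      rw [setIntegral_congr_fun measurableSet_Ioi e2, setIntegral_indicator measurableSet_Icc,
        inter_eq_self_of_subset_right hs2]
    rw [e1]
    gcongr
    exact hl.2
  -- upper bound of the right side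
  have hRHS : ∫⁻ t in Ioi (0 : ℝ), ‖F' t‖ₑ ^ 2 * ENNReal.ofReal t⁻¹ ≤ ENNReal.ofReal (2 * T) * I2 := by
    have hs2 : Icc T (2 * T) ⊆ Ioi (0 : ℝ) := fun t ht => lt_of_lt_of_le hT0 ht.1
    have e3 : ∀ t ∈ Ioi (0 : ℝ), ‖F' t‖ₑ ^ 2 * ENNReal.ofReal t⁻¹ ≤
        ENNReal.ofReal (2 * T) * (Icc T (2 * T)).indicator (fun t => ‖F t‖ₑ ^ 2) t := by
      intro t ht0
      by_cases ht : t ∈ Icc T (2 * T)
      · rw [indicator_of_mem ht, hF', indicator_of_mem ht, enorm_mul, mul_pow]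
        have e4 : ‖(t : ℂ)‖ₑ = ENNReal.ofReal t := by
          rw [← ofReal_norm, norm_real, Real.norm_eq_abs, abs_of_pos ht0]
        rw [e4]
        calc ENNReal.ofReal t ^ 2 * ‖F t‖ₑ ^ 2 * ENNReal.ofReal t⁻¹
            = ENNReal.ofReal t * (ENNReal.ofReal t * ENNReal.ofReal t⁻¹) * ‖F t‖ₑ ^ 2 := by ring
          _ = ENNReal.ofReal t * ‖F t‖ₑ ^ 2 := by
              rw [← ENNReal.ofReal_mul (le_of_lt ht0), mul_inv_cancel₀ (ne_of_gt ht0),
                ENNReal.ofReal_one, mul_one]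
          _ ≤ _ := by
              gcongr
              exact ht.2
      · rw [hF', indicator_of_notMem ht]
        simp
    refine (setLIntegral_mono' measurableSet_Ioi e3).trans ?_
    rw [lintegral_const_mul' _ _ ENNReal.ofReal_ne_top, setLIntegral_indicator measurableSet_Icc,
      inter_eq_self_of_subset_left hs2]
  have h7 : ENNReal.ofReal A⁻¹ * ∫⁻ l in Icc A⁻¹ A,
      ‖∫ t in Icc T (2 * T), F t * ((ff (l * t) - D0 (l * t) : ℝ) : ℂ)‖ₑ ^ 2 ≤
      ENNReal.ofReal ((C * T ^ (-δ)) ^ 2) * (ENNReal.ofReal (2 * T) * I2) :=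
    hLHS.trans (key.trans (by gcongr))
  have h8 : ∫⁻ l in Icc A⁻¹ A,
      ‖∫ t in Icc T (2 * T), F t * ((ff (l * t) - D0 (l * t) : ℝ) : ℂ)‖ₑ ^ 2 =
      ENNReal.ofReal A * (ENNReal.ofReal A⁻¹ * ∫⁻ l in Icc A⁻¹ A,
      ‖∫ t in Icc T (2 * T), F t * ((ff (l * t) - D0 (l * t) : ℝ) : ℂ)‖ₑ ^ 2) := by
    rw [← mul_assoc, ← ENNReal.ofReal_mul hA0.le, mul_inv_cancel₀ hA0.ne', ENNReal.ofReal_one,
      one_mul]
  rw [h8]
  refine (mul_le_mul_right h7 _).trans (le_of_eq ?_)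
  rw [← mul_assoc, ← mul_assoc, ← ENNReal.ofReal_mul hA0.le, ← ENNReal.ofReal_mul (by positivity)]
  congr 2
  have h9 : T ^ (1 - 2 * δ) = (T ^ (-δ)) ^ 2 * T := by
    rw [← Real.rpow_natCast, ← Real.rpow_mul hT0.le]
    nth_rewrite 3 [← Real.rpow_one T]
    rw [← Real.rpow_add hT0]
    congr 1
    push_cast
    ring
  rw [h9]
  ring

end Pool.Agent.Helper30K1.GD
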