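import Pool.Agent.Helper30K1.GD.DILKb
import Pool.Agent.N879.GD.Cru
import Pool.Agent.N879.GD.M4b

set_option autoImplicit false

/-!
Project GD, piece DILK (helper40): several dilations.
-/

namespace Pool.Agent.Helper30K1.GD

open Complex Filter Topology MeasureTheory Set
open Pool.Agent.Y969.GP (ff V ht lam PS co PX)
open Pool.Agent.N879.GD

namespace Dilk

lemma ae_muk_pos {k : ℕ} {A : ℝ} (hA : 1 ≤ A) : ∀ᵐ y ∂(muk k A), ∀ j, 0 < y j := by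
  rw [← muk_eq]
  filter_upwards [ae_restrict_mem measurableSet_Icc] with y hy j
  have h1 := hy.1 j
  have h2 : (0 : ℝ) < A⁻¹ := inv_pos.2 (by linarith)
  exact h2.trans_le h1

lemma ae_nu {A : ℝ} : ∀ᵐ x ∂(nu A), x ∈ Icc A⁻¹ A := by
  unfold nu
  exact ae_restrict_mem measurableSet_Icc

lemma nu_univ {A : ℝ} (hA : 1 ≤ A) : (nu A) univ ≤ ENNReal.ofReal A := by
  unfold nu
  rw [Measure.restrict_apply_univ, Real.volume_Icc]
  apply ENNReal.ofReal_le_ofReal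
  have : 0 < A⁻¹ := inv_pos.2 (by linarith)
  linarith

lemma s1_aux {A : ℝ} {k : ℕ} {T : ℝ} {F : ℝ → ℂ} {c : ℝ}
    (h1 : ∀ G : ℝ → ℂ, Measurable G →
      ∫⁻ l in Icc A⁻¹ A, ‖∫ t in Icc T (2 * T), G t * ((ff (l * t) - D0 (l * t) : ℝ) : ℂ)‖ₑ ^ 2 ≤
      ENNReal.ofReal c * ∫⁻ t in Icc T (2 * T), ‖G t‖ₑ ^ 2)
    (mP : ∀ y : Fin k → ℝ, Measurable fun t : ℝ => F t * ((∏ j, ff (y j * t) : ℝ) : ℂ)) :
    ∀ y : Fin k → ℝ, ∫⁻ x, ‖I1 (k := k) T F (x, y)‖ₑ ^ 2 ∂(nu A) ≤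
      ENNReal.ofReal c * ∫⁻ t in Icc T (2 * T), ‖F t * ((∏ j, ff (y j * t) : ℝ) : ℂ)‖ₑ ^ 2 := by
  intro y
  have := h1 (fun t => F t * ((∏ j, ff (y j * t) : ℝ) : ℂ)) (mP y)
  unfold I1 nu
  exact this

/-- the first part -/
lemma bd_I1 (hC : Continuous ff) {A : ℝ} {k : ℕ} {T : ℝ} {F : ℝ → ℂ}
    (hF : Measurable F) (hT : 1 ≤ T) {c CR ε : ℝ} (hCR : 0 < CR) (hε : 0 < ε)
    (h1 : ∀ G : ℝ → ℂ, Measurable G →
      ∫⁻ l in Icc A⁻¹ A, ‖∫ t in Icc T (2 * T), G t * ((ff (l * t) - D0 (l * t) : ℝ) : ℂ)‖ₑ ^ 2 ≤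
      ENNReal.ofReal c * ∫⁻ t in Icc T (2 * T), ‖G t‖ₑ ^ 2)
    (h2 : ∀ t : ℝ, 1 ≤ t →
      ∫⁻ y, ‖((∏ j, ff (y j * t) : ℝ) : ℂ)‖ₑ ^ 2 ∂(muk k A) ≤ ENNReal.ofReal (CR * t ^ ε)) :
    ∫⁻ p, ‖I1 (k := k) T F p‖ₑ ^ 2 ∂((nu A).prod (muk k A)) ≤
      ENNReal.ofReal c * (ENNReal.ofReal (CR * (2 * T) ^ ε) * ∫⁻ t in Icc T (2 * T), ‖F t‖ₑ ^ 2) := by
  have m0 : Measurable fun p => ‖I1 (k := k) T F p‖ₑ ^ 2 := (meas_I1 hC hF).enorm.pow_const 2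
  rw [lintegral_prod_symm' _ m0]
  have mP : ∀ y : Fin k → ℝ, Measurable fun t : ℝ => F t * ((∏ j, ff (y j * t) : ℝ) : ℂ) := by
    intro y
    apply hF.mul
    apply Complex.measurable_ofReal.comp
    apply Finset.measurable_prod
    intro j _
    exact hC.measurable.comp (measurable_const.mul measurable_id)
  have s1 : ∀ y : Fin k → ℝ, ∫⁻ x, ‖I1 (k := k) T F (x, y)‖ₑ ^ 2 ∂(nu A) ≤
      ENNReal.ofReal c * ∫⁻ t in Icc T (2 * T), ‖F t * ((∏ j, ff (y j * t) : ℝ) : ℂ)‖ₑ ^ 2 :=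
    s1_aux h1 mP
  refine (lintegral_mono s1).trans ?_
  rw [lintegral_const_mul' _ _ ENNReal.ofReal_ne_top]
  refine mul_le_mul' le_rfl ?_
  have m2 : Measurable fun q : (Fin k → ℝ) × ℝ => ‖F q.2 * ((∏ j, ff (q.1 j * q.2) : ℝ) : ℂ)‖ₑ ^ 2 := by
    have a1 : Measurable fun q : (Fin k → ℝ) × ℝ => F q.2 := hF.comp measurable_snd
    have a3 : Measurable fun q : (Fin k → ℝ) × ℝ => ∏ j, ff (q.1 j * q.2) := meas_prod hC.measurable
    exact ((a1.mul (Complex.measurable_ofReal.comp a3)).enorm).pow_const 2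
  rw [lintegral_lintegral_swap (μ := muk k A) (ν := volume.restrict (Icc T (2 * T)))
    (f := fun y t => ‖F t * ((∏ j, ff (y j * t) : ℝ) : ℂ)‖ₑ ^ 2) m2.aemeasurable]
  rw [← lintegral_const_mul' _ _ ENNReal.ofReal_ne_top]
  apply setLIntegral_mono' measurableSet_Icc
  intro t ht
  have ht1 : 1 ≤ t := hT.trans ht.1
  have e : ∀ y : Fin k → ℝ, ‖F t * ((∏ j, ff (y j * t) : ℝ) : ℂ)‖ₑ ^ 2 =
      ‖F t‖ₑ ^ 2 * ‖((∏ j, ff (y j * t) : ℝ) : ℂ)‖ₑ ^ 2 := by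
    intro y; rw [enorm_mul, mul_pow]
  simp_rw [e]
  rw [lintegral_const_mul' _ _ (ENNReal.pow_ne_top enorm_ne_top), mul_comm]
  refine mul_le_mul' ((h2 t ht1).trans (ENNReal.ofReal_le_ofReal ?_)) le_rfl
  exact mul_le_mul_of_nonneg_left (Real.rpow_le_rpow (by linarith) ht.2 hε.le) hCR.le

/-- the second part -/
lemma bd_I2 (hC : Continuous ff) {A : ℝ} (hA : 1 ≤ A) {k : ℕ} {T : ℝ} {F : ℝ → ℂ}
    (hF : Measurable F) {c CD : ℝ} (hCD : 0 ≤ CD)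
    (h1 : ∀ G : ℝ → ℂ, Measurable G →
      ∫⁻ y, ‖∫ t in Icc T (2 * T), G t * ((dif y t : ℝ) : ℂ)‖ₑ ^ 2 ∂(muk k A) ≤
      ENNReal.ofReal c * ∫⁻ t in Icc T (2 * T), ‖G t‖ₑ ^ 2)
    (h2 : ∀ t x : ℝ, t ∈ Icc T (2 * T) → x ∈ Icc A⁻¹ A → |D0 (x * t)| ≤ CD) :
    ∫⁻ p, ‖I2 (k := k) T F p‖ₑ ^ 2 ∂((nu A).prod (muk k A)) ≤
      ENNReal.ofReal A * (ENNReal.ofReal c * (ENNReal.ofReal (CD ^ 2) *
        ∫⁻ t in Icc T (2 * T), ‖F t‖ₑ ^ 2)) := by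
  refine (lintegral_prod_le _).trans ?_
  have s1 : ∀ᵐ x ∂(nu A), ∫⁻ y, ‖I2 (k := k) T F (x, y)‖ₑ ^ 2 ∂(muk k A) ≤
      ENNReal.ofReal c * (ENNReal.ofReal (CD ^ 2) * ∫⁻ t in Icc T (2 * T), ‖F t‖ₑ ^ 2) := by
    filter_upwards [ae_nu] with x hx
    have mG : Measurable fun t : ℝ => F t * ((D0 (x * t) : ℝ) : ℂ) :=
      hF.mul (Complex.measurable_ofReal.comp (meas_D0.comp (measurable_const.mul measurable_id)))
    refine (h1 _ mG).trans (mul_le_mul' le_rfl ?_)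
    rw [← lintegral_const_mul' _ _ ENNReal.ofReal_ne_top]
    apply setLIntegral_mono' measurableSet_Icc
    intro t ht
    rw [enorm_mul, mul_pow, mul_comm]
    refine mul_le_mul' ?_ le_rfl
    rw [← ofReal_norm, ← ENNReal.ofReal_pow (norm_nonneg _), Complex.norm_real, Real.norm_eq_abs]
    apply ENNReal.ofReal_le_ofReal
    exact pow_le_pow_left₀ (abs_nonneg _) (h2 t x ht hx) 2
  refine (lintegral_mono_ae s1).trans ?_
  rw [lintegral_const, mul_comm]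
  exact mul_le_mul' (nu_univ hA) le_rfl

/-- the induction -/
lemma main (hC : Continuous ff) (hM : S_M4) {δ : ℝ} (hδ : P_DIL1 δ) (k : ℕ) :
    ∀ δ' : ℝ, 0 < δ' → δ' < δ → ∀ A : ℝ, 1 ≤ A → ∃ C T₀ : ℝ, 0 < C ∧ 1 ≤ T₀ ∧
      ∀ (T : ℝ) (F : ℝ → ℂ), T₀ ≤ T → Measurable F →
      ∫⁻ l, ‖∫ t in Icc T (2 * T), F t * ((dif l t : ℝ) : ℂ)‖ₑ ^ 2 ∂(muk k A) ≤
        ENNReal.ofReal (C * T ^ (1 - 2 * δ')) * ∫⁻ t in Icc T (2 * T), ‖F t‖ₑ ^ 2 := by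
  induction k with
  | zero =>
    intro δ' _ _ A _
    refine ⟨1, 1, one_pos, le_rfl, fun T F _ _ => ?_⟩
    have : ∀ (l : Fin 0 → ℝ) (t : ℝ), dif l t = 0 := by
      intro l t
      simp [dif]
    simp [this]
  | succ k ih =>
    intro δ' h0 hlt A hA
    obtain ⟨C1, T1, hC1, hT1, h1⟩ := hδ A hA
    obtain ⟨C2, T2, hC2, hT2, h2⟩ := ih ((δ + δ') / 2) (by linarith) (by linarith) A hA
    obtain ⟨CR, hCR, hR⟩ := k_mom hC hM hA k (ε := 2 * (δ - δ')) (by linarith)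
    obtain ⟨CD, hCD, hD⟩ := D0_bd hA (ε := (δ - δ') / 2) (by linarith)
    have hA0 : 0 < A := by linarith
    refine ⟨2 * (C1 * (CR * 2 ^ (2 * (δ - δ')))) + 2 * (A * (C2 * CD ^ 2)), max T1 T2, by positivity,
      le_max_of_le_left hT1, ?_⟩
    intro T F hT hF
    have hTT1 : T1 ≤ T := (le_max_left _ _).trans hT
    have hTT2 : T2 ≤ T := (le_max_right _ _).trans hT
    have hT1' : 1 ≤ T := hT1.trans hTT1
    have hT0 : 0 < T := by linarith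
    by_cases hS : ∫⁻ t in Icc T (2 * T), ‖F t‖ₑ ^ 2 = ⊤
    · rw [hS, ENNReal.mul_top]
      · exact le_top
      · rw [Ne, ENNReal.ofReal_eq_zero, not_le]
        positivity
    · rw [lint_succ]
      have s0 : ∀ᵐ p ∂((nu A).prod (muk k A)),
          ‖∫ t in Icc T (2 * T), F t * ((dif (Fin.cons p.1 p.2 : Fin (k + 1) → ℝ) t : ℝ) : ℂ)‖ₑ ^ 2 ≤
          2 * ‖I1 (k := k) T F p‖ₑ ^ 2 + 2 * ‖I2 (k := k) T F p‖ₑ ^ 2 := by
        have a1 : ∀ᵐ p ∂((nu A).prod (muk k A)), p.1 ∈ Icc A⁻¹ A :=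
          Measure.quasiMeasurePreserving_fst.ae ae_nu
        have a2 : ∀ᵐ p ∂((nu A).prod (muk k A)), ∀ j, 0 < p.2 j :=
          Measure.quasiMeasurePreserving_snd.ae (ae_muk_pos hA)
        filter_upwards [a1, a2] with p hp1 hp2
        have hp : 0 < p.1 := (inv_pos.2 hA0).trans_le hp1.1
        rw [split hC hT0 hF hS hp hp2]
        exact sq_add_le _ _
      refine (lintegral_mono_ae s0).trans ?_
      have m1 : Measurable fun p => 2 * ‖I1 (k := k) T F p‖ₑ ^ 2 :=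
        ((meas_I1 hC hF).enorm.pow_const 2).const_mul 2
      rw [lintegral_add_left m1, lintegral_const_mul' _ _ (by norm_num),
        lintegral_const_mul' _ _ (by norm_num)]
      have b1 := bd_I1 (k := k) hC (A := A) (T := T) (F := F) hF hT1' hCR (by linarith)
        (fun G hG => h1 T G hTT1 hG) hR
      have b2 := bd_I2 (k := k) hC hA (T := T) (F := F) hF (c := C2 * T ^ (1 - 2 * ((δ + δ') / 2)))
        (CD := CD * T ^ ((δ - δ') / 2)) (by positivity) (fun G hG => h2 T G hTT2 hG)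
        (fun t x ht hx => hD T t x hT1' ht hx)
      set S := ∫⁻ t in Icc T (2 * T), ‖F t‖ₑ ^ 2 with hSdef
      have g1 : (2 : ENNReal) * (ENNReal.ofReal (C1 * T ^ (1 - 2 * δ)) *
          (ENNReal.ofReal (CR * (2 * T) ^ (2 * (δ - δ'))) * S)) =
          ENNReal.ofReal (2 * (C1 * (CR * 2 ^ (2 * (δ - δ')))) * T ^ (1 - 2 * δ')) * S := by
        have e2 : (2 : ENNReal) = ENNReal.ofReal 2 := by norm_num
        rw [e2, ← mul_assoc, ← mul_assoc, ← ENNReal.ofReal_mul (by norm_num),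
          ← ENNReal.ofReal_mul (by positivity)]
        congr 2
        rw [Real.mul_rpow (by norm_num) hT0.le]
        have : T ^ (1 - 2 * δ') = T ^ (1 - 2 * δ) * T ^ (2 * (δ - δ')) := by
          rw [← Real.rpow_add hT0]; congr 1; ring
        rw [this]; ring
      have g2 : (2 : ENNReal) * (ENNReal.ofReal A * (ENNReal.ofReal (C2 * T ^ (1 - 2 * ((δ + δ') / 2))) *
          (ENNReal.ofReal ((CD * T ^ ((δ - δ') / 2)) ^ 2) * S))) =
          ENNReal.ofReal (2 * (A * (C2 * CD ^ 2)) * T ^ (1 - 2 * δ')) * S := by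
        have e2 : (2 : ENNReal) = ENNReal.ofReal 2 := by norm_num
        rw [e2, ← mul_assoc, ← mul_assoc, ← mul_assoc, ← ENNReal.ofReal_mul (by norm_num),
          ← ENNReal.ofReal_mul (by positivity), ← ENNReal.ofReal_mul (by positivity)]
        congr 2
        have : T ^ (1 - 2 * δ') = T ^ (1 - 2 * ((δ + δ') / 2)) * (T ^ ((δ - δ') / 2) * T ^ ((δ - δ') / 2)) := by
          rw [← Real.rpow_add hT0, ← Real.rpow_add hT0]; congr 1; ring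
        rw [this]; ring
      refine (add_le_add (mul_le_mul' le_rfl b1) (mul_le_mul' le_rfl b2)).trans (le_of_eq ?_)
      rw [g1, g2, ← add_mul, ← ENNReal.ofReal_add (by positivity) (by positivity), ← add_mul]

end Dilk

theorem t_DILK' (h1 : S_CRU) (h2 : S_M4) : S_DILK := by
  intro δ δ' h0 hlt _ hδ k A hA
  obtain ⟨C, N, hC0, hC, _⟩ := h1
  obtain ⟨C', T₀, a, b, c⟩ := Dilk.main hC h2 hδ k δ' h0 hlt A hA
  refine ⟨C', T₀, a, b, fun T F hT hF => ?_⟩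
  rw [Dilk.muk_eq]
  exact c T F hT hF

theorem t_DILK : S_DILK := t_DILK' t_CRU t_M4'

end Pool.Agent.Helper30K1.GD
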