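import Pool.Agent.N879.GD.Stm

set_option autoImplicit false

/-! Project GD, part FIN: the final assembly. -/

namespace Pool.Agent.Helper30K1.GD

open Complex Filter Topology MeasureTheory Set
open Pool.Agent.N879.GD
open Pool.Agent.Y969.GP (ff V ht lam PS co PX)

theorem exists_box {k : ℕ} (l : Fin k → ℝ) (hl : ∀ j, 0 < l j) :
    ∃ A : ℕ, ∀ j, ((A : ℝ) + 1)⁻¹ ≤ l j ∧ l j ≤ (A : ℝ) + 1 := by
  obtain ⟨A, hA⟩ := exists_nat_gt (∑ j, (l j + (l j)⁻¹))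
  refine ⟨A, fun j => ?_⟩
  have h1 : l j + (l j)⁻¹ ≤ ∑ j, (l j + (l j)⁻¹) :=
    Finset.single_le_sum (f := fun j => l j + (l j)⁻¹)
      (fun i _ => by have := hl i; positivity) (Finset.mem_univ j)
  have h2 := hl j
  have h3 : 0 < (l j)⁻¹ := by positivity
  constructor
  · rw [inv_le_comm₀ (by positivity) h2]
    linarith
  · linarith

theorem t_FIN (h1 : S_DIL1) (hK : S_DILK) (hC : S_COV) (hI : S_INT) (hM : S_MB) (hP : S_LIP)
    (hD : S_DET) : S_FIN := by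
  obtain ⟨δ0, hδ0, hδ01, hd1⟩ := h1
  obtain ⟨δ1, hδ1⟩ : ∃ δ1 : ℝ, δ1 = δ0 / 2 := ⟨_, rfl⟩
  have hp1 : 0 < δ1 := by rw [hδ1]; positivity
  have hp2 : δ1 ≤ 1 / 2 := by rw [hδ1]; linarith
  have hdk : P_DILK δ1 := hK δ0 δ1 hp1 (by rw [hδ1]; linarith) hδ01 hd1
  obtain ⟨θ, hθ⟩ : ∃ θ : ℝ, θ = δ1 / 2 := ⟨_, rfl⟩
  obtain ⟨ρ, hρ⟩ : ∃ ρ : ℝ, ρ = δ1 / 4 := ⟨_, rfl⟩
  obtain ⟨κ, hκ⟩ : ∃ κ : ℝ, κ = δ1 / 2 := ⟨_, rfl⟩
  have hθ0 : 0 < θ := by rw [hθ]; positivity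
  have hθ1 : θ ≤ 1 := by rw [hθ]; linarith
  have hρ0 : 0 < ρ := by rw [hρ]; positivity
  have hρ1 : ρ ≤ 1 := by rw [hρ]; linarith
  have hκ0 : 0 < κ := by rw [hκ]; positivity
  refine ⟨δ1 / 8, by positivity, by linarith, fun k hk => ?_⟩
  obtain ⟨K, hK1, hlip⟩ := hP k
  have hK0 : 0 < K := by linarith
  have hk1 : (1 : ℝ) ≤ k := by exact_mod_cast hk
  obtain ⟨s, hs⟩ : ∃ s : ℝ, s = k - κ / (2 * K) := ⟨_, rfl⟩
  have hq0 : 0 < κ / (2 * K) := by positivity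
  have hq1 : κ / (2 * K) ≤ 1 / 4 := by
    rw [div_le_iff₀ (by positivity)]
    linarith
  have hs0 : 0 < s := by rw [hs]; linarith
  refine ⟨s, hs0, by rw [hs]; linarith, fun F hF => ?_⟩
  refine ⟨⋃ A : ℕ, {x | ∃ᶠ n : ℕ in atTop, x ∈ Bad k F ((A : ℝ) + 1) 1 θ ρ n}, ?_, ?_⟩
  · rw [dimH_iUnion]
    refine iSup_le fun A => ?_
    have hA : (1 : ℝ) ≤ (A : ℝ) + 1 := by
      have : (0 : ℝ) ≤ A := Nat.cast_nonneg A
      linarith
    obtain ⟨C, hC0, hv⟩ := hM δ1 θ ρ κ hp1 hθ0 hθ1 hρ0 hρ1 hdk (by rw [hθ, hρ, hκ]; linarith) k F hF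
      (2 * ((A : ℝ) + 1)) (1 / 2) (by linarith) (by norm_num)
    refine hC k s (fun n => Bad k F ((A : ℝ) + 1) 1 θ ρ n)
      (fun n => Bad k F (2 * ((A : ℝ) + 1)) (1 / 2) θ ρ n)
      (fun n => ((2 : ℝ) ^ n) ^ (-K)) (fun n => C * ((2 : ℝ) ^ n) ^ (-κ)) hk hs0
      (fun n => by positivity) ?_ (fun n => by positivity) (hlip F ((A : ℝ) + 1) θ ρ hF hA hθ0 hθ1 hρ0 hρ1)
      hv ?_
    · have h2 : Tendsto (fun n : ℕ => (2 : ℝ) ^ n) atTop atTop :=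
        tendsto_pow_atTop_atTop_of_one_lt (by norm_num)
      exact (tendsto_rpow_neg_atTop hK0).comp h2
    · have e : (fun n : ℕ => C * ((2 : ℝ) ^ n) ^ (-κ) * (((2 : ℝ) ^ n) ^ (-K)) ^ (s - (k : ℝ))) =
          fun n : ℕ => C * ((2 : ℝ) ^ (-(κ / 2))) ^ n := by
        funext n
        have h2 : (0 : ℝ) < 2 ^ n := by positivity
        rw [← Real.rpow_mul h2.le, mul_assoc, ← Real.rpow_add h2, ← Real.rpow_natCast 2 n,
          ← Real.rpow_mul (by norm_num), ← Real.rpow_natCast ((2 : ℝ) ^ (-(κ / 2))) n,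
          ← Real.rpow_mul (by norm_num)]
        congr 2
        rw [hs]
        field_simp
        ring
      rw [e]
      refine (summable_geometric_of_lt_one (by positivity) ?_).mul_left C
      exact Real.rpow_lt_one_of_one_lt_of_neg (by norm_num) (by linarith)
  · intro l hl hl0
    obtain ⟨A, hA⟩ := exists_box l hl0
    have hA1 : (1 : ℝ) ≤ (A : ℝ) + 1 := by
      have : (0 : ℝ) ≤ A := Nat.cast_nonneg A
      linarith
    have hev : ∀ᶠ n : ℕ in atTop, l ∉ Bad k F ((A : ℝ) + 1) 1 θ ρ n := by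
      rw [mem_iUnion, not_exists] at hl
      have := hl A
      rw [mem_setOf_eq, not_frequently] at this
      exact this
    obtain ⟨C, hCC⟩ := hD k F ((A : ℝ) + 1) θ ρ (δ1 / 8) hF hA1 hθ0 hθ1 hρ0 hρ1 (by positivity)
      (by rw [hρ]; linarith) (by rw [hθ]; linarith) l hA hev
    refine ⟨C, fun T hT => ?_⟩
    have hT0 : 0 ≤ T := by linarith
    refine le_trans (le_of_eq ?_) (hCC T hT)
    obtain ⟨i1, i2⟩ := hI k F hF l hl0 T
    rw [intervalIntegral.integral_of_le hT0, intervalIntegral.integral_of_le hT0, ← integral_sub i1 i2]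
    congr 2
    funext t
    unfold dif
    push_cast
    ring

end Pool.Agent.Helper30K1.GD
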