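import Pool.Agent.N879.GD.Cru

set_option autoImplicit false

/-!
Project GD: balls around bad parameters stay bad (helper39).
-/

namespace Pool.Agent.Helper30K1.GD

open Complex Filter Topology MeasureTheory Set
open Pool.Agent.Y969.GP (ff)
open Pool.Agent.N879.GD

namespace LDa

/-! ### The weight `F` -/

lemma F_sq {F : ℝ → ℂ} (hF : Gr F) (T : ℝ) : IntegrableOn (fun t => ‖F t‖ ^ 2) (Ioc 0 T) := by
  obtain ⟨hm, h⟩ := hF
  obtain ⟨C, hC, h1⟩ := h 1 one_pos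
  have h2 : IntegrableOn (fun t => ‖F t‖ ^ 2) (Ioc 0 (max T 1)) := by
    refine ⟨(hm.norm.pow_const 2).aestronglyMeasurable, ?_⟩
    rw [hasFiniteIntegral_iff_enorm]
    have h3 : (∫⁻ t in Ioc 0 (max T 1), ‖‖F t‖ ^ 2‖ₑ) = ∫⁻ t in Ioc 0 (max T 1), ‖F t‖ₑ ^ 2 := by
      refine lintegral_congr fun t => ?_
      rw [enorm_pow, enorm_norm]
    rw [h3]
    exact (h1 _ (le_max_right _ _)).trans_lt ENNReal.ofReal_lt_top
  exact h2.mono_set (Ioc_subset_Ioc_right (le_max_left _ _))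

lemma F_sq_le {F : ℝ → ℂ} (hF : Gr F) {ε : ℝ} (hε : 0 < ε) : ∃ C : ℝ, 0 < C ∧ ∀ T : ℝ, 1 ≤ T →
    ∫ t in Ioc 0 T, ‖F t‖ ^ 2 ≤ C * T ^ (1 + ε) := by
  obtain ⟨C, hC, h1⟩ := hF.2 ε hε
  refine ⟨C, hC, fun T hT => ?_⟩
  have h2 := h1 T hT
  have h3 : ENNReal.ofReal (∫ t in Ioc 0 T, ‖F t‖ ^ 2) = ∫⁻ t in Ioc 0 T, ‖F t‖ₑ ^ 2 := by
    rw [ofReal_integral_eq_lintegral_ofReal (F_sq hF T) (Eventually.of_forall fun t => by positivity)]
    refine lintegral_congr fun t => ?_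
    rw [ENNReal.ofReal_pow (norm_nonneg _), ofReal_norm]
  rw [← h3] at h2
  exact (ENNReal.ofReal_le_ofReal_iff (by positivity)).1 h2

lemma F_int {F : ℝ → ℂ} (hF : Gr F) (T : ℝ) : IntegrableOn F (Ioc 0 T) := by
  have h1 : IntegrableOn (fun t => 1 + ‖F t‖ ^ 2) (Ioc 0 T) :=
    (integrableOn_const (by simp)).add (F_sq hF T)
  refine Integrable.mono' h1 hF.1.aestronglyMeasurable (Eventually.of_forall fun t => ?_)
  nlinarith [sq_nonneg (‖F t‖ - 1)]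

lemma F_L1 {F : ℝ → ℂ} (hF : Gr F) {T a b α : ℝ} (ha : 0 < a) (hab : a ≤ b) (hb : b ≤ T) (hα : 0 < α) :
    ∫ t in Icc a b, ‖F t‖ ≤ α * (b - a) + α⁻¹ * ∫ t in Ioc 0 T, ‖F t‖ ^ 2 := by
  have hs : Icc a b ⊆ Ioc 0 T := fun t ht => ⟨ha.trans_le ht.1, ht.2.trans hb⟩
  have h1 : IntegrableOn (fun t => ‖F t‖ ^ 2) (Icc a b) := (F_sq hF T).mono_set hs
  have h2 : IntegrableOn (fun t => α + α⁻¹ * ‖F t‖ ^ 2) (Icc a b) :=
    (integrableOn_const (by simp)).add (h1.const_mul _)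
  calc ∫ t in Icc a b, ‖F t‖ ≤ ∫ t in Icc a b, (α + α⁻¹ * ‖F t‖ ^ 2) := by
        refine setIntegral_mono_on ((F_int hF T).mono_set hs).norm h2 measurableSet_Icc fun t _ => ?_
        have h3 : 0 ≤ α⁻¹ * (‖F t‖ - α) ^ 2 := by positivity
        have h4 : α⁻¹ * (‖F t‖ - α) ^ 2 = α⁻¹ * ‖F t‖ ^ 2 - 2 * ‖F t‖ + α := by
          field_simp
          ring
        have h5 := norm_nonneg (F t)
        linarith
    _ = α * (b - a) + α⁻¹ * ∫ t in Icc a b, ‖F t‖ ^ 2 := by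
        have h6 : IntegrableOn (fun _ : ℝ => α) (Icc a b) := integrableOn_const (by simp)
        rw [integral_add h6 (h1.const_mul _), setIntegral_const, integral_const_mul]
        simp only [smul_eq_mul, Real.volume_real_Icc_of_le hab]
        ring
    _ ≤ _ := by
        have h7 : ∫ t in Icc a b, ‖F t‖ ^ 2 ≤ ∫ t in Ioc 0 T, ‖F t‖ ^ 2 :=
          setIntegral_mono_set (F_sq hF T) (Eventually.of_forall fun t => by positivity)
            (Eventually.of_forall hs)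
        gcongr

/-! ### The main term and the difference -/

lemma D0_cont {c : ℝ} (hc : 0 < c) : ContinuousOn (fun t => D0 (c * t)) (Ioi 0) := by
  unfold D0
  refine ContinuousOn.add (ContinuousOn.log (by fun_prop) fun t ht => ?_) continuousOn_const
  have : 0 < t := ht
  positivity

lemma dif_cont {k : ℕ} {l : Fin k → ℝ} (hl : ∀ j, 0 < l j) : ContinuousOn (dif l) (Ioi 0) := by
  obtain ⟨C, N, hC, h1, h2, h3⟩ := t_CRU
  unfold dif
  refine ContinuousOn.sub ?_ ?_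
  · exact (continuous_finsetProd _ fun j _ => h1.comp (by fun_prop)).continuousOn
  · exact continuousOn_finsetProd _ fun j _ => D0_cont (hl j)

lemma mul_dif_int {k : ℕ} {F G : ℝ → ℂ} (hF : Gr F) (hG : Measurable G) (hFG : ∀ t, ‖G t‖ = ‖F t‖)
    {l : Fin k → ℝ} (hl : ∀ j, 0 < l j) {a b : ℝ} (ha : 0 < a) :
    IntegrableOn (fun t => G t * ((dif l t : ℝ) : ℂ)) (Icc a b) := by
  have hG1 : IntegrableOn G (Icc a b) := by
    have h1 : IntegrableOn F (Icc a b) := (F_int hF b).mono_set fun t ht => ⟨ha.trans_le ht.1, ht.2⟩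
    exact Integrable.mono h1 hG.aestronglyMeasurable (Eventually.of_forall fun t => (hFG t).le)
  refine hG1.mul_continuousOn ?_ isCompact_Icc
  exact continuous_ofReal.comp_continuousOn ((dif_cont hl).mono fun t ht => ha.trans_le ht.1)

/-- products of close numbers are close -/
lemma prod_sub {ι : Type*} (s : Finset ι) (p q : ι → ℝ) {M d : ℝ} (hM : 1 ≤ M) (hd : 0 ≤ d)
    (hp : ∀ i ∈ s, |p i| ≤ M) (hq : ∀ i ∈ s, |q i| ≤ M) (hpq : ∀ i ∈ s, |p i - q i| ≤ d) :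
    |∏ i ∈ s, p i - ∏ i ∈ s, q i| ≤ s.card * M ^ s.card * d := by
  classical
  induction s using Finset.induction_on with
  | empty => simp
  | insert a s ha ih =>
    rw [Finset.prod_insert ha, Finset.prod_insert ha, Finset.card_insert_of_notMem ha]
    have h1 := ih (fun i hi => hp i (Finset.mem_insert_of_mem hi))
      (fun i hi => hq i (Finset.mem_insert_of_mem hi)) (fun i hi => hpq i (Finset.mem_insert_of_mem hi))
    have h2 : |∏ i ∈ s, p i| ≤ M ^ s.card := by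
      rw [Finset.abs_prod]
      calc ∏ i ∈ s, |p i| ≤ ∏ _i ∈ s, M := Finset.prod_le_prod (fun i _ => abs_nonneg _)
            fun i hi => hp i (Finset.mem_insert_of_mem hi)
        _ = _ := by rw [Finset.prod_const]
    have h3 := hq a (Finset.mem_insert_self _ _)
    have h4 := hpq a (Finset.mem_insert_self _ _)
    have hM0 : 0 ≤ M := by linarith
    calc |p a * ∏ i ∈ s, p i - q a * ∏ i ∈ s, q i|
        = |(p a - q a) * ∏ i ∈ s, p i + q a * (∏ i ∈ s, p i - ∏ i ∈ s, q i)| := by ring_nf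
      _ ≤ |p a - q a| * |∏ i ∈ s, p i| + |q a| * |∏ i ∈ s, p i - ∏ i ∈ s, q i| := by
          rw [← abs_mul, ← abs_mul]
          exact abs_add_le _ _
      _ ≤ d * M ^ s.card + M * (s.card * M ^ s.card * d) := by gcongr
      _ ≤ d * M ^ (s.card + 1) + M * (s.card * M ^ s.card * d) := by
          have h5 : M ^ s.card ≤ M ^ (s.card + 1) := pow_le_pow_right₀ hM (by omega)
          gcongr
      _ = _ := by
          push_cast
          ring

lemma log_abs_le {u : ℝ} (hu : 0 < u) : |Real.log u| ≤ u + u⁻¹ := by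
  have h1 := Real.log_le_sub_one_of_pos hu
  have h2 := Real.log_le_sub_one_of_pos (inv_pos.2 hu)
  rw [Real.log_inv] at h2
  have h3 : 0 < u⁻¹ := inv_pos.2 hu
  rw [abs_le]
  constructor <;> linarith

lemma D0_abs_le {u : ℝ} (hu : 0 < u) : |D0 u| ≤ u + u⁻¹ + 10 := by
  unfold D0
  have hp := Real.pi_pos
  have hp3 := Real.pi_gt_three
  have hp4 := Real.pi_lt_four
  have h1 : Real.log (u / (2 * Real.pi)) = Real.log u - Real.log (2 * Real.pi) :=
    Real.log_div hu.ne' (by positivity)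
  have h2 := log_abs_le hu
  have h3 : Real.log (2 * Real.pi) ≤ 8 := by
    have := Real.log_le_sub_one_of_pos (show 0 < 2 * Real.pi by positivity)
    linarith
  have h4 : 0 ≤ Real.log (2 * Real.pi) := Real.log_nonneg (by linarith)
  have h5 := Real.eulerMascheroniConstant_lt_two_thirds
  have h6 := Real.one_half_lt_eulerMascheroniConstant
  rw [h1, abs_le]
  rw [abs_le] at h2
  constructor <;> linarith [h2.1, h2.2]

lemma D0_sub {u v m : ℝ} (hm : 0 < m) (hu : m ≤ u) (hv : m ≤ v) : |D0 u - D0 v| ≤ m⁻¹ * |u - v| := by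
  have hp := Real.pi_pos
  unfold D0
  have hu0 : 0 < u := hm.trans_le hu
  have hv0 : 0 < v := hm.trans_le hv
  have key : ∀ a b : ℝ, m ≤ a → m ≤ b → Real.log a - Real.log b ≤ m⁻¹ * |a - b| := by
    intro a b ha hb
    have ha0 : 0 < a := hm.trans_le ha
    have hb0 : 0 < b := hm.trans_le hb
    rw [← Real.log_div ha0.ne' hb0.ne']
    have h1 := Real.log_le_sub_one_of_pos (show 0 < a / b by positivity)
    have h2 : a / b - 1 = b⁻¹ * (a - b) := by field_simp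
    have h3 : b⁻¹ * (a - b) ≤ m⁻¹ * |a - b| := by
      calc b⁻¹ * (a - b) ≤ b⁻¹ * |a - b| := by
            gcongr
            exact le_abs_self _
        _ ≤ m⁻¹ * |a - b| := by
            gcongr
    linarith
  have e1 : Real.log (u / (2 * Real.pi)) = Real.log u - Real.log (2 * Real.pi) :=
    Real.log_div hu0.ne' (by positivity)
  have e2 : Real.log (v / (2 * Real.pi)) = Real.log v - Real.log (2 * Real.pi) :=
    Real.log_div hv0.ne' (by positivity)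
  rw [e1, e2, abs_le]
  have k1 := key u v hu hv
  have k2 := key v u hv hu
  rw [abs_sub_comm v u] at k2
  constructor <;> linarith

/-! ### Close parameters -/

lemma dif_close {C : ℝ} {N : ℕ} (hC : 0 < C) (h2 : ∀ u : ℝ, 0 ≤ u → ff u ≤ C * (1 + u) ^ N)
    (h3 : ∀ u v : ℝ, 0 ≤ u → 0 ≤ v → |ff u - ff v| ≤ C * (1 + u + v) ^ N * |u - v|)
    {k : ℕ} {A T d : ℝ} (hA : 1 ≤ A) (hT : 1 ≤ T) (hT1 : C * (9 * A) ^ N ≤ T) (hT2 : 16 * A ≤ T)
    {x y : Fin k → ℝ} (hx : ∀ j, (2 * A)⁻¹ ≤ x j ∧ x j ≤ 2 * A)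
    (hy : ∀ j, (2 * A)⁻¹ ≤ y j ∧ y j ≤ 2 * A) (hd : 0 ≤ d) (hxy : ∀ j, |x j - y j| ≤ d)
    {t : ℝ} (ht1 : T ≤ t) (ht2 : t ≤ 2 * T) :
    |dif x t - dif y t| ≤ 2 * (k * (T ^ (N + 2)) ^ k * (T ^ (N + 2) * (2 * T * d))) := by
  have hA0 : 0 < A := by linarith
  have hT0 : 0 < T := by linarith
  have ht0 : 0 < t := by linarith
  have hAT : 1 ≤ A * T := one_le_mul_of_one_le_of_one_le hA hT
  have hM : 1 ≤ T ^ (N + 2) := one_le_pow₀ hT
  have hTM : T ^ 2 ≤ T ^ (N + 2) := pow_le_pow_right₀ hT (by omega)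
  -- one coordinate
  have b1 : ∀ z : ℝ, (2 * A)⁻¹ ≤ z → z ≤ 2 * A → (2 * A)⁻¹ * T ≤ z * t ∧ z * t ≤ 4 * (A * T) := by
    intro z hz1 hz2
    have hz0 : 0 < z := lt_of_lt_of_le (by positivity) hz1
    refine ⟨by gcongr, ?_⟩
    calc z * t ≤ (2 * A) * (2 * T) := by gcongr
      _ = _ := by ring
  have hm0 : 0 < (2 * A)⁻¹ * T := by positivity
  have e1 : (9 * A * T) ^ N = (9 * A) ^ N * T ^ N := mul_pow _ _ _
  have e2 : C * (9 * A * T) ^ N ≤ T ^ (N + 2) := by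
    rw [e1]
    calc C * ((9 * A) ^ N * T ^ N) = (C * (9 * A) ^ N) * T ^ N := by ring
      _ ≤ T * T ^ N := by gcongr
      _ = T ^ (N + 1) := by ring
      _ ≤ _ := pow_le_pow_right₀ hT (by omega)
  have c1 : ∀ z : ℝ, (2 * A)⁻¹ ≤ z → z ≤ 2 * A → |ff (z * t)| ≤ T ^ (N + 2) := by
    intro z hz1 hz2
    obtain ⟨b2, b3⟩ := b1 z hz1 hz2
    have hz : 0 ≤ z * t := hm0.le.trans b2
    have hff : 0 ≤ ff (z * t) := by
      unfold ff
      positivity
    rw [abs_of_nonneg hff]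
    refine (h2 _ hz).trans (le_trans ?_ e2)
    have : 1 + z * t ≤ 9 * A * T := by nlinarith
    gcongr
  have c2 : ∀ z : ℝ, (2 * A)⁻¹ ≤ z → z ≤ 2 * A → |D0 (z * t)| ≤ T ^ (N + 2) := by
    intro z hz1 hz2
    obtain ⟨b2, b3⟩ := b1 z hz1 hz2
    have hz : 0 < z * t := hm0.trans_le b2
    have b4 : (z * t)⁻¹ ≤ 2 * A := by
      calc (z * t)⁻¹ ≤ ((2 * A)⁻¹ * T)⁻¹ := inv_anti₀ hm0 b2
        _ = 2 * A * T⁻¹ := by rw [mul_inv, inv_inv]
        _ ≤ 2 * A * 1 := by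
            gcongr
            exact inv_le_one_of_one_le₀ hT
        _ = _ := by ring
    refine (D0_abs_le hz).trans (le_trans ?_ hTM)
    nlinarith
  have d1 : ∀ z w : ℝ, (2 * A)⁻¹ ≤ z → z ≤ 2 * A → (2 * A)⁻¹ ≤ w → w ≤ 2 * A → |z - w| ≤ d →
      |z * t - w * t| ≤ 2 * T * d := by
    intro z w _ _ _ _ hzw
    rw [← sub_mul, abs_mul, abs_of_pos ht0]
    calc |z - w| * t ≤ d * (2 * T) := by gcongr
      _ = _ := by ring
  have c3 : ∀ z w : ℝ, (2 * A)⁻¹ ≤ z → z ≤ 2 * A → (2 * A)⁻¹ ≤ w → w ≤ 2 * A → |z - w| ≤ d →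
      |ff (z * t) - ff (w * t)| ≤ T ^ (N + 2) * (2 * T * d) := by
    intro z w hz1 hz2 hw1 hw2 hzw
    obtain ⟨b2, b3⟩ := b1 z hz1 hz2
    obtain ⟨b4, b5⟩ := b1 w hw1 hw2
    refine (h3 _ _ (hm0.le.trans b2) (hm0.le.trans b4)).trans ?_
    have b6 := d1 z w hz1 hz2 hw1 hw2 hzw
    have b7 : 1 + z * t + w * t ≤ 9 * A * T := by nlinarith
    have b8 : 0 ≤ 1 + z * t + w * t := by
      have := hm0.le.trans b2
      have := hm0.le.trans b4
      linarith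
    calc C * (1 + z * t + w * t) ^ N * |z * t - w * t|
        ≤ C * (9 * A * T) ^ N * (2 * T * d) := by gcongr
      _ ≤ _ := by gcongr
  have c4 : ∀ z w : ℝ, (2 * A)⁻¹ ≤ z → z ≤ 2 * A → (2 * A)⁻¹ ≤ w → w ≤ 2 * A → |z - w| ≤ d →
      |D0 (z * t) - D0 (w * t)| ≤ T ^ (N + 2) * (2 * T * d) := by
    intro z w hz1 hz2 hw1 hw2 hzw
    obtain ⟨b2, b3⟩ := b1 z hz1 hz2
    obtain ⟨b4, b5⟩ := b1 w hw1 hw2
    refine (D0_sub hm0 b2 b4).trans ?_
    have b6 := d1 z w hz1 hz2 hw1 hw2 hzw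
    have b9 : ((2 * A)⁻¹ * T)⁻¹ ≤ T ^ (N + 2) := by
      calc ((2 * A)⁻¹ * T)⁻¹ = 2 * A * T⁻¹ := by rw [mul_inv, inv_inv]
        _ ≤ 2 * A * 1 := by
            gcongr
            exact inv_le_one_of_one_le₀ hT
        _ ≤ T ^ 2 := by nlinarith
        _ ≤ _ := hTM
    gcongr
  have hd' : 0 ≤ T ^ (N + 2) * (2 * T * d) := by positivity
  have p1 := prod_sub (Finset.univ : Finset (Fin k)) (fun j => ff (x j * t)) (fun j => ff (y j * t)) hM hd'
    (fun j _ => c1 _ (hx j).1 (hx j).2) (fun j _ => c1 _ (hy j).1 (hy j).2)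
    (fun j _ => c3 _ _ (hx j).1 (hx j).2 (hy j).1 (hy j).2 (hxy j))
  have p2 := prod_sub (Finset.univ : Finset (Fin k)) (fun j => D0 (x j * t)) (fun j => D0 (y j * t)) hM hd'
    (fun j _ => c2 _ (hx j).1 (hx j).2) (fun j _ => c2 _ (hy j).1 (hy j).2)
    (fun j _ => c4 _ _ (hx j).1 (hx j).2 (hy j).1 (hy j).2 (hxy j))
  rw [Finset.card_univ, Fintype.card_fin] at p1 p2
  unfold dif
  calc |∏ j, ff (x j * t) - ∏ j, D0 (x j * t) - (∏ j, ff (y j * t) - ∏ j, D0 (y j * t))|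
      = |(∏ j, ff (x j * t) - ∏ j, ff (y j * t)) - (∏ j, D0 (x j * t) - ∏ j, D0 (y j * t))| := by
        rw [sub_sub_sub_comm]
    _ ≤ |∏ j, ff (x j * t) - ∏ j, ff (y j * t)| + |∏ j, D0 (x j * t) - ∏ j, D0 (y j * t)| :=
        abs_sub _ _
    _ ≤ _ := by linarith

/-- the weighted integrals over subintervals of `[T,2T]` -/
lemma JJ_close {C : ℝ} {N : ℕ} (hC : 0 < C) (h2 : ∀ u : ℝ, 0 ≤ u → ff u ≤ C * (1 + u) ^ N)
    (h3 : ∀ u v : ℝ, 0 ≤ u → 0 ≤ v → |ff u - ff v| ≤ C * (1 + u + v) ^ N * |u - v|)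
    {k : ℕ} {A T CF : ℝ} (hA : 1 ≤ A) (hT : 1 ≤ T) (hT1 : C * (9 * A) ^ N ≤ T) (hT2 : 16 * A ≤ T)
    (hT3 : 8 * k ≤ T) (hT4 : 1 + 4 * CF ≤ T)
    {F G : ℝ → ℂ} (hF : Gr F) (hG : Measurable G) (hFG : ∀ t, ‖G t‖ = ‖F t‖)
    (hCF : ∫ t in Ioc 0 (2 * T), ‖F t‖ ^ 2 ≤ CF * (2 * T) ^ 2)
    {x y : Fin k → ℝ} (hx : ∀ j, (2 * A)⁻¹ ≤ x j ∧ x j ≤ 2 * A)
    (hy : ∀ j, (2 * A)⁻¹ ≤ y j ∧ y j ≤ 2 * A)
    (hxy : ∀ j, |x j - y j| ≤ T ^ (-(((N + 2) * (k + 1) + 5 : ℕ) : ℝ)))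
    {a b : ℝ} (ha : T ≤ a) (hab : a ≤ b) (hb : b ≤ 2 * T) :
    JJ G x a b ≤ JJ G y a b + 1 / 2 := by
  have hT0 : 0 < T := by linarith
  have ha0 : 0 < a := by linarith
  have hA0 : 0 < A := by linarith
  have hx0 : ∀ j, 0 < x j := fun j => lt_of_lt_of_le (by positivity) (hx j).1
  have hy0 : ∀ j, 0 < y j := fun j => lt_of_lt_of_le (by positivity) (hy j).1
  set d : ℝ := T ^ (-(((N + 2) * (k + 1) + 5 : ℕ) : ℝ)) with hd
  have hd0 : 0 < d := by positivity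
  have ix := mul_dif_int hF hG hFG hx0 (b := b) ha0
  have iy := mul_dif_int hF hG hFG hy0 (b := b) ha0
  set B : ℝ := 2 * (k * (T ^ (N + 2)) ^ k * (T ^ (N + 2) * (2 * T * d))) with hB
  have hB0 : 0 ≤ B := by positivity
  have hFi : IntegrableOn (fun t => ‖F t‖) (Icc a b) :=
    ((F_int hF b).mono_set fun t ht => ⟨ha0.trans_le ht.1, ht.2⟩).norm
  have s1 : ‖(∫ t in Icc a b, G t * ((dif x t : ℝ) : ℂ)) - ∫ t in Icc a b, G t * ((dif y t : ℝ) : ℂ)‖ ≤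
      ∫ t in Icc a b, B * ‖F t‖ := by
    rw [← integral_sub ix iy]
    refine norm_integral_le_of_norm_le (hFi.const_mul _) ?_
    refine (ae_restrict_iff' measurableSet_Icc).2 (Eventually.of_forall fun t ht => ?_)
    rw [← mul_sub, norm_mul, hFG, ← ofReal_sub, norm_real, Real.norm_eq_abs, mul_comm]
    have := dif_close hC h2 h3 hA hT hT1 hT2 hx hy hd0.le hxy (ha.trans ht.1) (ht.2.trans hb)
    gcongr
  rw [integral_const_mul] at s1
  have s2 : ∫ t in Icc a b, ‖F t‖ ≤ T ^ 3 := by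
    have s3 := F_L1 hF ha0 hab hb one_pos
    rw [one_mul, inv_one, one_mul] at s3
    have s4 : b - a ≤ T := by linarith
    have s5 : T ≤ T ^ 2 := by nlinarith
    calc ∫ t in Icc a b, ‖F t‖ ≤ T ^ 2 + CF * (2 * T) ^ 2 := by linarith
      _ = (1 + 4 * CF) * T ^ 2 := by ring
      _ ≤ T * T ^ 2 := by gcongr
      _ = _ := by ring
  have s6 : B * T ^ 3 ≤ 1 / 2 := by
    have s7 : T ^ ((N + 2) * (k + 1) + 5) * d = 1 := by
      rw [hd, Real.rpow_neg hT0.le, Real.rpow_natCast]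
      exact mul_inv_cancel₀ (by positivity)
    have s8 : T * (B * T ^ 3) = 4 * k := by
      calc T * (B * T ^ 3) = 4 * k * (T ^ ((N + 2) * (k + 1) + 5) * d) := by
            rw [hB]
            ring
        _ = _ := by rw [s7, mul_one]
    have s9 : T * (B * T ^ 3) ≤ T * (1 / 2) := by
      rw [s8]
      linarith
    exact le_of_mul_le_mul_left s9 hT0
  have s10 : ‖(∫ t in Icc a b, G t * ((dif x t : ℝ) : ℂ)) -
      ∫ t in Icc a b, G t * ((dif y t : ℝ) : ℂ)‖ ≤ 1 / 2 :=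
    s1.trans ((mul_le_mul_of_nonneg_left s2 hB0).trans s6)
  unfold JJ
  have s11 := norm_sub_norm_le (∫ t in Icc a b, G t * ((dif x t : ℝ) : ℂ))
    (∫ t in Icc a b, G t * ((dif y t : ℝ) : ℂ))
  linarith

/-! ### The cells -/

lemma NN_pos {θ : ℝ} (n : ℕ) : 0 < NN θ n := by
  unfold NN
  exact Nat.ceil_pos.2 (by positivity)

lemma gp_ge {θ : ℝ} (n j : ℕ) : 2 ^ n ≤ gp θ n j := by
  unfold gp
  have : 0 ≤ (j : ℝ) / NN θ n := by positivity
  have h : (0 : ℝ) < 2 ^ n := by positivity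
  nlinarith

lemma gp_mono {θ : ℝ} (n : ℕ) {i j : ℕ} (hij : i ≤ j) : gp θ n i ≤ gp θ n j := by
  unfold gp
  gcongr

lemma gp_last {θ : ℝ} (n : ℕ) : gp θ n (NN θ n) = 2 * 2 ^ n := by
  unfold gp
  have : (0 : ℝ) < NN θ n := by exact_mod_cast NN_pos n
  rw [div_self this.ne']
  ring

lemma gp_le {θ : ℝ} (n : ℕ) {j : ℕ} (hj : j ≤ NN θ n) : gp θ n j ≤ 2 * 2 ^ n := by
  rw [← gp_last (θ := θ) n]
  exact gp_mono n hj

lemma tend2 : Tendsto (fun n : ℕ => (2 : ℝ) ^ n) atTop atTop :=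
  tendsto_pow_atTop_atTop_of_one_lt one_lt_two

end LDa

open LDa

theorem t_LIP : S_LIP := by
  obtain ⟨C, N, hC, h1, h2, h3⟩ := t_CRU
  intro k
  refine ⟨(((N + 2) * (k + 1) + 5 : ℕ) : ℝ), ?_, ?_⟩
  · exact_mod_cast (by omega : 1 ≤ (N + 2) * (k + 1) + 5)
  intro F A θ ρ hF hA hθ hθ1 hρ hρ1
  obtain ⟨CF, hCF, hCF1⟩ := F_sq_le hF one_pos
  have hA0 : 0 < A := by linarith
  filter_upwards [tend2.eventually_ge_atTop 1, tend2.eventually_ge_atTop (C * (9 * A) ^ N),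
    tend2.eventually_ge_atTop (16 * A), tend2.eventually_ge_atTop (8 * k),
    tend2.eventually_ge_atTop (1 + 4 * CF)] with n hT hT1 hT2 hT3 hT4
  intro x hx y hy
  obtain ⟨hxA, i, hi, hJ⟩ := hx
  set T : ℝ := (2 : ℝ) ^ n with hTdef
  have hT0 : 0 < T := by linarith
  set d : ℝ := T ^ (-(((N + 2) * (k + 1) + 5 : ℕ) : ℝ)) with hd
  have hd0 : 0 < d := by positivity
  have hxy : ∀ j, |x j - y j| ≤ d := by
    intro j
    rw [Metric.mem_closedBall, dist_comm] at hy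
    have := (dist_le_pi_dist x y j).trans hy
    rwa [Real.dist_eq] at this
  have hd1 : d ≤ (2 * A)⁻¹ := by
    have e1 : d ≤ T ^ (-(1 : ℝ)) := by
      rw [hd]
      refine Real.rpow_le_rpow_of_exponent_le hT ?_
      have : (1 : ℝ) ≤ (((N + 2) * (k + 1) + 5 : ℕ) : ℝ) := by
        exact_mod_cast (by omega : 1 ≤ (N + 2) * (k + 1) + 5)
      linarith
    rw [Real.rpow_neg_one] at e1
    refine e1.trans (inv_anti₀ (by positivity) (by linarith))
  have e2 : (2 * A)⁻¹ + (2 * A)⁻¹ = A⁻¹ := by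
    field_simp
    norm_num
  have e3 : (0 : ℝ) < (2 * A)⁻¹ := by positivity
  have e4 : (2 * A)⁻¹ ≤ A := by
    have : (2 * A)⁻¹ ≤ 1 := inv_le_one_of_one_le₀ (by linarith)
    linarith
  have hx2 : ∀ j, (2 * A)⁻¹ ≤ x j ∧ x j ≤ 2 * A := fun j =>
    ⟨by linarith [(hxA j).1], by linarith [(hxA j).2]⟩
  have hy2 : ∀ j, (2 * A)⁻¹ ≤ y j ∧ y j ≤ 2 * A := by
    intro j
    have := abs_le.1 (hxy j)
    exact ⟨by linarith [(hxA j).1], by linarith [(hxA j).2]⟩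
  have hCF2 : ∫ t in Ioc 0 (2 * T), ‖F t‖ ^ 2 ≤ CF * (2 * T) ^ 2 := by
    have := hCF1 (2 * T) (by linarith)
    have e5 : (2 * T) ^ ((1 : ℝ) + 1) = (2 * T) ^ 2 := by
      rw [← Real.rpow_natCast]
      norm_num
    rwa [e5] at this
  have hpow : 1 ≤ T ^ (1 - ρ) := Real.one_le_rpow hT (by linarith)
  have hG : Measurable (fun t => ((‖F t‖ : ℝ) : ℂ)) := by
    have := hF.1
    fun_prop
  refine ⟨hy2, i, hi, ?_⟩
  rcases hJ with hJ | hJ
  · left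
    have := JJ_close hC h2 h3 hA hT hT1 hT2 hT3 hT4 hF hF.1 (fun _ => rfl) hCF2 hx2 hy2 hxy
      (a := T) (b := gp θ n i) le_rfl (gp_ge n i) (gp_le n hi.le)
    linarith
  · right
    have := JJ_close hC h2 h3 hA hT hT1 hT2 hT3 hT4 hF hG (fun t => by simp) hCF2 hx2 hy2 hxy
      (a := gp θ n i) (b := gp θ n (i + 1)) (gp_ge n i) (gp_mono n (Nat.le_succ i)) (gp_le n hi)
    linarith

end Pool.Agent.Helper30K1.GD
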