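import Pool.Agent.N879.GD.Stm
import Pool.Agent.H153R4.Pl

/-!
Project GD, piece PL (helper7): Plancherel's theorem for the Mellin transform.
-/

set_option autoImplicit false

namespace Pool.Agent.Helper30K1.GD

open Complex Filter Topology MeasureTheory Set FourierTransform
open Pool.Agent.N879.GD
open scoped Convolution ENNReal

namespace PLa

theorem lint_exp (φ : ℝ → ℝ≥0∞) : ∫⁻ t in Ioi (0 : ℝ), φ t =
    ∫⁻ x : ℝ, ENNReal.ofReal (Real.exp x) * φ (Real.exp x) := by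
  have h := lintegral_image_eq_lintegral_abs_deriv_mul (s := univ) MeasurableSet.univ
    (f := Real.exp) (f' := Real.exp) (fun x _ => (Real.hasDerivAt_exp x).hasDerivWithinAt)
    Real.exp_injective.injOn φ
  rw [image_univ, Real.range_exp, Measure.restrict_univ] at h
  rw [h]
  refine lintegral_congr fun x => ?_
  rw [abs_of_pos (Real.exp_pos x)]

theorem int_exp (φ : ℝ → ℂ) : ∫ t in Ioi (0 : ℝ), φ t =
    ∫ x : ℝ, (Real.exp x : ℂ) * φ (Real.exp x) := by
  have h := integral_image_eq_integral_abs_deriv_smul (s := univ) MeasurableSet.univ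
    (f := Real.exp) (f' := Real.exp) (fun x _ => (Real.hasDerivAt_exp x).hasDerivWithinAt)
    Real.exp_injective.injOn φ
  rw [image_univ, Real.range_exp, Measure.restrict_univ] at h
  rw [h]
  refine integral_congr_ae (Eventually.of_forall fun x => ?_)
  show |Real.exp x| • φ (Real.exp x) = _
  rw [abs_of_pos (Real.exp_pos x), Complex.real_smul]

theorem memLp_two_of (h : ℝ → ℂ) (hm : AEStronglyMeasurable h) (hf : ∫⁻ x, ‖h x‖ₑ ^ 2 ≠ ⊤) :
    MemLp h 2 := by
  refine ⟨hm, ?_⟩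
  rw [eLpNorm_eq_lintegral_rpow_enorm_toReal (by norm_num) (by norm_num)]
  simp only [ENNReal.toReal_ofNat, ENNReal.rpow_ofNat, one_div]
  exact ENNReal.rpow_lt_top_of_nonneg (by norm_num) hf

/-- the transported functions -/
noncomputable def f1 (F : ℝ → ℂ) (x : ℝ) : ℂ := F (Real.exp (-x))
noncomputable def g1 (G : ℝ → ℂ) (x : ℝ) : ℂ := G (Real.exp x)

theorem exp_mul_ofReal_inv (x : ℝ) :
    ENNReal.ofReal (Real.exp x) * ENNReal.ofReal (Real.exp x)⁻¹ = 1 := by
  rw [← ENNReal.ofReal_mul (Real.exp_pos x).le, mul_inv_cancel₀ (Real.exp_pos x).ne',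
    ENNReal.ofReal_one]

theorem lint_f1 (F : ℝ → ℂ) : ∫⁻ x, ‖f1 F x‖ₑ ^ 2 =
    ∫⁻ t in Ioi (0 : ℝ), ‖F t‖ₑ ^ 2 * ENNReal.ofReal t⁻¹ := by
  rw [lint_exp]
  have h := lintegral_neg_eq_self (μ := (volume : Measure ℝ))
    (fun x : ℝ => ‖F (Real.exp x)‖ₑ ^ 2)
  unfold f1
  rw [h]
  refine lintegral_congr fun x => ?_
  rw [mul_left_comm, exp_mul_ofReal_inv, mul_one]

theorem lint_mel (φ : ℝ → ℝ≥0∞) : ∫⁻ l in Ioi (0 : ℝ), φ l * ENNReal.ofReal l⁻¹ =
    ∫⁻ x : ℝ, φ (Real.exp x) := by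
  rw [lint_exp]
  refine lintegral_congr fun x => ?_
  rw [mul_left_comm, exp_mul_ofReal_inv, mul_one]

/-- the multiplicative correlation is an additive convolution -/
theorem corr_eq (F G : ℝ → ℂ) (y : ℝ) :
    ∫ t in Ioi (0 : ℝ), F t * G (Real.exp y * t) / t =
      (f1 F ⋆[ContinuousLinearMap.mul ℂ ℂ, volume] g1 G) y := by
  rw [int_exp]
  show _ = ∫ z, f1 F z * g1 G (y - z)
  have h := integral_neg_eq_self (fun z : ℝ => f1 F z * g1 G (y - z)) (volume : Measure ℝ)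
  rw [← h]
  refine integral_congr_ae (Eventually.of_forall fun x => ?_)
  have hx : ((Real.exp x : ℝ) : ℂ) ≠ 0 := by exact_mod_cast (Real.exp_pos x).ne'
  simp only [f1, g1, neg_neg]
  rw [sub_neg_eq_add, Real.exp_add]
  field_simp

theorem fourier_g1 (G : ℝ → ℂ) (ξ : ℝ) :
    𝓕 (g1 G) ξ = ∫ u in Ioi (0 : ℝ), G u / u *
      cexp (-(I * (((2 * Real.pi * ξ) * Real.log u : ℝ) : ℂ))) := by
  rw [int_exp, Real.fourier_real_eq_integral_exp_smul]
  refine integral_congr_ae (Eventually.of_forall fun x => ?_)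
  have hx : ((Real.exp x : ℝ) : ℂ) ≠ 0 := by exact_mod_cast (Real.exp_pos x).ne'
  simp only [g1, smul_eq_mul, Real.log_exp]
  rw [show (((-2 * Real.pi * x * ξ : ℝ) : ℂ) * I) = -(I * ((2 * Real.pi * ξ * x : ℝ) : ℂ)) by
    push_cast; ring]
  field_simp

end PLa

open PLa in
theorem t_PL : S_PL := by
  intro F G a b B ha hab hF hF0 hF2 hG hG0 hB hbd
  have hb : 0 < b := lt_of_lt_of_le ha hab
  -- `f1`
  have hf1m : Measurable (f1 F) := hF.comp (Real.measurable_exp.comp measurable_neg)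
  have hRfin : ∫⁻ t in Ioi (0 : ℝ), ‖F t‖ₑ ^ 2 * ENNReal.ofReal t⁻¹ ≠ ⊤ := by
    have h1 : ∫⁻ t in Ioi (0 : ℝ), ‖F t‖ₑ ^ 2 * ENNReal.ofReal t⁻¹ ≤
        ∫⁻ t : ℝ, ‖F t‖ₑ ^ 2 * ENNReal.ofReal a⁻¹ := by
      refine (lintegral_mono' Measure.restrict_le_self le_rfl).trans (lintegral_mono fun t => ?_)
      by_cases ht : t ∈ Icc a b
      · gcongr
        exact ht.1
      · rw [hF0 t ht]
        simp
    rw [lintegral_mul_const' _ _ ENNReal.ofReal_ne_top] at h1
    exact ne_top_of_le_ne_top (ENNReal.mul_ne_top hF2 ENNReal.ofReal_ne_top) h1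
  have hf1L2 : MemLp (f1 F) 2 := memLp_two_of _ hf1m.aestronglyMeasurable (by
    rw [lint_f1]; exact hRfin)
  have hf1supp : ∀ x, x ∉ Icc (-Real.log b) (-Real.log a) → f1 F x = 0 := by
    intro x hx
    refine hF0 _ fun h => hx ⟨?_, ?_⟩
    · have := Real.log_le_log (Real.exp_pos _) h.2
      rw [Real.log_exp] at this
      linarith
    · have := Real.log_le_log ha h.1
      rw [Real.log_exp] at this
      linarith
  have hf1i : Integrable (f1 F) := by
    have h1 : f1 F = (Icc (-Real.log b) (-Real.log a)).indicator (f1 F) := by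
      funext x
      by_cases hx : x ∈ Icc (-Real.log b) (-Real.log a)
      · rw [indicator_of_mem hx]
      · rw [indicator_of_notMem hx, hf1supp x hx]
    rw [h1, integrable_indicator_iff measurableSet_Icc]
    have : IsFiniteMeasure (volume.restrict (Icc (-Real.log b) (-Real.log a))) := ⟨by simp⟩
    exact (hf1L2.restrict _).integrable (by norm_num)
  -- `g1`
  have hg1c : Continuous (g1 G) := hG.comp Real.continuous_exp
  have hg1s : HasCompactSupport (g1 G) := by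
    refine HasCompactSupport.of_support_subset_isCompact (isCompact_Icc
      (a := Real.log a) (b := Real.log b)) fun x hx => ?_
    by_contra h
    refine hx (hG0 _ fun h' => h ⟨?_, ?_⟩)
    · have := Real.log_le_log ha h'.1
      rwa [Real.log_exp] at this
    · have := Real.log_le_log (Real.exp_pos _) h'.2
      rwa [Real.log_exp] at this
  have hg1i : Integrable (g1 G) := hg1c.integrable_of_hasCompactSupport hg1s
  obtain ⟨M, hM⟩ := hg1c.bounded_above_of_compact_support hg1s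
  have hM0 : 0 ≤ M := (norm_nonneg _).trans (hM 0)
  -- the convolution
  set h : ℝ → ℂ := (f1 F ⋆[ContinuousLinearMap.mul ℂ ℂ, volume] g1 G) with hh
  have hhi : Integrable h := hf1i.integrable_convolution _ hg1i
  have hhb : ∀ y, ‖h y‖ₑ ≤ ENNReal.ofReal M * ∫⁻ x, ‖f1 F x‖ₑ := by
    intro y
    rw [hh]
    show ‖∫ z, f1 F z * g1 G (y - z)‖ₑ ≤ _
    refine (enorm_integral_le_lintegral_enorm _).trans ?_
    rw [← lintegral_const_mul' _ _ ENNReal.ofReal_ne_top]
    refine lintegral_mono fun z => ?_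
    rw [enorm_mul, mul_comm]
    gcongr
    rw [← ofReal_norm]
    exact ENNReal.ofReal_le_ofReal (hM _)
  have hh2 : MemLp h 2 := by
    refine memLp_two_of _ hhi.aestronglyMeasurable ?_
    have h1 : ∫⁻ x, ‖h x‖ₑ ^ 2 ≤ ∫⁻ x, (ENNReal.ofReal M * ∫⁻ x, ‖f1 F x‖ₑ) * ‖h x‖ₑ := by
      refine lintegral_mono fun x => ?_
      rw [pow_two]
      gcongr
      exact hhb x
    have h2 : (ENNReal.ofReal M * ∫⁻ x, ‖f1 F x‖ₑ) ≠ ⊤ :=
      ENNReal.mul_ne_top ENNReal.ofReal_ne_top hf1i.2.ne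
    rw [lintegral_const_mul' _ _ h2] at h1
    exact ne_top_of_le_ne_top (ENNReal.mul_ne_top h2 hhi.2.ne) h1
  -- Plancherel
  have hP := Pool.Agent.H153R4.plancherel h hhi hh2
  have hP1 := Pool.Agent.H153R4.plancherel (f1 F) hf1i hf1L2
  rw [lint_mel (fun l => ‖∫ t in Ioi (0 : ℝ), F t * G (l * t) / t‖ₑ ^ 2)]
  simp_rw [corr_eq]
  rw [← hh, ← hP, ← lint_f1, ← hP1, ← lintegral_const_mul' _ _ ENNReal.ofReal_ne_top]
  refine lintegral_mono fun ξ => ?_
  rw [hh, Real.fourier_mul_convolution_eq hf1i hg1i, enorm_mul, mul_pow, mul_comm]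
  gcongr
  have h5 : ‖𝓕 (g1 G) ξ‖ ≤ B := by
    rw [fourier_g1]; exact hbd _
  rw [← ofReal_norm, ← ENNReal.ofReal_pow (norm_nonneg _)]
  exact ENNReal.ofReal_le_ofReal (pow_le_pow_left₀ (norm_nonneg _) h5 2)

end Pool.Agent.Helper30K1.GD
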