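import Pool.Agent.N879.GD.Stm

/-!
Project GD, piece BA (helper13): the trivial bound for a block.
-/

set_option autoImplicit false

namespace Pool.Agent.Helper30K1.GD

open Pool.Agent.N879.GD Complex Finset

lemma log_two_mul {a : ℝ} (ha : 0 ≤ a) : Real.log (1 + 2 * a) ≤ 2 * Real.log (1 + a) := by
  have h1 : 2 * Real.log (1 + a) = Real.log ((1 + a) ^ 2) := by
    rw [Real.log_pow]
    norm_num
  rw [h1]
  apply Real.log_le_log (by linarith)
  nlinarith

lemma bt_bound {b : ℕ} {C : ℝ} (hC : 0 < C)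
    (hGK : ∀ T x ω : ℝ, 0 < T → 1 ≤ |x| * T →
      ‖GG b T x ω‖ ≤ C * (1 + |ω|) ^ (-(1 / 2 : ℝ)) * ((1 + |ω|) / (|x| * T)) ^ b *
        Real.exp (-(|ω| / (2 * (|x| * T)))))
    {σ T y ω : ℝ} {m R r : ℕ} (hσ : 0 ≤ σ) (hT : 0 < T) (hm : 1 ≤ m) (hR : 1 ≤ R) (hr : r < R)
    (hz : 1 ≤ zz T m R) :
    ‖bt σ b T y ω m (m + R + r)‖ ≤ C * (√((m : ℝ) * (m + R)))⁻¹ * (1 + |ω|) ^ (-(1 / 2 : ℝ)) *
      ((1 + |ω|) / zz T m R) ^ b * Real.exp (-(|ω| / (4 * zz T m R))) := by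
  have hm' : (1 : ℝ) ≤ m := by exact_mod_cast hm
  have hR' : (1 : ℝ) ≤ R := by exact_mod_cast hR
  have hm0 : (0 : ℝ) < m := by linarith
  have hr' : (r : ℝ) ≤ R := by exact_mod_cast hr.le
  have hr0 : (0 : ℝ) ≤ r := Nat.cast_nonneg r
  have hn : ((m + R + r : ℕ) : ℝ) = m + R + r := by push_cast; ring
  set n : ℝ := m + R + r with hnd
  have hn0 : 0 < n := by positivity
  obtain ⟨x, hx⟩ : ∃ x, x = Real.log n - Real.log m := ⟨_, rfl⟩
  have hx' : x = Real.log (n / m) := by rw [hx, Real.log_div hn0.ne' hm0.ne']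
  have hlo : Real.log (1 + (R : ℝ) / m) ≤ x := by
    rw [hx']
    apply Real.log_le_log (by positivity)
    rw [le_div_iff₀ hm0, hnd]
    field_simp
    linarith
  have hhi : x ≤ 2 * Real.log (1 + (R : ℝ) / m) := by
    refine le_trans ?_ (log_two_mul (by positivity))
    rw [hx']
    apply Real.log_le_log (by positivity)
    rw [div_le_iff₀ hm0, hnd]
    field_simp
    linarith
  have hpos : 0 < Real.log (1 + (R : ℝ) / m) := Real.log_pos (by
    have : 0 < (R : ℝ) / m := by positivity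
    linarith)
  have hx0 : 0 < x := hpos.trans_le hlo
  have habs : |x| = x := abs_of_pos hx0
  have hz1 : zz T m R ≤ |x| * T := by
    rw [habs]
    unfold zz
    nlinarith
  have hz2 : |x| * T ≤ 2 * zz T m R := by
    rw [habs]
    unfold zz
    nlinarith
  have hz0 : 0 < zz T m R := by linarith
  have h1 := hGK T x ω hT (hz.trans hz1)
  have e1 : ((1 + |ω|) / (|x| * T)) ^ b ≤ ((1 + |ω|) / zz T m R) ^ b := by
    apply pow_le_pow_left₀ (by positivity)
    exact div_le_div_of_nonneg_left (by positivity) hz0 hz1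
  have e2 : Real.exp (-(|ω| / (2 * (|x| * T)))) ≤ Real.exp (-(|ω| / (4 * zz T m R))) := by
    apply Real.exp_le_exp.2
    apply neg_le_neg
    apply div_le_div_of_nonneg_left (abs_nonneg ω) (by positivity)
    linarith
  have e3 : ‖cexp (-((σ + I * y) * (Real.log ((m : ℝ) * n) : ℝ)))‖ ≤ 1 := by
    rw [Complex.norm_exp]
    have e4 : (-((σ + I * y) * ((Real.log ((m : ℝ) * n) : ℝ) : ℂ)) : ℂ).re =
        -(σ * Real.log ((m : ℝ) * n)) := by
      simp
    rw [e4]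
    apply Real.exp_le_one_iff.2
    have : 0 ≤ Real.log ((m : ℝ) * n) := Real.log_nonneg (by
      have : (1 : ℝ) ≤ n := by rw [hnd]; linarith
      nlinarith)
    have := mul_nonneg hσ this
    linarith
  have e5 : ‖(((√((m : ℝ) * n))⁻¹ : ℝ) : ℂ)‖ ≤ (√((m : ℝ) * (m + R)))⁻¹ := by
    rw [Complex.norm_real, Real.norm_of_nonneg (by positivity)]
    apply inv_anti₀ (by positivity)
    apply Real.sqrt_le_sqrt
    apply mul_le_mul_of_nonneg_left _ hm0.le
    rw [hnd]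
    linarith
  unfold bt
  rw [hn, ← hx, norm_mul, norm_mul]
  have h2 : ‖(((√((m : ℝ) * n))⁻¹ : ℝ) : ℂ)‖ *
      ‖cexp (-((σ + I * y) * (Real.log ((m : ℝ) * n) : ℝ)))‖ ≤ (√((m : ℝ) * (m + R)))⁻¹ * 1 :=
    mul_le_mul e5 e3 (norm_nonneg _) (by positivity)
  have h3 : ‖GG b T x ω‖ ≤ C * (1 + |ω|) ^ (-(1 / 2 : ℝ)) * ((1 + |ω|) / zz T m R) ^ b *
      Real.exp (-(|ω| / (4 * zz T m R))) := by
    refine h1.trans ?_
    have hp : (0 : ℝ) ≤ C * (1 + |ω|) ^ (-(1 / 2 : ℝ)) := by positivity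
    exact mul_le_mul (mul_le_mul_of_nonneg_left e1 hp) e2 (Real.exp_pos _).le (by positivity)
  refine (mul_le_mul h2 h3 (norm_nonneg _) (by positivity)).trans (le_of_eq ?_)
  ring

/-- the trivial bound for a block -/
theorem t_BA (h : S_GK) : S_BA := by
  intro b hb
  obtain ⟨C, hC, hGK⟩ := h b hb
  refine ⟨C, hC, fun σ T y ω m R L hσ _ hT hm hR hL hz => ?_⟩
  refine (norm_sum_le _ _).trans ?_
  have hz0 : 0 < zz T m R := by linarith
  refine (Finset.sum_le_card_nsmul _ _ _ fun r hr =>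
    bt_bound hC hGK hσ hT hm hR (lt_of_lt_of_le (Finset.mem_range.1 hr) hL) hz).trans ?_
  rw [Finset.card_range, nsmul_eq_mul, mul_comm]
  apply mul_le_mul_of_nonneg_left (by exact_mod_cast hL) (by positivity)

end Pool.Agent.Helper30K1.GD
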