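import Pool.Agent.N879.GD.Stm

/-!
# BB: bound for a block with a saving (Abel summation)
-/

set_option autoImplicit false

namespace Pool.Agent.Helper30K1.GD.BB

open Complex Filter Topology MeasureTheory Set
open Pool.Agent.N879.GD

lemma abel (A E : ℕ → ℂ) (L : ℕ) (B M D : ℝ) (hB : ∀ l ≤ L, ‖∑ r ∈ Finset.range l, E r‖ ≤ B)
    (hM0 : 0 ≤ M) (hD0 : 0 ≤ D) (hM : ∀ r < L, ‖A r‖ ≤ M)
    (hD : ∀ r, r + 1 < L → ‖A (r + 1) - A r‖ ≤ D) :
    ‖∑ r ∈ Finset.range L, A r * E r‖ ≤ B * (M + L * D) := by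
  have hB0 : 0 ≤ B := (norm_nonneg _).trans (hB 0 (Nat.zero_le _))
  rcases Nat.eq_zero_or_pos L with rfl | hL
  · simp; positivity
  have h := Finset.sum_range_by_parts A E L
  simp only [smul_eq_mul] at h
  rw [h]
  refine (norm_sub_le _ _).trans ?_
  have h1 : ‖A (L - 1) * ∑ i ∈ Finset.range L, E i‖ ≤ B * M := by
    rw [norm_mul, mul_comm]
    exact mul_le_mul (hB L le_rfl) (hM _ (by omega)) (norm_nonneg _) hB0
  have h2 : ‖∑ i ∈ Finset.range (L - 1), (A (i + 1) - A i) * ∑ j ∈ Finset.range (i + 1), E j‖ ≤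
      B * (L * D) := by
    refine (norm_sum_le _ _).trans ?_
    calc _ ≤ ∑ i ∈ Finset.range (L - 1), D * B := by
          refine Finset.sum_le_sum fun i hi => ?_
          rw [Finset.mem_range] at hi
          rw [norm_mul]
          exact mul_le_mul (hD i (by omega)) (hB _ (by omega)) (norm_nonneg _) hD0
      _ = ((L - 1 : ℕ) : ℝ) * (D * B) := by simp
      _ ≤ L * (D * B) := by
          apply mul_le_mul_of_nonneg_right _ (by positivity)
          exact_mod_cast Nat.sub_le _ _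
      _ = _ := by ring
  rw [mul_add]
  exact add_le_add h1 h2

/-- the logarithm of the quotient -/
noncomputable def xx (m : ℕ) (s : ℝ) : ℝ := Real.log (m + s) - Real.log m

/-- the phase -/
noncomputable def Ph (σ T y ω : ℝ) (b m : ℕ) (s : ℝ) : ℂ :=
  -((1 / 2 + σ + I * y) * ((Real.log (m + s) + Real.log m : ℝ) : ℂ)) -
    ((b : ℂ) - I * ω) * Complex.log ((T : ℂ)⁻¹ - I * (xx m s : ℝ)) -
    I * (ω * Real.log (xx m s) : ℝ)

lemma xx_eq (m : ℕ) (s : ℝ) (hm : 1 ≤ m) (hs : 0 < s) : xx m s = Real.log (1 + s / m) := by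
  have hm' : (1:ℝ) ≤ m := by exact_mod_cast hm
  have hm0 : (0:ℝ) < m := by linarith
  unfold xx
  rw [← Real.log_div (by positivity) (by positivity)]
  congr 1
  field_simp

lemma xx_ge (m : ℕ) (s : ℝ) (hm : 1 ≤ m) (hs : 0 < s) : s / (m + s) ≤ xx m s := by
  have hm' : (1:ℝ) ≤ m := by exact_mod_cast hm
  have hm0 : (0:ℝ) < m := by linarith
  rw [xx_eq m s hm hs]
  have h := Real.one_sub_inv_le_log_of_pos (x := 1 + s / m) (by positivity)
  refine le_trans (le_of_eq ?_) h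
  field_simp
  ring

lemma xx_pos (m : ℕ) (s : ℝ) (hm : 1 ≤ m) (hs : 0 < s) : 0 < xx m s :=
  lt_of_lt_of_le (by positivity) (xx_ge m s hm hs)

lemma xx_mono (m : ℕ) (s t : ℝ) (hm : 1 ≤ m) (hs : 0 < s) (hst : s ≤ t) : xx m s ≤ xx m t := by
  have hm' : (1:ℝ) ≤ m := by exact_mod_cast hm
  unfold xx
  have := Real.log_le_log (x := m + s) (y := m + t) (by positivity) (by linarith)
  linarith

lemma xx_two (m : ℕ) (s : ℝ) (hm : 1 ≤ m) (hs : 0 < s) : xx m (2 * s) ≤ 2 * xx m s := by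
  have hm' : (1:ℝ) ≤ m := by exact_mod_cast hm
  have hm0 : (0:ℝ) < m := by linarith
  rw [xx_eq m s hm hs, xx_eq m (2 * s) hm (by positivity)]
  have h2 : 2 * Real.log (1 + s / m) = Real.log ((1 + s / m) ^ 2) := by
    rw [Real.log_pow]; norm_num
  rw [h2]
  apply Real.log_le_log (by positivity)
  have : 0 < s / m := by positivity
  have e : 2 * s / m = 2 * (s / m) := by ring
  rw [e]
  nlinarith

/-- closed form of the summand -/
lemma bt_eq (h1 : S_GF) (σ T y ω : ℝ) (b m n : ℕ) (s : ℝ) (hb : 1 ≤ b) (hT : 0 < T) (hm : 1 ≤ m)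
    (hs : 0 < s) (hn : (n:ℝ) = m + s) :
    bt σ b T y ω m n = ((T : ℂ) ^ b)⁻¹ * Gamma ((b : ℂ) - I * ω) * cexp (Ph σ T y ω b m s) *
      cexp (I * ((ω * Real.log (Real.log (1 + s / m)) : ℝ) : ℂ)) := by
  have hm' : (1:ℝ) ≤ m := by exact_mod_cast hm
  have hm0 : (0:ℝ) < m := by linarith
  have hn0 : (0:ℝ) < n := by rw [hn]; positivity
  unfold bt
  rw [(h1 b T (Real.log n - Real.log m) ω hb hT).2]
  have e1 : (((√((m : ℝ) * n))⁻¹ : ℝ) : ℂ) =
      cexp (-((1 / 2) * ((Real.log (m + s) + Real.log m : ℝ) : ℂ))) := by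
    have : (√((m : ℝ) * n))⁻¹ = Real.exp (-((1 / 2) * (Real.log (m + s) + Real.log m))) := by
      rw [Real.exp_neg, ← hn, mul_comm (1 / 2 : ℝ), Real.exp_mul, Real.exp_add, Real.exp_log hn0,
        Real.exp_log hm0, Real.sqrt_eq_rpow, mul_comm (n:ℝ)]
    rw [this]
    push_cast
    rfl
  have e2 : Real.log ((m : ℝ) * n) = Real.log (m + s) + Real.log m := by
    rw [Real.log_mul hm0.ne' hn0.ne', hn, add_comm]
  have e3 : Real.log n - Real.log m = xx m s := by rw [hn]; rfl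
  rw [e1, e2, e3, ← xx_eq m s hm hs]
  unfold Ph
  have e4 : ∀ a p q r t : ℂ, cexp p * cexp q * (a * cexp r) = a * cexp (p + q + r) := by
    intro a p q r t
    rw [Complex.exp_add, Complex.exp_add]; ring
  rw [show cexp (-(1 / 2 * ((Real.log (m + s) + Real.log m : ℝ) : ℂ))) *
      cexp (-((σ + I * y) * ((Real.log (m + s) + Real.log m : ℝ) : ℂ))) *
      (((T : ℂ) ^ b)⁻¹ * Gamma ((b : ℂ) - I * ω) *
        cexp (-((b : ℂ) - I * ω) * Complex.log ((T : ℂ)⁻¹ - I * (xx m s : ℝ)))) =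
      (((T : ℂ) ^ b)⁻¹ * Gamma ((b : ℂ) - I * ω)) *
        cexp (-(1 / 2 * ((Real.log (m + s) + Real.log m : ℝ) : ℂ)) +
          -((σ + I * y) * ((Real.log (m + s) + Real.log m : ℝ) : ℂ)) +
          (-((b : ℂ) - I * ω) * Complex.log ((T : ℂ)⁻¹ - I * (xx m s : ℝ)))) from
      e4 _ _ _ _ 0, mul_assoc (((T : ℂ) ^ b)⁻¹ * Gamma ((b : ℂ) - I * ω)), ← Complex.exp_add]
  congr 2
  ring

/-- the derivative of the phase -/
noncomputable def Ph' (σ T y ω : ℝ) (b m : ℕ) (s : ℝ) : ℂ :=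
  -((1 / 2 + σ + I * y) * (((m + s)⁻¹ : ℝ) : ℂ)) -
    ((b : ℂ) - I * ω) * ((-(I * (((m + s)⁻¹ : ℝ) : ℂ))) / ((T : ℂ)⁻¹ - I * (xx m s : ℝ))) -
    I * ((ω * ((m + s)⁻¹ / xx m s) : ℝ) : ℂ)

lemma re_z (T x : ℝ) : ((T : ℂ)⁻¹ - I * (x : ℝ)).re = T⁻¹ := by
  rw [← Complex.ofReal_inv]
  simp

lemma im_z (T x : ℝ) : ((T : ℂ)⁻¹ - I * (x : ℝ)).im = -x := by
  rw [← Complex.ofReal_inv]
  simp

lemma hasDerivAt_xx (m : ℕ) (s : ℝ) (hm : 1 ≤ m) (hs : 0 < s) :
    HasDerivAt (xx m) ((m + s)⁻¹) s := by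
  have hm' : (1:ℝ) ≤ m := by exact_mod_cast hm
  unfold xx
  have h1 : HasDerivAt (fun s : ℝ => (m:ℝ) + s) 1 s := by
    simpa using (hasDerivAt_id s).const_add (m:ℝ)
  have h2 := (h1.log (by positivity)).sub_const (Real.log m)
  simpa using h2

lemma hasDerivAt_Ph (σ T y ω : ℝ) (b m : ℕ) (s : ℝ) (hm : 1 ≤ m) (hs : 0 < s) (hT : 0 < T) :
    HasDerivAt (Ph σ T y ω b m) (Ph' σ T y ω b m s) s := by
  have hm' : (1:ℝ) ≤ m := by exact_mod_cast hm
  have hx := hasDerivAt_xx m s hm hs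
  have hx0 := xx_pos m s hm hs
  have h1 : HasDerivAt (fun s : ℝ => (m:ℝ) + s) 1 s := by
    simpa using (hasDerivAt_id s).const_add (m:ℝ)
  have h2 : HasDerivAt (fun s : ℝ => Real.log (m + s) + Real.log m) ((m + s)⁻¹) s := by
    have := (h1.log (by positivity)).add_const (Real.log m)
    simpa using this
  have h3 : HasDerivAt (fun s : ℝ => (T : ℂ)⁻¹ - I * (xx m s : ℝ)) (-(I * (((m + s)⁻¹ : ℝ) : ℂ))) s := by
    have := (hx.ofReal_comp.const_mul I).const_sub ((T:ℂ)⁻¹)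
    simpa using this
  have h4 : HasDerivAt (fun s : ℝ => Complex.log ((T : ℂ)⁻¹ - I * (xx m s : ℝ)))
      ((-(I * (((m + s)⁻¹ : ℝ) : ℂ))) / ((T : ℂ)⁻¹ - I * (xx m s : ℝ))) s := by
    apply h3.clog_real
    rw [Complex.mem_slitPlane_iff]
    left
    rw [re_z]
    positivity
  have h5 : HasDerivAt (fun s : ℝ => ω * Real.log (xx m s)) (ω * ((m + s)⁻¹ / xx m s)) s :=
    (hx.log hx0.ne').const_mul ω
  exact ((h2.ofReal_comp.const_mul (1 / 2 + σ + I * y)).neg.sub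
    (h4.const_mul ((b : ℂ) - I * ω))).sub (h5.ofReal_comp.const_mul I)

lemma x_le_norm (T x : ℝ) (hx : 0 < x) : x ≤ ‖(T : ℂ)⁻¹ - I * (x : ℝ)‖ := by
  have := Complex.abs_im_le_norm ((T : ℂ)⁻¹ - I * (x : ℝ))
  rw [im_z, abs_neg, abs_of_pos hx] at this
  exact this

lemma norm_Ph' (σ T y ω : ℝ) (b m : ℕ) (s : ℝ) (hσ0 : 0 ≤ σ) (hσ1 : σ ≤ 1) (hm : 1 ≤ m)
    (hs : 0 < s) (hT : 0 < T) :
    ‖Ph' σ T y ω b m s‖ ≤ s⁻¹ * (3 / 2 + |y| + b + |ω| / (xx m s * T)) := by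
  have hm' : (1:ℝ) ≤ m := by exact_mod_cast hm
  have hx0 := xx_pos m s hm hs
  have hxg := xx_ge m s hm hs
  set x := xx m s with hx
  have hz := x_le_norm T x hx0
  have hz0 : (T : ℂ)⁻¹ - I * (x : ℝ) ≠ 0 := by
    intro h
    rw [h, norm_zero] at hz
    linarith
  have hx0' : ((x : ℝ) : ℂ) ≠ 0 := by exact_mod_cast hx0.ne'
  have hT' : (T : ℂ) ≠ 0 := by exact_mod_cast hT.ne'
  have hms : (0:ℝ) < m + s := by positivity
  have hxs : ((m + s) * x)⁻¹ ≤ s⁻¹ := by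
    apply inv_anti₀ hs
    rw [div_le_iff₀ hms] at hxg
    linarith
  have e : Ph' σ T y ω b m s = -((1 / 2 + σ + I * y) * (((m + s)⁻¹ : ℝ) : ℂ)) +
      (((m + s)⁻¹ : ℝ) : ℂ) * (I * b / ((T : ℂ)⁻¹ - I * (x : ℝ)) -
        I * ω / (T * ((T : ℂ)⁻¹ - I * (x : ℝ)) * x)) := by
    unfold Ph'
    rw [← hx]
    have key : ((b : ℂ) - I * ω) * ((-(I * (((m + s)⁻¹ : ℝ) : ℂ))) / ((T : ℂ)⁻¹ - I * (x : ℝ))) +
      I * ((ω * ((m + s)⁻¹ / x) : ℝ) : ℂ) = -((((m + s)⁻¹ : ℝ) : ℂ) *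
        (I * b / ((T : ℂ)⁻¹ - I * (x : ℝ)) - I * ω / (T * ((T : ℂ)⁻¹ - I * (x : ℝ)) * x))) := by
      have e1 : ((ω * ((m + s)⁻¹ / x) : ℝ) : ℂ) = ω * ((((m + s)⁻¹ : ℝ) : ℂ) / x) := by push_cast; rfl
      rw [e1]
      generalize (((m + s)⁻¹ : ℝ) : ℂ) = c
      have e2 : I * ω / (T * ((T : ℂ)⁻¹ - I * (x : ℝ)) * x) =
        (ω * (I * (T : ℂ)⁻¹)) / (((T : ℂ)⁻¹ - I * (x : ℝ)) * x) := by
        field_simp
      rw [e2]
      have e3 : I * (T : ℂ)⁻¹ = I * ((T : ℂ)⁻¹ - I * (x : ℝ)) - x := by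
        have := Complex.I_mul_I
        linear_combination (x : ℂ) * this
      rw [e3]
      generalize hz' : (T : ℂ)⁻¹ - I * (x : ℝ) = z at *
      field_simp
      have := Complex.I_sq
      linear_combination (ω * c * (x : ℂ)) * this
    linear_combination -key
  rw [e]
  refine (norm_add_le _ _).trans ?_
  have n1 : ‖-((1 / 2 + (σ : ℂ) + I * y) * (((m + s)⁻¹ : ℝ) : ℂ))‖ ≤ s⁻¹ * (3 / 2 + |y|) := by
    rw [norm_neg, norm_mul, Complex.norm_real, Real.norm_of_nonneg (by positivity), mul_comm]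
    apply mul_le_mul _ _ (norm_nonneg _) (by positivity)
    · exact inv_anti₀ hs (by linarith)
    · refine (norm_add_le _ _).trans ?_
      have a1 : ‖(1 / 2 + (σ : ℂ))‖ ≤ 3 / 2 := by
        have : (1 / 2 + (σ : ℂ)) = ((1 / 2 + σ : ℝ) : ℂ) := by push_cast; rfl
        rw [this, Complex.norm_real, Real.norm_of_nonneg (by positivity)]
        linarith
      have a2 : ‖I * (y : ℂ)‖ = |y| := by simp
      linarith
  have n2 : ‖I * b / ((T : ℂ)⁻¹ - I * (x : ℝ))‖ ≤ b / x := by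
    rw [norm_div, norm_mul, Complex.norm_I, one_mul, Complex.norm_natCast]
    exact div_le_div_of_nonneg_left (by positivity) hx0 hz
  have n3 : ‖I * ω / (T * ((T : ℂ)⁻¹ - I * (x : ℝ)) * x)‖ ≤ |ω| / (T * x * x) := by
    rw [norm_div, norm_mul, Complex.norm_I, one_mul, norm_mul, norm_mul, Complex.norm_real,
      Complex.norm_real, Complex.norm_real, Real.norm_eq_abs, Real.norm_of_nonneg hT.le,
      Real.norm_of_nonneg hx0.le]
    apply div_le_div_of_nonneg_left (abs_nonneg _) (by positivity)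
    exact mul_le_mul_of_nonneg_right (mul_le_mul_of_nonneg_left hz hT.le) hx0.le
  have n4 : ‖(((m + s)⁻¹ : ℝ) : ℂ) * (I * b / ((T : ℂ)⁻¹ - I * (x : ℝ)) -
        I * ω / (T * ((T : ℂ)⁻¹ - I * (x : ℝ)) * x))‖ ≤ s⁻¹ * (b + |ω| / (x * T)) := by
    rw [norm_mul, Complex.norm_real, Real.norm_of_nonneg (by positivity)]
    have := (norm_sub_le (I * b / ((T : ℂ)⁻¹ - I * (x : ℝ)))
      (I * ω / (T * ((T : ℂ)⁻¹ - I * (x : ℝ)) * x))).trans (add_le_add n2 n3)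
    calc (m + s)⁻¹ * ‖I * b / ((T : ℂ)⁻¹ - I * (x : ℝ)) -
        I * ω / (T * ((T : ℂ)⁻¹ - I * (x : ℝ)) * x)‖ ≤ (m + s)⁻¹ * (b / x + |ω| / (T * x * x)) :=
          mul_le_mul_of_nonneg_left this (by positivity)
      _ = ((m + s) * x)⁻¹ * (b + |ω| / (x * T)) := by field_simp
      _ ≤ _ := mul_le_mul_of_nonneg_right hxs (by positivity)
  calc _ ≤ s⁻¹ * (3 / 2 + |y|) + s⁻¹ * (b + |ω| / (x * T)) := add_le_add n1 n4
    _ = _ := by ring

lemma arg_bound (T x : ℝ) (hT : 0 < T) (hx : 0 < x) :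
    |((T : ℂ)⁻¹ - I * (x : ℝ)).arg| ≤ Real.pi / 2 - 1 / (1 + x * T) := by
  set z : ℂ := (T : ℂ)⁻¹ - I * (x : ℝ) with hz
  have hre : z.re = T⁻¹ := re_z T x
  have him : z.im = -x := im_z T x
  have hT' : (0:ℝ) < T⁻¹ := by positivity
  have hz0 : z ≠ 0 := by
    intro h
    rw [h] at him
    simp at him
    linarith
  have h1 : |z.arg| ≤ Real.pi / 2 := by
    rw [Complex.abs_arg_le_pi_div_two_iff, hre]; exact hT'.le
  have h2 : Real.cos |z.arg| = T⁻¹ / ‖z‖ := by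
    rw [Real.cos_abs, Complex.cos_arg hz0, hre]
  have h3 : ‖z‖ ≤ T⁻¹ + x := by
    have := Complex.norm_le_abs_re_add_abs_im z
    rw [hre, him, abs_neg, abs_of_pos hx, abs_of_pos hT'] at this
    exact this
  have hzn : 0 < ‖z‖ := norm_pos_iff.2 hz0
  have h4 : 1 / (1 + x * T) ≤ T⁻¹ / ‖z‖ := by
    have : 1 / (1 + x * T) = T⁻¹ / (T⁻¹ + x) := by field_simp
    rw [this]
    exact div_le_div_of_nonneg_left hT'.le hzn h3
  have h5 := Real.sin_le (x := Real.pi / 2 - |z.arg|) (by linarith)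
  rw [Real.sin_pi_div_two_sub, h2] at h5
  linarith

lemma norm_amp (b : ℕ) (CG : ℝ) (hCG : 0 < CG)
    (hG : ∀ ω : ℝ, ‖Gamma ((b : ℂ) - I * ω)‖ ≤
      CG * (1 + |ω|) ^ ((b : ℝ) - 1 / 2) * Real.exp (-(Real.pi * |ω| / 2)))
    (σ T y ω : ℝ) (m R : ℕ) (s : ℝ) (hσ0 : 0 ≤ σ) (hT : 0 < T) (hm : 1 ≤ m) (hR : 1 ≤ R)
    (hs1 : R ≤ s) (hs2 : s ≤ 2 * R) (hz : 1 ≤ zz T m R) :
    ‖((T : ℂ) ^ b)⁻¹ * Gamma ((b : ℂ) - I * ω) * cexp (Ph σ T y ω b m s)‖ ≤
      CG * (√((m : ℝ) * (m + R)))⁻¹ * (1 + |ω|) ^ (-(1 / 2 : ℝ)) *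
        ((1 + |ω|) / zz T m R) ^ b * Real.exp (-(|ω| / (4 * zz T m R))) := by
  have hm' : (1:ℝ) ≤ m := by exact_mod_cast hm
  have hR' : (1:ℝ) ≤ R := by exact_mod_cast hR
  have hR0 : (0:ℝ) < R := by linarith
  have hs : 0 < s := by linarith
  have hzz : zz T m R = T * xx m R := by
    unfold zz; rw [xx_eq m R hm hR0]
  have hl0 := xx_pos m R hm hR0
  have hx0 := xx_pos m s hm hs
  have hx1 : xx m R ≤ xx m s := xx_mono m R s hm hR0 hs1
  have hx2 : xx m s ≤ 2 * xx m R := (xx_mono m s (2 * R) hm hs hs2).trans (xx_two m R hm hR0)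
  rw [hzz] at hz ⊢
  set l := xx m R with hl
  set x := xx m s with hx
  set z : ℂ := (T : ℂ)⁻¹ - I * (x : ℝ) with hzd
  have hzn : x ≤ ‖z‖ := x_le_norm T x hx0
  have hz0 : 0 < ‖z‖ := by linarith
  have hre : (Ph σ T y ω b m s).re = -(1 / 2 + σ) * (Real.log (m + s) + Real.log m) +
      (-(b * Real.log ‖z‖)) + (-(ω * z.arg)) := by
    unfold Ph
    rw [← hx, ← hzd]
    simp [Complex.log_re, Complex.log_im]
    ring
  have g1 : Real.exp (-(1 / 2 + σ) * (Real.log (m + s) + Real.log m)) ≤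
      (√((m : ℝ) * (m + R)))⁻¹ := by
    have e1 : (√((m : ℝ) * (m + R)))⁻¹ =
        Real.exp (-(1 / 2) * (Real.log (m + R) + Real.log m)) := by
      rw [neg_mul, Real.exp_neg, mul_comm (1 / 2 : ℝ), Real.exp_mul, Real.exp_add,
        Real.exp_log (by positivity), Real.exp_log (by positivity), Real.sqrt_eq_rpow,
        mul_comm (m:ℝ)]
    rw [e1]
    apply Real.exp_le_exp.2
    have h1 : Real.log (m + R) ≤ Real.log (m + s) := Real.log_le_log (by positivity) (by linarith)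
    have h2 : 0 ≤ Real.log m := Real.log_nonneg hm'
    have h3 : 0 ≤ Real.log (m + R) := Real.log_nonneg (by linarith)
    nlinarith
  have g2 : Real.exp (-(b * Real.log ‖z‖)) ≤ (l ^ b)⁻¹ := by
    rw [Real.exp_neg, mul_comm, Real.exp_mul, Real.exp_log hz0, Real.rpow_natCast]
    apply inv_anti₀ (by positivity)
    exact pow_le_pow_left₀ hl0.le (hx1.trans hzn) b
  have g3 : Real.exp (-(ω * z.arg)) * Real.exp (-(Real.pi * |ω| / 2)) ≤
      Real.exp (-(|ω| / (4 * (T * l)))) := by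
    rw [← Real.exp_add]
    apply Real.exp_le_exp.2
    have h1 := arg_bound T x hT hx0
    rw [← hzd] at h1
    have h2 : 1 / (4 * (T * l)) ≤ 1 / (1 + x * T) := by
      apply one_div_le_one_div_of_le (by positivity)
      nlinarith
    have h3 : -(ω * z.arg) ≤ |ω| * |z.arg| := by
      rw [← abs_mul]; exact neg_le_abs _
    have h4 : |ω| * |z.arg| ≤ |ω| * (Real.pi / 2 - 1 / (4 * (T * l))) :=
      mul_le_mul_of_nonneg_left (by linarith) (abs_nonneg _)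
    have h5 : |ω| * (Real.pi / 2 - 1 / (4 * (T * l))) =
      Real.pi * |ω| / 2 - |ω| / (4 * (T * l)) := by ring
    linarith
  rw [norm_mul, norm_mul, Complex.norm_exp, hre, Real.exp_add, Real.exp_add, norm_inv, norm_pow,
    Complex.norm_real, Real.norm_of_nonneg hT.le]
  have hω : (0:ℝ) < 1 + |ω| := by positivity
  have e5 : (1 + |ω|) ^ ((b : ℝ) - 1 / 2) = (1 + |ω|) ^ (-(1 / 2 : ℝ)) * (1 + |ω|) ^ b := by
    rw [← Real.rpow_natCast, ← Real.rpow_add hω]; congr 1; ring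
  have hGω := hG ω
  rw [e5] at hGω
  calc (T ^ b)⁻¹ * ‖Gamma ((b : ℂ) - I * ω)‖ *
        (Real.exp (-(1 / 2 + σ) * (Real.log (m + s) + Real.log m)) *
          Real.exp (-(b * Real.log ‖z‖)) * Real.exp (-(ω * z.arg)))
      ≤ (T ^ b)⁻¹ * (CG * ((1 + |ω|) ^ (-(1 / 2 : ℝ)) * (1 + |ω|) ^ b) *
          Real.exp (-(Real.pi * |ω| / 2))) *
        ((√((m : ℝ) * (m + R)))⁻¹ * (l ^ b)⁻¹ * Real.exp (-(ω * z.arg))) := by
        gcongr
    _ = (T ^ b)⁻¹ * (CG * ((1 + |ω|) ^ (-(1 / 2 : ℝ)) * (1 + |ω|) ^ b)) *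
        ((√((m : ℝ) * (m + R)))⁻¹ * (l ^ b)⁻¹) *
          (Real.exp (-(ω * z.arg)) * Real.exp (-(Real.pi * |ω| / 2))) := by ring
    _ ≤ (T ^ b)⁻¹ * (CG * ((1 + |ω|) ^ (-(1 / 2 : ℝ)) * (1 + |ω|) ^ b)) *
        ((√((m : ℝ) * (m + R)))⁻¹ * (l ^ b)⁻¹) * Real.exp (-(|ω| / (4 * (T * l)))) := by
        apply mul_le_mul_of_nonneg_left g3 (by positivity)
    _ = _ := by
        rw [div_pow, mul_pow, div_eq_mul_inv ((1 + |ω|) ^ b), mul_inv]
        ring

end Pool.Agent.Helper30K1.GD.BB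

namespace Pool.Agent.Helper30K1.GD

open Complex Filter Topology MeasureTheory Set
open Pool.Agent.N879.GD BB

/-- BB -/
theorem t_BB (h1 : S_GF) (h2 : S_GAM) (h3 : S_LL) : S_BB := by
  obtain ⟨η, hη0, hη1, CL, hCL, hLL⟩ := h3
  refine ⟨η, hη0, hη1, fun b hb => ?_⟩
  obtain ⟨CG, hCG, hG⟩ := h2 b hb
  refine ⟨CG * CL * (b + 3), by positivity, ?_⟩
  intro σ T y ω m R L hσ0 hσ1 hT hm hR hL hz hk1 hk2
  have hm' : (1:ℝ) ≤ m := by exact_mod_cast hm
  have hR' : (1:ℝ) ≤ R := by exact_mod_cast hR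
  have hR0 : (0:ℝ) < R := by linarith
  have hL' : (L:ℝ) ≤ R := by exact_mod_cast hL
  have hzz : zz T m R = T * xx m R := by
    unfold zz; rw [xx_eq m R hm hR0]
  have hz0 : 0 < zz T m R := by linarith
  have hpi := Real.pi_pos
  have hk0 : 0 < kap m R * |ω| := by linarith
  set q : ℝ := (1 + |ω|) / zz T m R with hq
  have hq0 : 0 ≤ q := by positivity
  set M : ℝ := CG * (√((m : ℝ) * (m + R)))⁻¹ * (1 + |ω|) ^ (-(1 / 2 : ℝ)) *
        q ^ b * Real.exp (-(|ω| / (4 * zz T m R))) with hM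
  have hM0 : 0 ≤ M := by positivity
  set B : ℝ := CL * ((R : ℝ) ^ (1 - η) + R / (kap m R * |ω|)) with hB
  have hB0 : 0 ≤ B := by positivity
  set D : ℝ := M * ((R:ℝ)⁻¹ * (3 / 2 + |y| + b + q)) with hD
  have hD0 : 0 ≤ D := by positivity
  set A : ℕ → ℂ := fun r => ((T : ℂ) ^ b)⁻¹ * Gamma ((b : ℂ) - I * ω) *
    cexp (Ph σ T y ω b m ((R:ℝ) + r)) with hA
  set E : ℕ → ℂ := fun r =>
    cexp (I * ((ω * Real.log (Real.log (1 + ((R:ℝ) + r) / m)) : ℝ) : ℂ)) with hE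
  have hsum : ∑ r ∈ Finset.range L, bt σ b T y ω m (m + R + r) =
      ∑ r ∈ Finset.range L, A r * E r := by
    refine Finset.sum_congr rfl fun r _ => ?_
    exact bt_eq h1 σ T y ω b m (m + R + r) ((R:ℝ) + r) hb hT hm (by positivity)
      (by push_cast; ring)
  have hamp : ∀ s : ℝ, (R:ℝ) ≤ s → s ≤ 2 * R →
      ‖((T : ℂ) ^ b)⁻¹ * Gamma ((b : ℂ) - I * ω) * cexp (Ph σ T y ω b m s)‖ ≤ M :=
    fun s hs1 hs2 => norm_amp b CG hCG hG σ T y ω m R s hσ0 hT hm hR hs1 hs2 hz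
  have habel := abel A E L B M D ?_ hM0 hD0 ?_ ?_
  · rw [hsum]
    refine habel.trans ?_
    have hLD : L * D ≤ M * (3 / 2 + |y| + b + q) := by
      calc L * D ≤ R * D := mul_le_mul_of_nonneg_right hL' hD0
        _ = M * (3 / 2 + |y| + b + q) := by rw [hD]; field_simp
    have h5 : M + L * D ≤ M * ((b + 3) * (1 + |y|) * (1 + q)) := by
      have h6 : 5 / 2 + |y| + b + q ≤ (b + 3) * (1 + |y|) * (1 + q) := by
        have hb0 : (0:ℝ) ≤ b := by positivity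
        have hy0 : 0 ≤ |y| := abs_nonneg _
        nlinarith [mul_nonneg hb0 hy0, mul_nonneg hb0 hq0, mul_nonneg hy0 hq0,
          mul_nonneg (mul_nonneg hb0 hy0) hq0]
      calc M + L * D ≤ M * (5 / 2 + |y| + b + q) := by linarith
        _ ≤ _ := mul_le_mul_of_nonneg_left h6 hM0
    calc B * (M + L * D) ≤ B * (M * ((b + 3) * (1 + |y|) * (1 + q))) :=
          mul_le_mul_of_nonneg_left h5 hB0
      _ = _ := by rw [hB, hM]; ring
  · intro l hl
    have hl' : l ≤ R := hl.trans hL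
    have hl2 : (l:ℝ) ≤ R := by exact_mod_cast hl'
    exact hLL m R l R ω hm hR le_rfl hl' (by linarith) hk1 hk2
  · intro r hr
    have hr' : (r:ℝ) ≤ R := by exact_mod_cast (hr.le.trans hL)
    have hr0 : (0:ℝ) ≤ r := by positivity
    exact hamp _ (by linarith) (by linarith)
  · intro r hr
    have hr' : (r:ℝ) + 1 ≤ R := by exact_mod_cast (hr.le.trans hL)
    have hr0 : (0:ℝ) ≤ r := by positivity
    have hmv := norm_image_sub_le_of_norm_deriv_le_segment' (a := (R:ℝ) + r) (b := (R:ℝ) + r + 1)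
      (f := fun s => ((T : ℂ) ^ b)⁻¹ * Gamma ((b : ℂ) - I * ω) * cexp (Ph σ T y ω b m s))
      (f' := fun s => ((T : ℂ) ^ b)⁻¹ * Gamma ((b : ℂ) - I * ω) *
        (cexp (Ph σ T y ω b m s) * Ph' σ T y ω b m s)) (C := D) ?_ ?_ ((R:ℝ) + r + 1)
      ⟨by linarith, le_rfl⟩
    · rw [add_sub_cancel_left, mul_one] at hmv
      rw [hA]
      simp only
      push_cast
      rw [← add_assoc]
      exact hmv
    · intro s hs
      have hs0 : 0 < s := by have := hs.1; linarith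
      exact (((hasDerivAt_Ph σ T y ω b m s hm hs0 hT).cexp).const_mul _).hasDerivWithinAt
    · intro s hs
      have hs0 : 0 < s := by have := hs.1; linarith
      have hsR : (R:ℝ) ≤ s := by have := hs.1; linarith
      have hsR2 : s ≤ 2 * R := by have := hs.2; linarith
      have h7 := norm_Ph' σ T y ω b m s hσ0 hσ1 hm hs0 hT
      have h8 : |ω| / (xx m s * T) ≤ q := by
        rw [hq, hzz]
        have hl0 := xx_pos m R hm hR0
        have hx1 : xx m R ≤ xx m s := xx_mono m R s hm hR0 hsR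
        apply div_le_div₀ (by positivity) (by linarith) (by positivity)
        nlinarith
      have h9 : ‖Ph' σ T y ω b m s‖ ≤ (R:ℝ)⁻¹ * (3 / 2 + |y| + b + q) := by
        refine h7.trans ?_
        have hxs0 := xx_pos m s hm hs0
        apply mul_le_mul (inv_anti₀ hR0 hsR) (by linarith) (by positivity) (by positivity)
      rw [← mul_assoc, norm_mul, hD]
      exact mul_le_mul (hamp s hsR hsR2) h9 (norm_nonneg _) hM0

end Pool.Agent.Helper30K1.GD
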