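import Pool.Agent.N879.GD.Cru

set_option autoImplicit false

/-!
Project GD: `S_COV` (Hausdorff dimension of a limsup set) and `S_INT` (integrability), by helper50.
-/

namespace Pool.Agent.Helper30K1.GD

open Complex Filter Topology MeasureTheory Set
open scoped ENNReal NNReal
open Pool.Agent.N879.GD
open Pool.Agent.Y969.GP (ff)

/-- a maximal separated subset -/
theorem exists_net {k : ℕ} (B B' : Set (Fin k → ℝ)) {r v : ℝ} (hr : 0 < r) (hv : 0 ≤ v)
    (hB : ∀ x ∈ B, Metric.closedBall x r ⊆ B') (hvol : volume B' ≤ ENNReal.ofReal v) :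
    ∃ M : Finset (Fin k → ℝ), (M.card : ℝ) * r ^ k ≤ v ∧ B ⊆ ⋃ x ∈ M, Metric.closedBall x r := by
  classical
  have key : ∀ M : Finset (Fin k → ℝ), (∀ x ∈ M, x ∈ B) →
      (∀ x ∈ M, ∀ y ∈ M, x ≠ y → r < dist x y) → (M.card : ℝ) * r ^ k ≤ v := by
    intro M hM hsep
    have h1 : ∀ x ∈ M, volume (Metric.ball x (r / 2)) = ENNReal.ofReal (r ^ k) := by
      intro x _
      rw [Real.volume_pi_ball x (by linarith), Fintype.card_fin]
      congr 2; ring
    have h2 : volume (⋃ x ∈ M, Metric.ball x (r / 2)) = ∑ x ∈ M, volume (Metric.ball x (r/2)) := by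
      refine measure_biUnion_finset ?_ fun x _ => measurableSet_ball
      intro x hx y hy hxy
      refine Set.disjoint_left.mpr fun z hz1 hz2 => ?_
      have := hsep x hx y hy hxy
      have h3 := dist_triangle_left x y z
      rw [Metric.mem_ball] at hz1 hz2
      linarith
    have h3 : volume (⋃ x ∈ M, Metric.ball x (r / 2)) ≤ ENNReal.ofReal v := by
      refine (measure_mono ?_).trans hvol
      intro z hz
      simp only [Set.mem_iUnion] at hz
      obtain ⟨x, hx, hz⟩ := hz
      exact hB x (hM x hx) (Metric.mem_closedBall.mpr (by have := Metric.mem_ball.mp hz; linarith))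
    rw [h2, Finset.sum_congr rfl h1, Finset.sum_const, nsmul_eq_mul, ← ENNReal.ofReal_natCast,
      ← ENNReal.ofReal_mul (by positivity)] at h3
    exact (ENNReal.ofReal_le_ofReal_iff hv).mp h3
  let p : ℕ → Prop := fun j => ∃ M : Finset (Fin k → ℝ), M.card = j ∧ (∀ x ∈ M, x ∈ B) ∧
    ∀ x ∈ M, ∀ y ∈ M, x ≠ y → r < dist x y
  have hp0 : p 0 := ⟨∅, rfl, by simp, by simp⟩
  obtain ⟨J, hJ⟩ := exists_nat_gt (v / r ^ k)
  have hbd : ∀ j, p j → j ≤ J := by
    rintro j ⟨M, rfl, h1, h2⟩
    have := key M h1 h2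
    have h3 : (M.card : ℝ) ≤ v / r ^ k := by rw [le_div_iff₀ (by positivity)]; exact this
    exact_mod_cast (h3.trans hJ.le)
  obtain ⟨M, hc, h1, h2⟩ := Nat.findGreatest_spec (P := p) (Nat.zero_le J) hp0
  refine ⟨M, key M h1 h2, fun x hx => ?_⟩
  by_contra hcon
  have hcon : ∀ y ∈ M, r < dist x y := by
    intro y hy
    by_contra h
    exact hcon (Set.mem_biUnion hy (Metric.mem_closedBall.mpr (not_lt.mp h)))
  have hxM : x ∉ M := fun h => by
    have := hcon x h
    rw [dist_self] at this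
    linarith
  have h3 : p (M.card + 1) := by
    refine ⟨insert x M, Finset.card_insert_of_notMem hxM, ?_, ?_⟩
    · intro y hy
      rcases Finset.mem_insert.mp hy with rfl | hy
      · exact hx
      · exact h1 y hy
    · intro y hy z hz hyz
      rcases Finset.mem_insert.mp hy with hy' | hy' <;>
        rcases Finset.mem_insert.mp hz with hz' | hz'
      · exact absurd (hy'.trans hz'.symm) hyz
      · rw [hy']; exact hcon z hz'
      · rw [hz', dist_comm]; exact hcon y hy'
      · exact h2 y hy' z hz' hyz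
  have := Nat.le_findGreatest (hbd _ h3) h3
  omega

theorem t_COV : S_COV := by
  classical
  intro k s B B' r v _ hs hr hr0 hv hB hvol hsum
  obtain ⟨n₀, h0⟩ := eventually_atTop.mp (hB.and hvol)
  have hM : ∀ n, ∃ M : Finset (Fin k → ℝ), (M.card : ℝ) * r n ^ k ≤ v n ∧
      (n₀ ≤ n → B n ⊆ ⋃ x ∈ M, Metric.closedBall x (r n)) := by
    intro n
    by_cases h : n₀ ≤ n
    · obtain ⟨M, h1, h2⟩ := exists_net (B n) (B' n) (hr n) (hv n) (h0 n h).1 (h0 n h).2
      exact ⟨M, h1, fun _ => h2⟩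
    · exact ⟨∅, by simpa using hv n, fun h' => absurd h' h⟩
  choose M hM1 hM2 using hM
  -- the sum of the diameters at one scale
  have hdiam : ∀ n (x : Fin k → ℝ), Metric.ediam (Metric.closedBall x (r n)) ≤ ENNReal.ofReal (2 * r n) := by
    intro n x
    refine Metric.ediam_le fun y hy z hz => ?_
    rw [edist_dist]
    refine ENNReal.ofReal_le_ofReal ?_
    rw [Metric.mem_closedBall] at hy hz
    have := dist_triangle_right y z x
    linarith
  have hscale : ∀ n, ∑' x : M n, Metric.ediam (Metric.closedBall (x : Fin k → ℝ) (r n)) ^ s ≤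
      ENNReal.ofReal (2 ^ s * (v n * r n ^ (s - k))) := by
    intro n
    have h1 : ∑' x : M n, Metric.ediam (Metric.closedBall (x : Fin k → ℝ) (r n)) ^ s ≤
        ∑' _ : M n, ENNReal.ofReal ((2 * r n) ^ s) := by
      refine ENNReal.tsum_le_tsum fun x => ?_
      rw [← ENNReal.ofReal_rpow_of_nonneg (by have := hr n; linarith) hs.le]
      exact ENNReal.rpow_le_rpow (hdiam n x) hs.le
    refine h1.trans ?_
    rw [tsum_fintype, Finset.sum_const, nsmul_eq_mul, ← ENNReal.ofReal_natCast,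
      ← ENNReal.ofReal_mul (by positivity)]
    refine ENNReal.ofReal_le_ofReal ?_
    have hrn := hr n
    rw [Real.mul_rpow (by norm_num) hrn.le, Real.rpow_sub hrn, Real.rpow_natCast]
    have h2 := hM1 n
    simp only [Finset.card_univ, Fintype.card_coe]
    have h3 : ((M n).card : ℝ) ≤ v n / r n ^ k := by
      rw [le_div_iff₀ (by positivity)]; exact h2
    calc ((M n).card : ℝ) * (2 ^ s * r n ^ s) ≤ v n / r n ^ k * (2 ^ s * r n ^ s) :=
          mul_le_mul_of_nonneg_right h3 (by positivity)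
      _ = _ := by ring
  have hfin : μH[s] {x | ∃ᶠ n in atTop, x ∈ B n} = 0 := by
    refine le_antisymm ?_ bot_le
    have h1 := Measure.hausdorffMeasure_le_liminf_tsum (X := Fin k → ℝ) (β := ℕ)
      (ι := fun N => Σ n : ℕ, M (n + N)) s {x | ∃ᶠ n in atTop, x ∈ B n} (l := atTop)
      (fun N => ⨆ n, ENNReal.ofReal (2 * r (n + N))) ?_
      (fun N z => Metric.closedBall (z.2 : Fin k → ℝ) (r (z.1 + N))) ?_ ?_
    · refine h1.trans ?_
      have h2 : Tendsto (fun N => ∑' n, ENNReal.ofReal (2 ^ s * (v (n + N) * r (n + N) ^ (s - k))))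
          atTop (𝓝 0) := by
        refine ENNReal.tendsto_sum_nat_add (fun n => ENNReal.ofReal (2 ^ s * (v n * r n ^ (s - k)))) ?_
        have h3 := hsum.mul_left (2 ^ s)
        exact h3.tsum_ofReal_ne_top
      rw [← h2.liminf_eq]
      refine liminf_le_liminf (Eventually.of_forall fun N => ?_)
      rw [ENNReal.tsum_sigma']
      exact ENNReal.tsum_le_tsum fun n => hscale (n + N)
    · rw [ENNReal.tendsto_nhds_zero]
      intro ε hε
      have h2 : Tendsto (fun n => ENNReal.ofReal (2 * r n)) atTop (𝓝 0) := by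
        have h3 : Tendsto (fun n => 2 * r n) atTop (𝓝 0) := by simpa using hr0.const_mul 2
        have := ENNReal.tendsto_ofReal h3
        simpa using this
      obtain ⟨N, hN⟩ := eventually_atTop.mp ((ENNReal.tendsto_nhds_zero.mp h2) ε hε)
      filter_upwards [eventually_ge_atTop N] with N' hN'
      exact iSup_le fun n => hN _ (by omega)
    · exact Eventually.of_forall fun N z => (hdiam _ _).trans
        (le_iSup (fun n => ENNReal.ofReal (2 * r (n + N))) z.1)
    · filter_upwards [eventually_ge_atTop n₀] with N hN x hx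
      obtain ⟨n, hn, hxn⟩ := (frequently_atTop.mp hx) N
      have h2 := hM2 n (hN.trans hn) hxn
      simp only [Set.mem_iUnion] at h2 ⊢
      obtain ⟨y, hy, hxy⟩ := h2
      obtain ⟨j, rfl⟩ := Nat.exists_eq_add_of_le' hn
      exact ⟨⟨j, ⟨y, hy⟩⟩, hxy⟩
  have h2 : μH[((s.toNNReal : ℝ≥0) : ℝ)] {x | ∃ᶠ n in atTop, x ∈ B n} ≠ ⊤ := by
    rw [Real.coe_toNNReal s hs.le, hfin]
    exact ENNReal.zero_ne_top
  exact dimH_le_of_hausdorffMeasure_ne_top h2

theorem memLp_F {F : ℝ → ℂ} (hF : Gr F) (T : ℝ) : MemLp F 2 (volume.restrict (Ioc 0 T)) := by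
  obtain ⟨hm, hb⟩ := hF
  obtain ⟨C, hC, h1⟩ := hb 1 one_pos
  have h2 : ∫⁻ t in Ioc 0 T, ‖F t‖ₑ ^ 2 < ⊤ := by
    refine lt_of_le_of_lt (lintegral_mono_set (Ioc_subset_Ioc_right (le_max_left T 1))) ?_
    exact lt_of_le_of_lt (h1 (max T 1) (le_max_right _ _)) ENNReal.ofReal_lt_top
  refine ⟨hm.aestronglyMeasurable, ?_⟩
  rw [eLpNorm_lt_top_iff_lintegral_rpow_enorm_lt_top two_ne_zero ENNReal.ofNat_ne_top]
  simpa using h2

theorem D0_bound {l T ε : ℝ} (hl : 0 < l) (hT : 0 < T) (hε : 0 < ε) :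
    ∃ C : ℝ, 0 ≤ C ∧ ∀ t ∈ Ioc 0 T, |D0 (l * t)| ≤ C * (t / T) ^ (-ε) := by
  refine ⟨1 / ε + |Real.log (l * T / (2 * Real.pi)) + 2 * Real.eulerMascheroniConstant|,
    by positivity, fun t ht => ?_⟩
  have hx0 : 0 < t / T := div_pos ht.1 hT
  have hx1 : t / T ≤ 1 := (div_le_one hT).mpr ht.2
  have h1 := Real.abs_log_mul_self_rpow_lt (t / T) ε hx0 hx1 hε
  rw [abs_mul, abs_of_pos (Real.rpow_pos_of_pos hx0 ε), ← lt_div_iff₀ (Real.rpow_pos_of_pos hx0 ε)]
    at h1
  have h1 : |Real.log (t / T)| < 1 / ε * (t / T) ^ (-ε) := by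
    rw [Real.rpow_neg hx0.le, ← div_eq_mul_inv]
    exact h1
  have h2 : 1 ≤ (t / T) ^ (-ε) := Real.one_le_rpow_of_pos_of_le_one_of_nonpos hx0 hx1 (by linarith)
  have e : D0 (l * t) = Real.log (t / T) +
      (Real.log (l * T / (2 * Real.pi)) + 2 * Real.eulerMascheroniConstant) := by
    unfold D0
    have : l * t / (2 * Real.pi) = (t / T) * (l * T / (2 * Real.pi)) := by
      field_simp
    rw [this, Real.log_mul hx0.ne' (by positivity)]
    ring
  rw [e, add_mul]
  refine (abs_add_le _ _).trans (add_le_add h1.le ?_)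
  exact le_mul_of_one_le_right (abs_nonneg _) h2

theorem memLp_D0 {k : ℕ} {l : Fin k → ℝ} (hl : ∀ j, 0 < l j) {T : ℝ} (hT : 0 < T) :
    MemLp (fun t => ((∏ j, D0 (l j * t) : ℝ) : ℂ)) 2 (volume.restrict (Ioc 0 T)) := by
  set ε : ℝ := 1 / (4 * (k + 1)) with hε
  have hε0 : 0 < ε := by positivity
  choose C hC0 hC using fun j => D0_bound (hl j) hT hε0
  have hmeas : Measurable fun t : ℝ => ((∏ j, D0 (l j * t) : ℝ) : ℂ) := by
    refine Complex.measurable_ofReal.comp ?_
    refine Finset.measurable_prod _ fun j _ => ?_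
    unfold D0
    fun_prop
  have hb : ∀ t ∈ Ioc 0 T, ‖((∏ j, D0 (l j * t) : ℝ) : ℂ)‖ ≤ (∏ j, C j) * (t / T) ^ (-(1 / 4 : ℝ)) := by
    intro t ht
    have hx0 : 0 < t / T := div_pos ht.1 hT
    have hx1 : t / T ≤ 1 := (div_le_one hT).mpr ht.2
    rw [Complex.norm_real, Real.norm_eq_abs, Finset.abs_prod]
    calc ∏ j, |D0 (l j * t)| ≤ ∏ j, C j * (t / T) ^ (-ε) :=
          Finset.prod_le_prod (fun j _ => abs_nonneg _) fun j _ => hC j t ht
      _ = (∏ j, C j) * ((t / T) ^ (-ε)) ^ k := by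
          rw [Finset.prod_mul_distrib, Finset.prod_const, Finset.card_univ, Fintype.card_fin]
      _ ≤ (∏ j, C j) * (t / T) ^ (-(1 / 4 : ℝ)) := by
          refine mul_le_mul_of_nonneg_left ?_ (Finset.prod_nonneg fun j _ => hC0 j)
          rw [← Real.rpow_natCast, ← Real.rpow_mul hx0.le]
          refine Real.rpow_le_rpow_of_exponent_ge hx0 hx1 ?_
          have : ε * k ≤ 1 / 4 := by
            rw [hε, div_mul_eq_mul_div, one_mul, div_le_iff₀ (by positivity)]
            linarith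
          linarith
  have hlp : MemLp (fun t : ℝ => (∏ j, C j) * (t / T) ^ (-(1 / 4 : ℝ))) 2
      (volume.restrict (Ioc 0 T)) := by
    have hms : Measurable fun t : ℝ => (∏ j, C j) * (t / T) ^ (-(1 / 4 : ℝ)) :=
      ((measurable_id.div_const T).pow_const _).const_mul _
    rw [memLp_two_iff_integrable_sq hms.aestronglyMeasurable]
    have h1 : IntegrableOn (fun t : ℝ => ((∏ j, C j) ^ 2 * T ^ (1 / 2 : ℝ)) * t ^ (-(1 / 2) : ℝ))
        (Ioc 0 T) := by
      refine Integrable.const_mul ?_ _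
      exact (intervalIntegral.intervalIntegrable_rpow' (a := 0) (b := T)
        (r := -(1 / 2)) (by norm_num)).1
    refine h1.congr_fun ?_ measurableSet_Ioc
    intro t ht
    have ht0 : (0 : ℝ) < t := ht.1
    show _ = ((∏ j, C j) * (t / T) ^ (-(1 / 4 : ℝ))) ^ 2
    rw [mul_pow, ← Real.rpow_natCast ((t / T) ^ (-(1 / 4 : ℝ))) 2, ← Real.rpow_mul (by positivity),
      Real.div_rpow ht0.le hT.le]
    norm_num
    rw [Real.rpow_neg hT.le (1 / 2), div_inv_eq_mul]
    ring
  refine hlp.of_le hmeas.aestronglyMeasurable ?_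
  refine (ae_restrict_iff' measurableSet_Ioc).mpr (Eventually.of_forall fun t ht => ?_)
  refine (hb t ht).trans ?_
  rw [Real.norm_eq_abs]
  exact le_abs_self _

theorem t_INT : S_INT := by
  intro k F hF l hl T
  by_cases hT : 0 < T
  · have h1 := memLp_F hF T
    constructor
    · obtain ⟨_, _, _, hc, _⟩ := t_CRU
      have h2 : IntegrableOn F (Ioc 0 T) := h1.integrable one_le_two
      refine h2.mul_continuousOn_of_subset (K := Icc 0 T) ?_ measurableSet_Ioc isCompact_Icc
        Ioc_subset_Icc_self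
      refine Continuous.continuousOn ?_
      refine Complex.continuous_ofReal.comp ?_
      exact continuous_finsetProd _ fun j _ => hc.comp (continuous_const.mul continuous_id)
    · exact h1.integrable_mul (memLp_D0 hl hT)
  · rw [Ioc_eq_empty hT]
    exact ⟨integrableOn_empty, integrableOn_empty⟩

end Pool.Agent.Helper30K1.GD
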