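import Pool.Agent.N879.GD.Stm

set_option autoImplicit false

/-!
Project GD, piece DIA (helper88): the diagonal part of the approximate functional equation.
-/

namespace Pool.Agent.Helper30K1.GD

open Complex Filter Topology MeasureTheory Set
open Pool.Agent.Y969.GP (ff V ht lam PS co PX)
open Pool.Agent.N879.GD

noncomputable section

namespace DIAaux

/-- the harmonic sum -/
def hs (M : ℕ) : ℝ := ∑ n ∈ Finset.Icc 1 M, (1 : ℝ) / n

theorem hs_eq (M : ℕ) : hs M = (harmonic M : ℝ) := by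
  unfold hs
  rw [harmonic_eq_sum_Icc, Rat.cast_sum]
  apply Finset.sum_congr rfl
  intro n _
  simp [one_div]

/-- the harmonic sum up to `y` -/
theorem hs_bound (M : ℕ) (y : ℝ) (hy : 0 < y) (h1 : (M : ℝ) ≤ y) (h2 : y ≤ M + 1) :
    |hs M - (Real.log y + Real.eulerMascheroniConstant)| ≤ 2 / y := by
  have hγ1 : Real.eulerMascheroniConstant < 2 / 3 := Real.eulerMascheroniConstant_lt_two_thirds
  have hγ0 : 1 / 2 < Real.eulerMascheroniConstant := Real.one_half_lt_eulerMascheroniConstant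
  rcases Nat.eq_zero_or_pos M with hM | hM
  · subst hM
    have hy1 : y ≤ 1 := by simpa using h2
    have e0 : hs 0 = 0 := by simp [hs]
    have h3 : Real.log (1 / y) ≤ 1 / y - 1 := Real.log_le_sub_one_of_pos (by positivity)
    rw [one_div, Real.log_inv] at h3
    have h4 : Real.log y ≤ 0 := Real.log_nonpos hy.le hy1
    have h5 : 1 ≤ y⁻¹ := (one_le_inv₀ hy).mpr hy1
    have h6 : 2 / y = 2 * y⁻¹ := by ring
    rw [e0, h6, abs_le]
    constructor <;> linarith
  · have hM0 : (0 : ℝ) < M := by exact_mod_cast hM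
    have hM1 : (1 : ℝ) ≤ M := by exact_mod_cast hM
    have h3 := Real.eulerMascheroniSeq_lt_eulerMascheroniConstant M
    have h4 := Real.eulerMascheroniConstant_lt_eulerMascheroniSeq' M
    unfold Real.eulerMascheroniSeq at h3
    unfold Real.eulerMascheroniSeq' at h4
    rw [if_neg (by omega)] at h4
    rw [← hs_eq] at h3 h4
    have h5 : Real.log (M + 1) - Real.log M ≤ 1 / M := by
      rw [← Real.log_div (by positivity) hM0.ne']
      have e1 : ((M : ℝ) + 1) / M = 1 + 1 / M := by field_simp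
      rw [e1]
      have := Real.log_le_sub_one_of_pos (show (0 : ℝ) < 1 + 1 / M by positivity)
      linarith
    have h6 : Real.log M ≤ Real.log y := Real.log_le_log hM0 h1
    have h7 : Real.log y ≤ Real.log (M + 1) := Real.log_le_log hy h2
    have h8 : 1 / (M : ℝ) ≤ 2 / y := by
      rw [div_le_div_iff₀ hM0 hy]
      linarith
    rw [abs_le]
    constructor <;> linarith

/-- the indices of the diagonal -/
def FX (X : ℕ) : Finset ℕ := (Finset.Icc 1 X).filter fun n => n * n ≤ X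

/-- the truncated harmonic sum -/
def Hh (X : ℕ) (u v : ℝ) : ℝ :=
  ∑ n ∈ FX X, if Real.log (2 * Real.pi * ((n : ℝ) * n) / u) < v then (1 : ℝ) / n else 0

theorem cond_iff (n : ℕ) (hn : 1 ≤ n) (u v : ℝ) (hu : 0 < u) :
    Real.log (2 * Real.pi * ((n : ℝ) * n) / u) < v ↔
      (n : ℝ) < √(u * Real.exp v / (2 * Real.pi)) := by
  have hn0 : (0 : ℝ) < n := by exact_mod_cast hn
  rw [Real.log_lt_iff_lt_exp (by positivity), Real.lt_sqrt hn0.le, div_lt_iff₀ hu,
    lt_div_iff₀ (by positivity)]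
  constructor <;> intro h <;> nlinarith

theorem Hh_bound (ε : ℝ) (hε : 0 < ε) (u v : ℝ) (X : ℕ) (hu : 1 ≤ u) (hX : u ^ (1 + ε) ≤ X) :
    |Hh X u v - ((Real.log (u / (2 * Real.pi)) + v) / 2 + Real.eulerMascheroniConstant)| ≤
      6 * u ^ (-(1 / 2 : ℝ)) * Real.exp ((1 / ε + 1 / 2) * |v|) := by
  have hu0 : 0 < u := by linarith
  have hpi : (3 : ℝ) < Real.pi := Real.pi_gt_three
  have hpi4 : Real.pi < 4 := lt_trans Real.pi_lt_d2 (by norm_num)
  set z : ℝ := u * Real.exp v / (2 * Real.pi) with hz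
  have hz0 : 0 < z := by positivity
  set y : ℝ := √z with hy
  have hy0 : 0 < y := Real.sqrt_pos.mpr hz0
  have hyy : y ^ 2 = z := Real.sq_sqrt hz0.le
  have hlogz : Real.log z = Real.log (u / (2 * Real.pi)) + v := by
    have e1 : z = u / (2 * Real.pi) * Real.exp v := by rw [hz]; ring
    rw [e1, Real.log_mul (by positivity) (Real.exp_pos v).ne', Real.log_exp]
  have hlogy : Real.log y = (Real.log (u / (2 * Real.pi)) + v) / 2 := by
    rw [hy, Real.log_sqrt hz0.le, hlogz]
  rw [← hlogy]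
  -- the number `M`
  obtain ⟨M, hM⟩ : ∃ M : ℕ, M = ⌈y⌉₊ - 1 := ⟨_, rfl⟩
  have hce : 1 ≤ ⌈y⌉₊ := Nat.one_le_ceil_iff.mpr hy0
  have hM1 : (M : ℝ) < y := by
    have : M < ⌈y⌉₊ := by omega
    exact Nat.lt_ceil.mp this
  have hM2 : y ≤ M + 1 := by
    have h3 : y ≤ ⌈y⌉₊ := Nat.le_ceil y
    have h4 : ((⌈y⌉₊ : ℕ) : ℝ) = (M : ℝ) + 1 := by
      have : ⌈y⌉₊ = M + 1 := by omega
      rw [this]; push_cast; ring
    linarith
  have hMiff : ∀ n : ℕ, (n : ℝ) < y ↔ n ≤ M := by
    intro n
    rw [← Nat.lt_ceil]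
    omega
  have hhs := hs_bound M y hy0 hM1.le hM2
  have hHs : Hh X u v = ∑ n ∈ (FX X).filter (fun n => n ≤ M), (1 : ℝ) / n := by
    unfold Hh
    rw [Finset.sum_filter]
    apply Finset.sum_congr rfl
    intro n hn
    have hn1 : 1 ≤ n := (Finset.mem_Icc.mp (Finset.mem_filter.mp hn).1).1
    have h5 := (cond_iff n hn1 u v hu0).trans (hMiff n)
    by_cases hc : n ≤ M
    · rw [if_pos hc, if_pos (h5.mpr hc)]
    · rw [if_neg hc, if_neg (fun h => hc (h5.mp h))]
  have hv : v ≤ |v| := le_abs_self v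
  have hv' : -v ≤ |v| := neg_le_abs v
  have hup : 0 < u ^ (-(1 / 2 : ℝ)) := Real.rpow_pos_of_pos hu0 _
  have hA0 : 0 ≤ 1 / ε := by positivity
  have hav : 0 ≤ |v| := abs_nonneg v
  -- `1 / y`
  have hyinv : 2 / y ≤ 6 * u ^ (-(1 / 2 : ℝ)) * Real.exp ((1 / ε + 1 / 2) * |v|) := by
    have e1 : y = √u * Real.exp (v / 2) / √(2 * Real.pi) := by
      rw [hy, hz, Real.sqrt_div (by positivity), Real.sqrt_mul hu0.le, Real.exp_half]
    have e2 : 2 / y = 2 * √(2 * Real.pi) * u ^ (-(1 / 2 : ℝ)) * Real.exp (-(v / 2)) := by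
      rw [e1, Real.rpow_neg hu0.le, ← Real.sqrt_eq_rpow, Real.exp_neg]
      have h6 : √u ≠ 0 := (Real.sqrt_pos.mpr hu0).ne'
      have h7 : Real.exp (v / 2) ≠ 0 := (Real.exp_pos _).ne'
      have h8 : √(2 * Real.pi) ≠ 0 := (Real.sqrt_pos.mpr (by positivity)).ne'
      field_simp
    have e3 : √(2 * Real.pi) ≤ 3 := by
      rw [Real.sqrt_le_left (by norm_num)]
      nlinarith
    have e4 : Real.exp (-(v / 2)) ≤ Real.exp ((1 / ε + 1 / 2) * |v|) := by
      apply Real.exp_le_exp.mpr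
      nlinarith [mul_nonneg hA0 hav]
    rw [e2]
    calc 2 * √(2 * Real.pi) * u ^ (-(1 / 2 : ℝ)) * Real.exp (-(v / 2))
        ≤ 2 * 3 * u ^ (-(1 / 2 : ℝ)) * Real.exp ((1 / ε + 1 / 2) * |v|) := by gcongr
      _ = _ := by ring
  by_cases hcase : z ≤ X
  · -- no truncation
    have hset : (FX X).filter (fun n => n ≤ M) = Finset.Icc 1 M := by
      ext n
      simp only [FX, Finset.mem_filter, Finset.mem_Icc]
      constructor
      · rintro ⟨⟨⟨h1, h2⟩, h3⟩, h4⟩
        exact ⟨h1, h4⟩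
      · rintro ⟨h1, h4⟩
        have h5 : (n : ℝ) < y := (hMiff n).mpr h4
        have h6 : (n : ℝ) * n < X := by
          have hn0 : (0 : ℝ) ≤ n := Nat.cast_nonneg n
          nlinarith
        have h7 : n * n < X := by exact_mod_cast h6
        refine ⟨⟨⟨h1, ?_⟩, h7.le⟩, h4⟩
        nlinarith
    rw [hHs, hset]
    exact hhs.trans hyinv
  · -- truncation: `v` is large
    push Not at hcase
    have h1 : u ^ (1 + ε) < u * Real.exp v := by
      refine lt_of_le_of_lt hX (lt_of_lt_of_le hcase ?_)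
      rw [hz]
      apply div_le_self (by positivity)
      linarith
    have h2 : u ^ ε < Real.exp v := by
      rw [Real.rpow_add hu0, Real.rpow_one] at h1
      exact lt_of_mul_lt_mul_left h1 hu0.le
    have h3 : ε * Real.log u < v := by
      rw [Real.rpow_def_of_pos hu0] at h2
      have := Real.exp_lt_exp.mp h2
      linarith
    have hlu : 0 ≤ Real.log u := Real.log_nonneg hu
    have hv0 : 0 < v := lt_of_le_of_lt (by positivity) h3
    have h4 : Real.log u < v / ε := by
      rw [lt_div_iff₀ hε]; linarith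
    have habs : |v| = v := abs_of_pos hv0
    have hX1 : (1 : ℝ) ≤ X := le_trans (Real.one_le_rpow hu (by linarith)) hX
    have hz1 : 1 < z := lt_of_le_of_lt hX1 hcase
    have hy1 : 1 < y := by
      rw [hy]
      exact (Real.lt_sqrt zero_le_one).mpr (by simpa using hz1)
    have hH0 : 0 ≤ Hh X u v := by
      rw [hHs]
      exact Finset.sum_nonneg fun n _ => by positivity
    have hH1 : Hh X u v ≤ hs M := by
      rw [hHs]
      unfold hs
      apply Finset.sum_le_sum_of_subset_of_nonneg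
      · intro n hn
        have h5 := Finset.mem_filter.mp hn
        have h6 := Finset.mem_Icc.mp (Finset.mem_filter.mp h5.1).1
        exact Finset.mem_Icc.mpr ⟨h6.1, h5.2⟩
      · intro n _ _
        positivity
    have hlogy0 : 0 ≤ Real.log y := Real.log_nonneg hy1.le
    have hlogy1 : Real.log y ≤ y - 1 := Real.log_le_sub_one_of_pos hy0
    have hγ0 : 1 / 2 < Real.eulerMascheroniConstant := Real.one_half_lt_eulerMascheroniConstant
    have hγ1 : Real.eulerMascheroniConstant < 2 / 3 := Real.eulerMascheroniConstant_lt_two_thirds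
    have h2y : 2 / y ≤ 2 := by
      rw [div_le_iff₀ hy0]; linarith
    have h5 : |Hh X u v - (Real.log y + Real.eulerMascheroniConstant)| ≤ 3 * y := by
      have h6 := (abs_le.mp hhs).2
      rw [abs_le]
      constructor <;> linarith
    refine h5.trans ?_
    -- `y ≤ u^(1/2) exp (v/2)`
    have h6 : y ≤ u ^ (1 / 2 : ℝ) * Real.exp (v / 2) := by
      rw [← Real.sqrt_eq_rpow, Real.exp_half, ← Real.sqrt_mul hu0.le, hy]
      apply Real.sqrt_le_sqrt
      rw [hz]
      apply div_le_self (by positivity)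
      linarith
    have h7 : u ^ (1 / 2 : ℝ) = u ^ (-(1 / 2 : ℝ)) * u := by
      nth_rewrite 3 [← Real.rpow_one u]
      rw [← Real.rpow_add hu0]
      norm_num
    have h8 : u ≤ Real.exp (1 / ε * v) := by
      calc u = Real.exp (Real.log u) := (Real.exp_log hu0).symm
        _ ≤ Real.exp (1 / ε * v) := by
            apply Real.exp_le_exp.mpr
            have : v / ε = 1 / ε * v := by ring
            linarith
    calc 3 * y ≤ 3 * (u ^ (-(1 / 2 : ℝ)) * u * Real.exp (v / 2)) := by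
          rw [← h7]; linarith
      _ ≤ 3 * (u ^ (-(1 / 2 : ℝ)) * Real.exp (1 / ε * v) * Real.exp (v / 2)) := by gcongr
      _ = 3 * u ^ (-(1 / 2 : ℝ)) * Real.exp ((1 / ε + 1 / 2) * |v|) := by
          rw [habs, mul_assoc (u ^ (-(1 / 2 : ℝ))), ← Real.exp_add]
          have : 1 / ε * v + v / 2 = (1 / ε + 1 / 2) * v := by ring
          rw [this]; ring
      _ ≤ 6 * u ^ (-(1 / 2 : ℝ)) * Real.exp ((1 / ε + 1 / 2) * |v|) := by
          have : 0 < u ^ (-(1 / 2 : ℝ)) * Real.exp ((1 / ε + 1 / 2) * |v|) := by positivity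
          nlinarith

/-- the Gaussian weight -/
def g (v : ℝ) : ℝ := Real.exp (-v ^ 2 / 4)

theorem g_eq (v : ℝ) : g v = Real.exp (-(1 / 4) * v ^ 2) := by
  unfold g; congr 1; ring

theorem g_int : Integrable g := by
  have h := integrable_exp_neg_mul_sq (show (0 : ℝ) < 1 / 4 by norm_num)
  refine h.congr (Eventually.of_forall fun v => ?_)
  exact (g_eq v).symm

theorem g_total : ∫ v, g v = 2 * √Real.pi := by
  have h := integral_gaussian (1 / 4)
  have e1 : ∫ v, g v = ∫ v : ℝ, Real.exp (-(1 / 4) * v ^ 2) := integral_congr_ae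
    (Eventually.of_forall fun v => g_eq v)
  rw [e1, h]
  have e2 : Real.pi / (1 / 4) = 2 ^ 2 * Real.pi := by ring
  rw [e2, Real.sqrt_mul (by positivity), Real.sqrt_sq (by norm_num)]

theorem gv_int : Integrable (fun v => v * g v) := by
  have h := integrable_mul_exp_neg_mul_sq (show (0 : ℝ) < 1 / 4 by norm_num)
  refine h.congr (Eventually.of_forall fun v => ?_)
  show v * Real.exp (-(1 / 4) * v ^ 2) = v * g v
  rw [g_eq]

theorem gv_total : ∫ v, v * g v = 0 := by
  have h := integral_neg_eq_self (fun v : ℝ => v * g v) volume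
  have e1 : ∀ v : ℝ, (-v) * g (-v) = -(v * g v) := by
    intro v
    unfold g
    rw [neg_sq]; ring
  simp only [e1] at h
  rw [integral_neg] at h
  linarith

theorem V_eq (x : ℝ) : V x = (2 * √Real.pi)⁻¹ * ∫ v, if Real.log x < v then g v else 0 := by
  unfold Pool.Agent.Y969.GP.V
  congr 1
  rw [← integral_indicator measurableSet_Ioi]
  apply integral_congr_ae
  refine Eventually.of_forall fun v => ?_
  simp only [indicator, mem_Ioi, g]

theorem gi_int (x : ℝ) : Integrable (fun v => if Real.log x < v then g v else 0) := by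
  have h := g_int.indicator (measurableSet_Ioi (a := Real.log x))
  refine h.congr (Eventually.of_forall fun v => ?_)
  simp only [indicator, mem_Ioi]

theorem sum_eq (X : ℕ) (u : ℝ) :
    ∑ p ∈ (PS X).filter (fun p => p.1 = p.2), co p u = (√Real.pi)⁻¹ * ∫ v, g v * Hh X u v := by
  have e1 : ∑ p ∈ (PS X).filter (fun p => p.1 = p.2), co p u =
      ∑ n ∈ FX X, 2 * (1 / (n : ℝ)) * V (2 * Real.pi * ((n : ℝ) * n) / u) := by
    symm
    apply Finset.sum_bij (fun n _ => (n, n))
    · intro n hn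
      obtain ⟨h1, h2⟩ := Finset.mem_filter.mp hn
      rw [Finset.mem_filter]
      refine ⟨?_, rfl⟩
      unfold Pool.Agent.Y969.GP.PS
      rw [Finset.mem_filter, Finset.mem_product]
      exact ⟨⟨h1, h1⟩, h2⟩
    · intro n _ m _ h
      exact (Prod.mk.inj h).1
    · rintro ⟨a, b⟩ hp
      obtain ⟨h1, h2⟩ := Finset.mem_filter.mp hp
      have h3 : a = b := h2
      subst h3
      unfold Pool.Agent.Y969.GP.PS at h1
      rw [Finset.mem_filter, Finset.mem_product] at h1
      exact ⟨a, Finset.mem_filter.mpr ⟨h1.1.1, h1.2⟩, rfl⟩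
    · intro n _
      unfold Pool.Agent.Y969.GP.co Pool.Agent.Y969.GP.ht
      simp only
      rw [Real.sqrt_mul_self (Nat.cast_nonneg n), one_div]
  rw [e1]
  have e2 : ∀ n ∈ FX X, 2 * (1 / (n : ℝ)) * V (2 * Real.pi * ((n : ℝ) * n) / u) =
      (√Real.pi)⁻¹ * ∫ v, (1 / (n : ℝ)) *
        (if Real.log (2 * Real.pi * ((n : ℝ) * n) / u) < v then g v else 0) := by
    intro n _
    rw [V_eq, integral_const_mul, mul_inv]
    ring
  rw [Finset.sum_congr rfl e2, ← Finset.mul_sum, ← integral_finsetSum]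
  · congr 1
    apply integral_congr_ae
    refine Eventually.of_forall fun v => ?_
    show ∑ n ∈ FX X, (1 / (n : ℝ)) *
        (if Real.log (2 * Real.pi * ((n : ℝ) * n) / u) < v then g v else 0) = g v * Hh X u v
    unfold Hh
    rw [Finset.mul_sum]
    apply Finset.sum_congr rfl
    intro n _
    split_ifs <;> ring
  · intro n _
    exact (gi_int _).const_mul _

theorem gH_int (X : ℕ) (u : ℝ) : Integrable (fun v => g v * Hh X u v) := by
  have h : Integrable (fun v => ∑ n ∈ FX X, (1 / (n : ℝ)) *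
        (if Real.log (2 * Real.pi * ((n : ℝ) * n) / u) < v then g v else 0)) :=
    integrable_finsetSum _ fun n _ => (gi_int _).const_mul _
  refine h.congr (Eventually.of_forall fun v => ?_)
  show ∑ n ∈ FX X, (1 / (n : ℝ)) *
        (if Real.log (2 * Real.pi * ((n : ℝ) * n) / u) < v then g v else 0) = g v * Hh X u v
  unfold Hh
  rw [Finset.mul_sum]
  apply Finset.sum_congr rfl
  intro n _
  split_ifs <;> ring

end DIAaux

open DIAaux

theorem t_DIA : S_DIA := by
  intro ε hε
  obtain ⟨A, hA⟩ : ∃ A : ℝ, A = 1 / ε + 1 / 2 := ⟨_, rfl⟩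
  obtain ⟨J, hJ⟩ : ∃ J : ℝ, J = ∫ v : ℝ, Real.exp (-(1 / 8) * v ^ 2) := ⟨_, rfl⟩
  have hJint : Integrable (fun v : ℝ => Real.exp (-(1 / 8) * v ^ 2)) :=
    integrable_exp_neg_mul_sq (by norm_num)
  have hJ0 : 0 ≤ J := by rw [hJ]; exact integral_nonneg fun v => (Real.exp_pos _).le
  have hpi : 0 < √Real.pi := Real.sqrt_pos.mpr Real.pi_pos
  refine ⟨(√Real.pi)⁻¹ * (6 * Real.exp (2 * A ^ 2) * (J + 1)), by positivity, ?_⟩
  intro u X hu hX
  have hu0 : 0 < u := by linarith
  obtain ⟨c, hc⟩ : ∃ c : ℝ, c = Real.log (u / (2 * Real.pi)) / 2 + Real.eulerMascheroniConstant :=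
    ⟨_, rfl⟩
  have hD : D0 u = (√Real.pi)⁻¹ * ∫ v, g v * (v / 2 + c) := by
    have e1 : ∀ v : ℝ, g v * (v / 2 + c) = 1 / 2 * (v * g v) + c * g v := by intro v; ring
    simp only [e1]
    rw [integral_add (gv_int.const_mul _) (g_int.const_mul _), integral_const_mul,
      integral_const_mul, gv_total, g_total, hc]
    unfold D0
    field_simp
    ring
  have hgc : Integrable (fun v => g v * (v / 2 + c)) := by
    have h1 : Integrable (fun v => 1 / 2 * (v * g v) + c * g v) :=
      (gv_int.const_mul _).add (g_int.const_mul _)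
    refine h1.congr (Eventually.of_forall fun v => ?_)
    show 1 / 2 * (v * g v) + c * g v = g v * (v / 2 + c)
    ring
  rw [sum_eq, hD, ← mul_sub, ← integral_sub (gH_int X u) hgc, abs_mul,
    abs_of_pos (inv_pos.mpr hpi), mul_assoc]
  apply mul_le_mul_of_nonneg_left _ (inv_nonneg.mpr hpi.le)
  have hbound : ∀ v : ℝ, ‖g v * Hh X u v - g v * (v / 2 + c)‖ ≤
      6 * Real.exp (2 * A ^ 2) * u ^ (-(1 / 2 : ℝ)) * Real.exp (-(1 / 8) * v ^ 2) := by
    intro v
    have h1 := Hh_bound ε hε u v X hu hX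
    have e2 : (Real.log (u / (2 * Real.pi)) + v) / 2 + Real.eulerMascheroniConstant = v / 2 + c := by
      rw [hc]; ring
    rw [e2, ← hA] at h1
    have hg0 : 0 < g v := Real.exp_pos _
    rw [← mul_sub, Real.norm_eq_abs, abs_mul, abs_of_pos hg0]
    have h2 : g v * Real.exp (A * |v|) ≤ Real.exp (2 * A ^ 2) * Real.exp (-(1 / 8) * v ^ 2) := by
      unfold g
      rw [← Real.exp_add, ← Real.exp_add]
      apply Real.exp_le_exp.mpr
      have h3 : |v| ^ 2 = v ^ 2 := sq_abs v
      nlinarith [sq_nonneg (|v| - 4 * A)]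
    have hup : 0 < u ^ (-(1 / 2 : ℝ)) := Real.rpow_pos_of_pos hu0 _
    calc g v * |Hh X u v - (v / 2 + c)|
        ≤ g v * (6 * u ^ (-(1 / 2 : ℝ)) * Real.exp (A * |v|)) :=
          mul_le_mul_of_nonneg_left h1 hg0.le
      _ = 6 * u ^ (-(1 / 2 : ℝ)) * (g v * Real.exp (A * |v|)) := by ring
      _ ≤ 6 * u ^ (-(1 / 2 : ℝ)) * (Real.exp (2 * A ^ 2) * Real.exp (-(1 / 8) * v ^ 2)) :=
          mul_le_mul_of_nonneg_left h2 (by positivity)
      _ = _ := by ring
  have h4 := norm_integral_le_of_norm_le (hJint.const_mul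
    (6 * Real.exp (2 * A ^ 2) * u ^ (-(1 / 2 : ℝ)))) (Eventually.of_forall hbound)
  rw [Real.norm_eq_abs, integral_const_mul, ← hJ] at h4
  refine h4.trans ?_
  have hup : 0 < u ^ (-(1 / 2 : ℝ)) := Real.rpow_pos_of_pos hu0 _
  have h5 : 0 < 6 * Real.exp (2 * A ^ 2) * u ^ (-(1 / 2 : ℝ)) := by positivity
  nlinarith

end

end Pool.Agent.Helper30K1.GD
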