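import Pool.Agent.N879.GD.Cru
import Pool.Agent.Y587.GP.V

set_option autoImplicit false

/-!
Project GD, piece LEM: the Mellin transform of `|ζ(1/2+iu)|² - D0 u` with the weight `W` (helper25).
-/

namespace Pool.Agent.Helper30K1.GD

open Complex Filter Topology MeasureTheory Set
open Pool.Agent.N879.GD
open Pool.Agent.Y969.GP (ff V ht lam PS co PX)

namespace Lem

/-- the Gamma integral with the weight `W` -/
lemma gint (a s T : ℝ) (has : 0 < a + s) (hT : 0 < T) :
    IntegrableOn (fun u => W a T u * u ^ s) (Ioi 0) ∧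
      ∫ u in Ioi (0 : ℝ), W a T u * u ^ s = T ^ s * Real.Gamma (a + s) := by
  have h0 : ∀ u ∈ Ioi (0 : ℝ), W a T u * u ^ s =
      T ^ (-a) * (u ^ (a + s - 1) * Real.exp (-(T⁻¹ * u))) := by
    intro u hu
    have hu' : (0 : ℝ) < u := hu
    unfold W
    rw [Real.div_rpow hu'.le hT.le, Real.rpow_neg hT.le,
      show a + s - 1 = a + s + (-1) by ring, Real.rpow_add hu', Real.rpow_add hu', Real.rpow_neg_one,
      show u / T = T⁻¹ * u by rw [div_eq_inv_mul]]
    field_simp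
  have h1 : IntegrableOn (fun u : ℝ => T ^ (-a) * (u ^ (a + s - 1) * Real.exp (-(T⁻¹ * u)))) (Ioi 0) := by
    apply Integrable.const_mul
    have hx : -1 < a + s - 1 := by linarith
    have := integrableOn_rpow_mul_exp_neg_mul_rpow (p := 1) (s := a + s - 1) (b := T⁻¹) hx
      one_pos (by positivity)
    refine this.congr_fun (fun u _ => ?_) measurableSet_Ioi
    simp only [Real.rpow_one, neg_mul]
  refine ⟨h1.congr_fun (fun u hu => (h0 u hu).symm) measurableSet_Ioi, ?_⟩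
  rw [setIntegral_congr_fun measurableSet_Ioi h0, integral_const_mul,
    Real.integral_rpow_mul_exp_neg_mul_Ioi has (by positivity), one_div, inv_inv,
    ← mul_assoc, ← Real.rpow_add hT]
  congr 2
  ring

lemma W_nonneg (a T u : ℝ) (hT : 0 < T) (hu : 0 < u) : 0 ≤ W a T u := by
  unfold W; positivity

lemma W_meas (a T : ℝ) : Measurable (W a T) := by
  unfold W
  exact (((measurable_id.div_const _).pow_const _).mul
    (Real.measurable_exp.comp (measurable_id.div_const _).neg)).div measurable_id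

lemma V_meas : Measurable V := by
  have h : Continuous (fun y : ℝ => ∫ v in Ioi y, Pool.Agent.Y587.GP.gs v) :=
    continuous_iff_continuousAt.2 fun y => (Pool.Agent.Y587.GP.tail_deriv y).continuousAt
  have : V = fun x => (2 * √Real.pi)⁻¹ *
      (fun y : ℝ => ∫ v in Ioi y, Pool.Agent.Y587.GP.gs v) (Real.log x) := by
    funext x; exact Pool.Agent.Y587.GP.V_eq x
  rw [this]
  exact (h.measurable.comp Real.measurable_log).const_mul _

lemma co_meas (p : ℕ × ℕ) : Measurable (co p) := by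
  unfold co
  exact (V_meas.comp (measurable_const.div measurable_id)).const_mul _

lemma co_nonneg (p : ℕ × ℕ) (u : ℝ) : 0 ≤ co p u := by
  unfold co
  have := Pool.Agent.Y587.GP.V_nonneg (2 * Real.pi * ht p / u)
  positivity

lemma co_le (X : ℕ) (p : ℕ × ℕ) (hp : p ∈ PS X) (u : ℝ) : co p u ≤ 2 := by
  unfold co
  have h1 := Pool.Agent.Y587.GP.V_le_one (2 * Real.pi * ht p / u)
  have h0 := Pool.Agent.Y587.GP.V_nonneg (2 * Real.pi * ht p / u)
  have h2 : 1 ≤ ht p := by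
    unfold ht
    unfold PS at hp
    simp only [Finset.mem_filter, Finset.mem_product, Finset.mem_Icc] at hp
    have ha : (1 : ℝ) ≤ p.1 := by exact_mod_cast hp.1.1.1
    have hb : (1 : ℝ) ≤ p.2 := by exact_mod_cast hp.1.2.1
    nlinarith
  have h3 : (√(ht p))⁻¹ ≤ 1 := by
    apply inv_le_one_of_one_le₀
    rw [← Real.sqrt_one]; exact Real.sqrt_le_sqrt h2
  have h4 : 0 ≤ (√(ht p))⁻¹ := by positivity
  calc 2 * (√(ht p))⁻¹ * V (2 * Real.pi * ht p / u) ≤ 2 * 1 * 1 := by gcongr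
    _ = 2 := by norm_num

lemma PS_card (X : ℕ) : ((PS X).card : ℝ) ≤ (X : ℝ) ^ 2 := by
  have : (PS X).card ≤ X * X := by
    refine (Finset.card_filter_le _ _).trans ?_
    simp
  calc ((PS X).card : ℝ) ≤ ((X * X : ℕ) : ℝ) := by exact_mod_cast this
    _ = (X : ℝ) ^ 2 := by push_cast; ring

/-- the off-diagonal part -/
noncomputable def od (X : ℕ) (u : ℝ) : ℂ := ∑ p ∈ (PS X).filter (fun p => p.1 ≠ p.2),
      (co p u : ℂ) * cexp (I * ((u * lam p : ℝ) : ℂ))

/-- the diagonal part -/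
noncomputable def dg (X : ℕ) (u : ℝ) : ℝ := ∑ p ∈ (PS X).filter (fun p => p.1 = p.2), co p u

lemma PX_eq (X : ℕ) (u : ℝ) : PX X u = od X u + (dg X u : ℂ) := by
  unfold PX od dg
  rw [← Finset.sum_filter_add_sum_filter_not (PS X) (fun p => p.1 ≠ p.2)]
  congr 1
  push_cast
  rw [show (PS X).filter (fun p => ¬ (p.1 ≠ p.2)) = (PS X).filter (fun p => p.1 = p.2) from by
    apply Finset.filter_congr; intro p _; simp]
  refine Finset.sum_congr rfl fun p hp => ?_
  have : lam p = 0 := by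
    unfold lam; rw [(Finset.mem_filter.1 hp).2]; ring
  rw [this]; simp

lemma norm_e (x : ℝ) : ‖cexp (I * (x : ℂ))‖ = 1 := by
  rw [mul_comm, Complex.norm_exp_ofReal_mul_I]

lemma od_bd (X : ℕ) (u : ℝ) : ‖od X u‖ ≤ 2 * (X : ℝ) ^ 2 := by
  unfold od
  calc ‖_‖ ≤ ∑ p ∈ (PS X).filter (fun p => p.1 ≠ p.2), (2 : ℝ) := by
        refine norm_sum_le_of_le _ fun p hp => ?_
        rw [norm_mul, norm_e, mul_one, norm_real, Real.norm_eq_abs, abs_of_nonneg (co_nonneg _ _)]
        exact co_le X p (Finset.mem_filter.1 hp).1 u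
    _ ≤ 2 * (X : ℝ) ^ 2 := by
        rw [Finset.sum_const, nsmul_eq_mul, mul_comm]
        have h1 : (((PS X).filter (fun p => p.1 ≠ p.2)).card : ℝ) ≤ ((PS X).card : ℝ) := by
          exact_mod_cast Finset.card_filter_le _ _
        have := PS_card X
        nlinarith

lemma dg_bd (X : ℕ) (u : ℝ) : |dg X u| ≤ 2 * (X : ℝ) ^ 2 := by
  unfold dg
  calc |_| ≤ ∑ p ∈ (PS X).filter (fun p => p.1 = p.2), (2 : ℝ) := by
        refine (Finset.abs_sum_le_sum_abs _ _).trans (Finset.sum_le_sum fun p hp => ?_)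
        rw [abs_of_nonneg (co_nonneg _ _)]
        exact co_le X p (Finset.mem_filter.1 hp).1 u
    _ ≤ 2 * (X : ℝ) ^ 2 := by
        rw [Finset.sum_const, nsmul_eq_mul, mul_comm]
        have h1 : (((PS X).filter (fun p => p.1 = p.2)).card : ℝ) ≤ ((PS X).card : ℝ) := by
          exact_mod_cast Finset.card_filter_le _ _
        have := PS_card X
        nlinarith

lemma od_meas (X : ℕ) : Measurable (od X) := by
  unfold od
  refine Finset.measurable_sum _ fun p _ => ?_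
  refine (Complex.measurable_ofReal.comp (co_meas p)).mul ?_
  have : Continuous fun u : ℝ => cexp (I * ((u * lam p : ℝ) : ℂ)) := by fun_prop
  exact this.measurable

lemma dg_meas (X : ℕ) : Measurable (dg X) := by
  unfold dg
  exact Finset.measurable_sum _ fun p _ => co_meas p

lemma D0_meas : Measurable D0 := by
  unfold D0
  exact ((Real.measurable_log.comp (measurable_id.div_const _))).add_const _

/-- bound of `D0` near `0` -/
lemma D0_small {u : ℝ} (hu : 0 < u) (hu1 : u ≤ 1) : |D0 u| ≤ 9 * u ^ (-3 : ℝ) := by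
  have hpi : Real.pi < 3.15 := Real.pi_lt_d2
  have hpi3 : 3.14 < Real.pi := Real.pi_gt_d2
  have hg0 : 0 < Real.eulerMascheroniConstant := by
    have := Real.one_half_lt_eulerMascheroniConstant; linarith
  have hg1 : Real.eulerMascheroniConstant < 1 := by
    have := Real.eulerMascheroniConstant_lt_two_thirds; linarith
  have h1 : -(2 * Real.pi / u) ≤ Real.log (u / (2 * Real.pi)) := by
    have := Real.log_le_sub_one_of_pos (x := 2 * Real.pi / u) (by positivity)
    have h2 : Real.log (u / (2 * Real.pi)) = -Real.log (2 * Real.pi / u) := by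
      rw [← Real.log_inv, inv_div]
    rw [h2]; linarith
  have h2 : Real.log (u / (2 * Real.pi)) ≤ 0 := by
    apply Real.log_nonpos (by positivity)
    rw [div_le_one (by positivity)]; linarith
  have h3 : (1 : ℝ) ≤ 1 / u := by rw [le_div_iff₀ hu]; linarith
  have h4 : 1 / u ≤ u ^ (-3 : ℝ) := by
    rw [one_div, ← Real.rpow_neg_one]
    exact Real.rpow_le_rpow_of_exponent_ge hu hu1 (by norm_num)
  have h5 : 2 * Real.pi / u ≤ 6.3 * (1 / u) := by
    rw [mul_one_div]; gcongr; linarith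
  unfold D0
  rw [abs_le]
  constructor
  · nlinarith
  · nlinarith

/-- bound of `D0` for large arguments -/
lemma D0_large {u : ℝ} (hu : 1 ≤ u) : |D0 u| ≤ 9 * u := by
  have hpi : Real.pi < 3.15 := Real.pi_lt_d2
  have hpi3 : 3.14 < Real.pi := Real.pi_gt_d2
  have hg0 : 0 < Real.eulerMascheroniConstant := by
    have := Real.one_half_lt_eulerMascheroniConstant; linarith
  have hg1 : Real.eulerMascheroniConstant < 1 := by
    have := Real.eulerMascheroniConstant_lt_two_thirds; linarith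
  have hu0 : 0 < u := by linarith
  have h1 : -(2 * Real.pi / u) ≤ Real.log (u / (2 * Real.pi)) := by
    have := Real.log_le_sub_one_of_pos (x := 2 * Real.pi / u) (by positivity)
    have h2 : Real.log (u / (2 * Real.pi)) = -Real.log (2 * Real.pi / u) := by
      rw [← Real.log_inv, inv_div]
    rw [h2]; linarith
  have h2 : Real.log (u / (2 * Real.pi)) ≤ u := by
    have := Real.log_le_sub_one_of_pos (x := u / (2 * Real.pi)) (by positivity)
    have h3 : u / (2 * Real.pi) ≤ u := div_le_self hu0.le (by linarith)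
    linarith
  have h3 : 2 * Real.pi / u ≤ 2 * Real.pi := div_le_self (by positivity) hu
  unfold D0
  rw [abs_le]
  constructor
  · nlinarith
  · nlinarith

lemma X_sq {T ε : ℝ} {X : ℕ} (hT : 1 ≤ T) (hε4 : ε ≤ 1 / 4) (hX : (X : ℝ) ≤ 2 * T ^ (1 + ε)) :
    (X : ℝ) ^ 2 ≤ 4 * T ^ (5 / 2 : ℝ) := by
  have h0 : (0 : ℝ) ≤ X := Nat.cast_nonneg X
  have hT0 : (0 : ℝ) ≤ T := by linarith
  calc (X : ℝ) ^ 2 ≤ (2 * T ^ (1 + ε)) ^ 2 := by gcongr
    _ = 4 * T ^ (2 * (1 + ε)) := by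
        rw [mul_pow, ← Real.rpow_natCast (T ^ (1 + ε)) 2, ← Real.rpow_mul hT0]
        norm_num [mul_comm]
    _ ≤ 4 * T ^ (5 / 2 : ℝ) := by
        gcongr
        linarith

/-- pointwise bound of the error -/
lemma err (hD : S_DIA) (hA : Pool.Agent.Y969.GP.S_AFE) (ε : ℝ) (hε : 0 < ε) (hε4 : ε ≤ 1 / 4) :
    ∃ K M : ℝ, 0 < K ∧ 0 ≤ M ∧ ∀ (T : ℝ) (X : ℕ), 1 ≤ T → T ^ (1 + ε) ≤ X → (X : ℝ) ≤ 2 * T ^ (1 + ε) →
    ∀ u : ℝ, 0 < u → ‖(ff u : ℂ) - PX X u‖ + |dg X u - D0 u| ≤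
      K * (T ^ (5 / 2 : ℝ) * u ^ (-3 : ℝ) + u ^ (-(1 / 2) + ε / 4) + T ^ (-M - 1 / 2) * u ^ M) := by
  obtain ⟨C, N, hC, -, hff, -⟩ := t_CRU
  obtain ⟨CA, hCA, hA'⟩ := hA (ε / 4) (by positivity)
  obtain ⟨CD, hCD, hD'⟩ := hD (ε / 4) (by positivity)
  set κ : ℝ := ε / 4 with hκ
  have hκ0 : 0 < κ := by positivity
  have hκ1 : κ ≤ 1 / 16 := by rw [hκ]; linarith
  set M : ℝ := ((1 + κ) * (N + 3) + 1 / 2) / κ with hM
  have hN0 : (0 : ℝ) ≤ N := Nat.cast_nonneg N
  have hM0 : 0 ≤ M := by positivity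
  have hMκ : κ * M = (1 + κ) * (N + 3) + 1 / 2 := by rw [hM]; field_simp
  have hMN : (N : ℝ) + 3 ≤ M := by
    by_contra hcon
    rw [not_le] at hcon
    have : κ * M < κ * (N + 3) := by gcongr
    nlinarith
  refine ⟨CA + CD + (C * 2 ^ N + 33), M, by positivity, hM0, fun T X hT hX1 hX2 u hu => ?_⟩
  have hT0 : 0 < T := by linarith
  have hXsq := X_sq hT hε4 hX2
  have hKc : 0 < C * 2 ^ N + 33 := by positivity
  have ht1 : 0 ≤ T ^ (5 / 2 : ℝ) * u ^ (-3 : ℝ) := by positivity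
  have ht2 : 0 ≤ u ^ (-(1 / 2) + κ) := by positivity
  have ht3 : 0 ≤ T ^ (-M - 1 / 2) * u ^ M := by positivity
  have hff0 : 0 ≤ ff u := by unfold Pool.Agent.Y969.GP.ff; positivity
  have hcr : ‖(ff u : ℂ) - PX X u‖ + |dg X u - D0 u| ≤ C * (1 + u) ^ N + 24 * T ^ (5 / 2 : ℝ) + |D0 u| := by
    have h1 : ‖(ff u : ℂ) - PX X u‖ ≤ ff u + ‖PX X u‖ := by
      refine (norm_sub_le _ _).trans ?_
      rw [norm_real, Real.norm_eq_abs, abs_of_nonneg hff0]
    have h2 : ‖PX X u‖ ≤ 4 * (X : ℝ) ^ 2 := by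
      rw [PX_eq]
      refine (norm_add_le _ _).trans ?_
      rw [norm_real, Real.norm_eq_abs]
      have := od_bd X u
      have := dg_bd X u
      linarith
    have h3 : |dg X u - D0 u| ≤ 2 * (X : ℝ) ^ 2 + |D0 u| := by
      refine (abs_sub _ _).trans ?_
      have := dg_bd X u
      linarith
    have h4 := hff u hu.le
    linarith
  rcases le_or_gt u 1 with hu1 | hu1
  · -- small
    have h1 : (1 + u) ^ N ≤ 2 ^ N := by gcongr; linarith
    have h2 := D0_small hu hu1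
    have h3 : 1 ≤ T ^ (5 / 2 : ℝ) := Real.one_le_rpow hT (by norm_num)
    have h4 : 1 ≤ u ^ (-3 : ℝ) := Real.one_le_rpow_of_pos_of_le_one_of_nonpos hu hu1 (by norm_num)
    have h5 : T ^ (5 / 2 : ℝ) ≤ T ^ (5 / 2 : ℝ) * u ^ (-3 : ℝ) := by nlinarith
    have h6 : u ^ (-3 : ℝ) ≤ T ^ (5 / 2 : ℝ) * u ^ (-3 : ℝ) := by nlinarith
    have h7 : 1 ≤ T ^ (5 / 2 : ℝ) * u ^ (-3 : ℝ) := h3.trans h5
    calc _ ≤ C * (1 + u) ^ N + 24 * T ^ (5 / 2 : ℝ) + |D0 u| := hcr
      _ ≤ C * 2 ^ N * 1 + 24 * (T ^ (5 / 2 : ℝ) * u ^ (-3 : ℝ)) +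
          9 * (T ^ (5 / 2 : ℝ) * u ^ (-3 : ℝ)) := by
          rw [mul_one]
          gcongr
          exact h2.trans (by linarith)
      _ ≤ C * 2 ^ N * (T ^ (5 / 2 : ℝ) * u ^ (-3 : ℝ)) + 24 * (T ^ (5 / 2 : ℝ) * u ^ (-3 : ℝ)) +
          9 * (T ^ (5 / 2 : ℝ) * u ^ (-3 : ℝ)) := by gcongr
      _ = (C * 2 ^ N + 33) * (T ^ (5 / 2 : ℝ) * u ^ (-3 : ℝ)) := by ring
      _ ≤ (CA + CD + (C * 2 ^ N + 33)) * (T ^ (5 / 2 : ℝ) * u ^ (-3 : ℝ) + u ^ (-(1 / 2) + κ) +
          T ^ (-M - 1 / 2) * u ^ M) := by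
          apply mul_le_mul (by linarith) (by linarith) ht1 (by positivity)
  · rcases le_or_gt u (T ^ (1 + κ)) with hu2 | hu2
    · -- middle
      have h1 : u ^ (1 + κ) ≤ X := by
        calc u ^ (1 + κ) ≤ (T ^ (1 + κ)) ^ (1 + κ) := by gcongr
          _ = T ^ ((1 + κ) * (1 + κ)) := by rw [← Real.rpow_mul hT0.le]
          _ ≤ T ^ (1 + ε) := by
              apply Real.rpow_le_rpow_of_exponent_le hT
              have : ε = 4 * κ := by rw [hκ]; ring
              rw [this]; nlinarith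
          _ ≤ X := hX1
      have h2 := hA' u X hu1.le h1
      have h3 := hD' u X hu1.le h1
      have h4 : u ^ (-(1 / 2 : ℝ)) ≤ u ^ (-(1 / 2) + κ) :=
        Real.rpow_le_rpow_of_exponent_le hu1.le (by linarith)
      calc _ ≤ CA * u ^ (-(1 / 2) + κ) + CD * u ^ (-(1 / 2 : ℝ)) := add_le_add h2 h3
        _ ≤ CA * u ^ (-(1 / 2) + κ) + CD * u ^ (-(1 / 2) + κ) := by gcongr
        _ = (CA + CD) * u ^ (-(1 / 2) + κ) := by ring
        _ ≤ (CA + CD + (C * 2 ^ N + 33)) * (T ^ (5 / 2 : ℝ) * u ^ (-3 : ℝ) + u ^ (-(1 / 2) + κ) +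
          T ^ (-M - 1 / 2) * u ^ M) := by
          apply mul_le_mul (by linarith) (by linarith) ht2 (by positivity)
    · -- large
      have hTu : T ≤ u := by
        calc T = T ^ (1 : ℝ) := (Real.rpow_one T).symm
          _ ≤ T ^ (1 + κ) := Real.rpow_le_rpow_of_exponent_le hT (by linarith)
          _ ≤ u := hu2.le
      have h1 : (1 + u) ^ N ≤ 2 ^ N * u ^ (N : ℝ) := by
        rw [Real.rpow_natCast, ← mul_pow]; gcongr; linarith
      have h2 := D0_large hu1.le
      have h3 : u ^ (N : ℝ) ≤ u ^ ((N : ℝ) + 3) := Real.rpow_le_rpow_of_exponent_le hu1.le (by linarith)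
      have h4 : u ≤ u ^ ((N : ℝ) + 3) := by
        calc u = u ^ (1 : ℝ) := (Real.rpow_one u).symm
          _ ≤ _ := Real.rpow_le_rpow_of_exponent_le hu1.le (by linarith)
      have h5 : T ^ (5 / 2 : ℝ) ≤ u ^ ((N : ℝ) + 3) := by
        calc T ^ (5 / 2 : ℝ) ≤ u ^ (5 / 2 : ℝ) := by gcongr
          _ ≤ _ := Real.rpow_le_rpow_of_exponent_le hu1.le (by linarith)
      have h6 : u ^ ((N : ℝ) + 3) ≤ T ^ (-M - 1 / 2) * u ^ M := by
        have e1 : T ^ (M + 1 / 2) ≤ u ^ (M - (N + 3)) := by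
          calc T ^ (M + 1 / 2) ≤ T ^ ((1 + κ) * (M - (N + 3))) := by
                apply Real.rpow_le_rpow_of_exponent_le hT
                nlinarith
            _ = (T ^ (1 + κ)) ^ (M - (N + 3)) := by rw [← Real.rpow_mul hT0.le]
            _ ≤ u ^ (M - (N + 3)) := by
                apply Real.rpow_le_rpow (by positivity) hu2.le; linarith
        have e2 : u ^ M = u ^ (M - (N + 3)) * u ^ ((N : ℝ) + 3) := by
          rw [← Real.rpow_add hu]; congr 1; ring
        have e3 : T ^ (-M - 1 / 2) * T ^ (M + 1 / 2) = 1 := by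
          rw [← Real.rpow_add hT0]; norm_num
        rw [e2, ← mul_assoc]
        have e4 : 1 ≤ T ^ (-M - 1 / 2) * u ^ (M - (N + 3)) := by
          calc 1 = T ^ (-M - 1 / 2) * T ^ (M + 1 / 2) := e3.symm
            _ ≤ _ := by gcongr
        have e5 : 0 ≤ u ^ ((N : ℝ) + 3) := by positivity
        nlinarith
      calc _ ≤ C * (1 + u) ^ N + 24 * T ^ (5 / 2 : ℝ) + |D0 u| := hcr
        _ ≤ C * (2 ^ N * u ^ ((N : ℝ) + 3)) + 24 * u ^ ((N : ℝ) + 3) + 9 * u ^ ((N : ℝ) + 3) := by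
            gcongr
            · exact h1.trans (by gcongr)
            · exact h2.trans (by gcongr)
        _ = (C * 2 ^ N + 33) * u ^ ((N : ℝ) + 3) := by ring
        _ ≤ (C * 2 ^ N + 33) * (T ^ (-M - 1 / 2) * u ^ M) := by gcongr
        _ ≤ (CA + CD + (C * 2 ^ N + 33)) * (T ^ (5 / 2 : ℝ) * u ^ (-3 : ℝ) + u ^ (-(1 / 2) + κ) +
          T ^ (-M - 1 / 2) * u ^ M) := by
          apply mul_le_mul (by linarith) (by linarith) ht3 (by positivity)

end Lem

open Lem in
/-- LEM -/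
theorem t_LEM (h1 : S_OFI) (h2 : S_DIA) (h3 : Pool.Agent.Y969.GP.S_AFE) : S_LEM := by
  obtain ⟨a, ε, δ, ha, hε, hε4, hδ, hδ1, C₁, T₁, hC₁, hT₁, hO⟩ := h1
  obtain ⟨K, M, hK, hM, hE⟩ := err h2 h3 ε hε hε4
  obtain ⟨-, -, -, hcont, -, -⟩ := t_CRU
  set κ : ℝ := ε / 4 with hκ
  have hκ0 : 0 < κ := by positivity
  have hκ1 : κ ≤ 1 / 16 := by rw [hκ]; linarith
  set Γs : ℝ := Real.Gamma (a + -3) + Real.Gamma (a + (-(1 / 2) + κ)) + Real.Gamma (a + M) with hΓ
  have hΓ1 : 0 < Real.Gamma (a + -3) := Real.Gamma_pos_of_pos (by linarith)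
  have hΓ2 : 0 < Real.Gamma (a + (-(1 / 2) + κ)) := Real.Gamma_pos_of_pos (by linarith)
  have hΓ3 : 0 < Real.Gamma (a + M) := Real.Gamma_pos_of_pos (by linarith)
  have hΓs : 0 < Γs := by positivity
  refine ⟨a, min δ (1 / 4), ha, lt_min hδ (by norm_num), (min_le_left _ _).trans hδ1,
    C₁ + K * Γs, T₁, by positivity, hT₁, fun T hT => ?_⟩
  have hT1 : 1 ≤ T := hT₁.trans hT
  have hT0 : 0 < T := by linarith
  set X : ℕ := ⌈T ^ (1 + ε)⌉₊ with hX
  have hTe : 1 ≤ T ^ (1 + ε) := Real.one_le_rpow hT1 (by linarith)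
  have hX1 : T ^ (1 + ε) ≤ X := Nat.le_ceil _
  have hX2 : (X : ℝ) ≤ 2 * T ^ (1 + ε) := by
    have := (Nat.ceil_lt_add_one (show (0 : ℝ) ≤ T ^ (1 + ε) by positivity)).le
    linarith
  have hb := hE T X hT1 hX1 hX2
  -- the majorant
  obtain ⟨i1, j1⟩ := gint a (-3) T (by linarith) hT0
  obtain ⟨i2, j2⟩ := gint a (-(1 / 2) + κ) T (by linarith) hT0
  obtain ⟨i3, j3⟩ := gint a M T (by linarith) hT0
  obtain ⟨i0, -⟩ := gint a 0 T (by linarith) hT0
  set B : ℝ → ℝ := fun u => K * (T ^ (5 / 2 : ℝ) * (W a T u * u ^ (-3 : ℝ)) +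
    W a T u * u ^ (-(1 / 2) + κ) + T ^ (-M - 1 / 2) * (W a T u * u ^ M)) with hB
  have k1 : IntegrableOn (fun u => T ^ (5 / 2 : ℝ) * (W a T u * u ^ (-3 : ℝ))) (Ioi 0) := i1.const_mul _
  have k3 : IntegrableOn (fun u => T ^ (-M - 1 / 2) * (W a T u * u ^ M)) (Ioi 0) := i3.const_mul _
  have k2 : IntegrableOn (fun u => T ^ (5 / 2 : ℝ) * (W a T u * u ^ (-3 : ℝ)) +
      W a T u * u ^ (-(1 / 2) + κ)) (Ioi 0) := k1.add i2
  have iB : IntegrableOn B (Ioi 0) := by
    rw [hB]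
    exact (k2.add k3).const_mul _
  have jB : ∫ u in Ioi (0 : ℝ), B u ≤ K * Γs * T ^ (-(1 / 2) + κ) := by
    rw [hB]
    simp only
    rw [integral_const_mul, integral_add k2 k3,
      integral_add k1 i2, integral_const_mul, integral_const_mul, j1, j2, j3,
      ← mul_assoc (T ^ (5 / 2 : ℝ)), ← mul_assoc (T ^ (-M - 1 / 2)), ← Real.rpow_add hT0,
      ← Real.rpow_add hT0]
    have e1 : T ^ ((5 / 2 : ℝ) + -3) ≤ T ^ (-(1 / 2) + κ) :=
      Real.rpow_le_rpow_of_exponent_le hT1 (by linarith)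
    have e3 : T ^ (-M - 1 / 2 + M) ≤ T ^ (-(1 / 2) + κ) :=
      Real.rpow_le_rpow_of_exponent_le hT1 (by linarith)
    calc K * (T ^ ((5 / 2 : ℝ) + -3) * Real.Gamma (a + -3) +
          T ^ (-(1 / 2) + κ) * Real.Gamma (a + (-(1 / 2) + κ)) + T ^ (-M - 1 / 2 + M) * Real.Gamma (a + M))
        ≤ K * (T ^ (-(1 / 2) + κ) * Real.Gamma (a + -3) +
          T ^ (-(1 / 2) + κ) * Real.Gamma (a + (-(1 / 2) + κ)) +
          T ^ (-(1 / 2) + κ) * Real.Gamma (a + M)) := by gcongr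
      _ = K * Γs * T ^ (-(1 / 2) + κ) := by rw [hΓ]; ring
  -- measurability
  have mff : Measurable ff := hcont.measurable
  have mW : Measurable (W a T) := W_meas a T
  -- the error
  set E : ℝ → ℂ := fun u => ((ff u : ℂ) - PX X u) + ((dg X u - D0 u : ℝ) : ℂ) with hEdef
  have hsplit : ∀ u, ((ff u - D0 u : ℝ) : ℂ) = od X u + E u := by
    intro u
    rw [hEdef]
    simp only
    rw [PX_eq]
    push_cast
    ring
  have mE : Measurable E := by
    have : E = fun u => ((ff u - D0 u : ℝ) : ℂ) - od X u := by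
      funext u; rw [hsplit]; ring
    rw [this]
    exact (Complex.measurable_ofReal.comp (mff.sub D0_meas)).sub (od_meas X)
  have hEB : ∀ u ∈ Ioi (0 : ℝ), W a T u * ‖E u‖ ≤ B u := by
    intro u hu
    have hu' : (0 : ℝ) < u := hu
    have hW := W_nonneg a T u hT0 hu'
    have h5 : ‖E u‖ ≤ ‖(ff u : ℂ) - PX X u‖ + |dg X u - D0 u| := by
      refine (norm_add_le _ _).trans ?_
      rw [norm_real, Real.norm_eq_abs]
    have h6 := h5.trans (hb u hu')
    calc W a T u * ‖E u‖ ≤ W a T u * (K * (T ^ (5 / 2 : ℝ) * u ^ (-3 : ℝ) + u ^ (-(1 / 2) + κ) +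
          T ^ (-M - 1 / 2) * u ^ M)) := by gcongr
      _ = B u := by rw [hB]; ring
  have iod : IntegrableOn (fun u => (W a T u : ℂ) * od X u) (Ioi 0) := by
    refine Integrable.mono' (i0.const_mul (2 * (X : ℝ) ^ 2)) ?_ ?_
    · exact ((Complex.measurable_ofReal.comp mW).mul (od_meas X)).aestronglyMeasurable
    · refine (ae_restrict_mem measurableSet_Ioi).mono fun u hu => ?_
      have hu' : (0 : ℝ) < u := hu
      have hW := W_nonneg a T u hT0 hu'
      rw [norm_mul, norm_real, Real.norm_eq_abs, abs_of_nonneg hW, Real.rpow_zero, mul_one, mul_comm]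
      exact mul_le_mul_of_nonneg_right (od_bd X u) hW
  have iE : IntegrableOn (fun u => (W a T u : ℂ) * E u) (Ioi 0) := by
    refine Integrable.mono' iB ?_ ?_
    · exact ((Complex.measurable_ofReal.comp mW).mul mE).aestronglyMeasurable
    · refine (ae_restrict_mem measurableSet_Ioi).mono fun u hu => ?_
      have hu' : (0 : ℝ) < u := hu
      have hW := W_nonneg a T u hT0 hu'
      rw [norm_mul, norm_real, Real.norm_eq_abs, abs_of_nonneg hW]
      exact hEB u hu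
  refine ⟨?_, fun τ => ?_⟩
  · have : IntegrableOn (fun u => ((W a T u * (ff u - D0 u) : ℝ) : ℂ)) (Ioi 0) := by
      refine (iod.add iE).congr (ae_of_all _ fun u => ?_)
      simp only [Pi.add_apply]
      rw [← mul_add, ← hsplit]
      push_cast
      ring
    have h8 := this.re
    exact h8
  · set e : ℝ → ℂ := fun u => cexp (-(I * ((τ * Real.log u : ℝ) : ℂ))) with he
    have hne : ∀ u, ‖e u‖ = 1 := by
      intro u
      rw [he]
      simp only
      rw [show -(I * ((τ * Real.log u : ℝ) : ℂ)) = ((-(τ * Real.log u) : ℝ) : ℂ) * I by push_cast; ring,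
        Complex.norm_exp_ofReal_mul_I]
    have me : Measurable e := by
      rw [he]
      have h7 : Measurable fun u : ℝ => ((τ * Real.log u : ℝ) : ℂ) :=
        Complex.measurable_ofReal.comp (Real.measurable_log.const_mul _)
      exact Complex.measurable_exp.comp (h7.const_mul I).neg
    have iode : IntegrableOn (fun u => (W a T u : ℂ) * od X u * e u) (Ioi 0) := by
      refine iod.mul_bdd (c := 1) me.aestronglyMeasurable (ae_of_all _ fun u => (hne u).le)
    have iEe : IntegrableOn (fun u => (W a T u : ℂ) * E u * e u) (Ioi 0) := by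
      refine iE.mul_bdd (c := 1) me.aestronglyMeasurable (ae_of_all _ fun u => (hne u).le)
    have hs : ∫ u in Ioi (0 : ℝ), ((W a T u * (ff u - D0 u) : ℝ) : ℂ) * e u =
        (∫ u in Ioi (0 : ℝ), (W a T u : ℂ) * od X u * e u) +
          ∫ u in Ioi (0 : ℝ), (W a T u : ℂ) * E u * e u := by
      rw [← integral_add iode iEe]
      refine integral_congr_ae (ae_of_all _ fun u => ?_)
      simp only
      rw [Complex.ofReal_mul, hsplit]
      ring
    rw [hs]
    have b1 : ‖∫ u in Ioi (0 : ℝ), (W a T u : ℂ) * od X u * e u‖ ≤ C₁ * T ^ (-δ) :=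
      hO T τ X hT hX1 hX2
    have b2 : ‖∫ u in Ioi (0 : ℝ), (W a T u : ℂ) * E u * e u‖ ≤ K * Γs * T ^ (-(1 / 2) + κ) := by
      refine (norm_integral_le_integral_norm _).trans (le_trans ?_ jB)
      refine setIntegral_mono_on iEe.norm iB measurableSet_Ioi fun u hu => ?_
      have hu' : (0 : ℝ) < u := hu
      have hW := W_nonneg a T u hT0 hu'
      rw [norm_mul, hne, mul_one, norm_mul, norm_real, Real.norm_eq_abs, abs_of_nonneg hW]
      exact hEB u hu
    have c1 : T ^ (-δ) ≤ T ^ (-(min δ (1 / 4))) :=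
      Real.rpow_le_rpow_of_exponent_le hT1 (neg_le_neg (min_le_left _ _))
    have c2 : T ^ (-(1 / 2) + κ) ≤ T ^ (-(min δ (1 / 4))) := by
      apply Real.rpow_le_rpow_of_exponent_le hT1
      have := min_le_right δ (1 / 4)
      linarith
    calc _ ≤ C₁ * T ^ (-δ) + K * Γs * T ^ (-(1 / 2) + κ) := (norm_add_le _ _).trans (add_le_add b1 b2)
      _ ≤ C₁ * T ^ (-(min δ (1 / 4))) + K * Γs * T ^ (-(min δ (1 / 4))) := by gcongr
      _ = (C₁ + K * Γs) * T ^ (-(min δ (1 / 4))) := by ring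

end Pool.Agent.Helper30K1.GD
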