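import Pool.Agent.N879.GD.Stm

/-!
# The Mellin transform of `ff - D0` with smooth compactly supported weights
-/

set_option autoImplicit false

namespace Pool.Agent.Helper30K1.GD

open Complex Filter Topology MeasureTheory Set
open Pool.Agent.Y969.GP (ff V ht lam PS co PX)
open Pool.Agent.N879.GD
open scoped FourierTransform

noncomputable section

/-- a smooth compactly supported function on the line is the Fourier integral of an integrable
continuous function -/
theorem LEW_four (h : ℝ → ℂ) (h1 : HasCompactSupport h) (h2 : ContDiff ℝ (⊤ : ℕ∞) h) :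
    ∃ H : ℝ → ℂ, Continuous H ∧ Integrable H ∧
      ∀ x : ℝ, h x = ∫ y : ℝ, H y * cexp (I * ((2 * Real.pi * y * x : ℝ) : ℂ)) := by
  set g : SchwartzMap ℝ ℂ := h1.toSchwartzMap h2 with hg
  have hgh : (g : ℝ → ℂ) = h := by
    ext x
    simp [hg]
  refine ⟨𝓕 (g : ℝ → ℂ), ?_, ?_, fun x => ?_⟩
  · have := (𝓕 g : SchwartzMap ℝ ℂ).continuous
    rwa [SchwartzMap.fourier_coe] at this
  · have := (𝓕 g : SchwartzMap ℝ ℂ).integrable (μ := volume)
    rwa [SchwartzMap.fourier_coe] at this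
  · have hi : Integrable (𝓕 (g : ℝ → ℂ)) := by
      have := (𝓕 g : SchwartzMap ℝ ℂ).integrable (μ := volume)
      rwa [SchwartzMap.fourier_coe] at this
    have h3 := g.continuous.fourierInv_fourier_eq (g.integrable (μ := volume)) hi
    have h4 := congrFun h3 x
    rw [Real.fourierInv_eq'] at h4
    rw [← hgh, ← h4]
    refine integral_congr_ae (Filter.Eventually.of_forall fun y => ?_)
    simp only [smul_eq_mul, RCLike.inner_apply, conj_trivial]
    rw [mul_comm]
    congr 2
    push_cast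
    ring

/-- the weight as a function of the logarithm -/
def LEW_h (w : ℝ → ℝ) (a : ℝ) (x : ℝ) : ℂ :=
  ((w (Real.exp x) * (Real.exp (-(a * x)) * Real.exp (Real.exp x)) : ℝ) : ℂ)

theorem LEW_h_smooth (w : ℝ → ℝ) (a : ℝ) (hw : ContDiff ℝ (⊤ : ℕ∞) w) :
    ContDiff ℝ (⊤ : ℕ∞) (LEW_h w a) := by
  unfold LEW_h
  refine Complex.ofRealCLM.contDiff.comp ?_
  refine (hw.comp Real.contDiff_exp).mul (ContDiff.mul ?_ ?_)
  · exact Real.contDiff_exp.comp (contDiff_const.mul contDiff_id).neg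
  · exact Real.contDiff_exp.comp Real.contDiff_exp

theorem LEW_h_supp (w : ℝ → ℝ) (a : ℝ) (hc : HasCompactSupport w)
    (hs : tsupport w ⊆ Ioi 0) : HasCompactSupport (LEW_h w a) := by
  have hK : IsCompact (Real.log '' tsupport w) := by
    refine hc.isCompact.image_of_continuousOn ?_
    exact Real.continuousOn_log.mono fun x hx => (ne_of_gt (hs hx))
  refine HasCompactSupport.intro hK fun x hx => ?_
  have : Real.exp x ∉ tsupport w := fun h => hx ⟨_, h, Real.log_exp x⟩
  unfold LEW_h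
  rw [image_eq_zero_of_notMem_tsupport this]
  simp

theorem LEW_h_eq (w : ℝ → ℝ) (a T u D : ℝ) (hT : 0 < T) (hu : 0 < u) :
    ((w (u / T) * D / u : ℝ) : ℂ) =
      ((W a T u * D : ℝ) : ℂ) * LEW_h w a (Real.log u - Real.log T) := by
  unfold LEW_h W
  rw [← Complex.ofReal_mul]
  congr 1
  have h1 : Real.exp (Real.log u - Real.log T) = u / T := by
    rw [Real.exp_sub, Real.exp_log hu, Real.exp_log hT]
  have h2 : (u / T) ^ a * Real.exp (-(a * (Real.log u - Real.log T))) = 1 := by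
    rw [Real.rpow_def_of_pos (by positivity), ← Real.exp_add, Real.log_div hu.ne' hT.ne']
    rw [← Real.exp_zero]
    congr 1
    ring
  have h3 : Real.exp (-(u / T)) * Real.exp (u / T) = 1 := by
    rw [← Real.exp_add, neg_add_cancel, Real.exp_zero]
  rw [h1]
  calc w (u / T) * D / u = w (u / T) * D / u *
        ((u / T) ^ a * Real.exp (-(a * (Real.log u - Real.log T)))) *
        (Real.exp (-(u / T)) * Real.exp (u / T)) := by rw [h2, h3]; ring
    _ = _ := by ring

theorem t_LEW (h : S_LEM) : S_LEW := by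
  obtain ⟨a, δ, ha, hδ0, hδ1, C, T₀, hC, hT₀, H⟩ := h
  refine ⟨δ, hδ0, hδ1, fun w hw hwc hws => ?_⟩
  obtain ⟨G, hGc, hGi, hG⟩ := LEW_four (LEW_h w a) (LEW_h_supp w a hwc hws) (LEW_h_smooth w a hw)
  refine ⟨C * ((∫ y, ‖G y‖) + 1), T₀, ?_, hT₀, fun T τ hT => ?_⟩
  · have : 0 ≤ ∫ y, ‖G y‖ := integral_nonneg fun y => norm_nonneg _
    positivity
  obtain ⟨hF, hb⟩ := H T hT
  have hTpos : 0 < T := by linarith
  set F : ℝ → ℂ := fun u => ((W a T u * (ff u - D0 u) : ℝ) : ℂ) with hFdef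
  have hFi : Integrable F (volume.restrict (Ioi 0)) := hF.ofReal
  -- the joint integrand
  set J : ℝ → ℝ → ℂ := fun u y => (F u * G y) *
    (cexp (-(I * ((τ * Real.log u : ℝ) : ℂ))) *
      cexp (I * ((2 * Real.pi * y * (Real.log u - Real.log T) : ℝ) : ℂ))) with hJ
  have hJi : Integrable (Function.uncurry J) ((volume.restrict (Ioi 0)).prod volume) := by
    have h1 : Integrable (fun z : ℝ × ℝ => F z.1 * G z.2)
        ((volume.restrict (Ioi 0)).prod volume) := hFi.mul_prod hGi
    refine h1.mul_bdd (c := 1) ?_ ?_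
    · refine Measurable.aestronglyMeasurable ?_
      have hl : Measurable fun z : ℝ × ℝ => Real.log z.1 := Real.measurable_log.comp measurable_fst
      fun_prop
    · refine Filter.Eventually.of_forall fun z => ?_
      rw [norm_mul]
      have e1 : ‖cexp (-(I * ((τ * Real.log z.1 : ℝ) : ℂ)))‖ = 1 := by
        rw [← mul_neg, ← Complex.ofReal_neg, mul_comm, Complex.norm_exp_ofReal_mul_I]
      have e2 : ‖cexp (I * ((2 * Real.pi * z.2 * (Real.log z.1 - Real.log T) : ℝ) : ℂ))‖ = 1 := by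
        rw [mul_comm, Complex.norm_exp_ofReal_mul_I]
      rw [e1, e2, one_mul]
  have hmain : ∫ u in Ioi (0 : ℝ), ((w (u / T) * (ff u - D0 u) / u : ℝ) : ℂ) *
      cexp (-(I * ((τ * Real.log u : ℝ) : ℂ))) = ∫ u in Ioi (0 : ℝ), ∫ y, J u y := by
    refine setIntegral_congr_fun measurableSet_Ioi fun u hu => ?_
    rw [mem_Ioi] at hu
    simp only [hJ]
    rw [LEW_h_eq w a T u _ hTpos hu, hG]
    have e3 : ∀ y : ℝ, (F u * G y) * (cexp (-(I * ((τ * Real.log u : ℝ) : ℂ))) *
        cexp (I * ((2 * Real.pi * y * (Real.log u - Real.log T) : ℝ) : ℂ))) =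
        (F u * cexp (-(I * ((τ * Real.log u : ℝ) : ℂ)))) *
        (G y * cexp (I * ((2 * Real.pi * y * (Real.log u - Real.log T) : ℝ) : ℂ))) := fun y => by
      ring
    simp only [e3]
    rw [integral_const_mul]
    simp only [hFdef]
    ring
  rw [hmain, integral_integral_swap hJi]
  have hin : ∀ y : ℝ, ‖∫ u in Ioi (0 : ℝ), J u y‖ ≤ ‖G y‖ * (C * T ^ (-δ)) := by
    intro y
    have e4 : ∫ u in Ioi (0 : ℝ), J u y = (G y * cexp (I * ((-(2 * Real.pi * y * Real.log T) : ℝ) : ℂ))) *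
        ∫ u in Ioi (0 : ℝ), ((W a T u * (ff u - D0 u) : ℝ) : ℂ) *
          cexp (-(I * (((τ - 2 * Real.pi * y) * Real.log u : ℝ) : ℂ))) := by
      rw [← integral_const_mul]
      refine integral_congr_ae (Filter.Eventually.of_forall fun u => ?_)
      simp only [hJ, hFdef]
      have e5 : cexp (-(I * ((τ * Real.log u : ℝ) : ℂ))) *
          cexp (I * ((2 * Real.pi * y * (Real.log u - Real.log T) : ℝ) : ℂ)) =
          cexp (I * ((-(2 * Real.pi * y * Real.log T) : ℝ) : ℂ)) *
          cexp (-(I * (((τ - 2 * Real.pi * y) * Real.log u : ℝ) : ℂ))) := by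
        rw [← Complex.exp_add, ← Complex.exp_add]
        congr 1
        push_cast
        ring
      rw [e5]
      ring
    rw [e4, norm_mul, norm_mul]
    have e6 : ‖cexp (I * ((-(2 * Real.pi * y * Real.log T) : ℝ) : ℂ))‖ = 1 := by
      rw [mul_comm, Complex.norm_exp_ofReal_mul_I]
    rw [e6, mul_one]
    exact mul_le_mul_of_nonneg_left (hb _) (norm_nonneg _)
  calc ‖∫ y, ∫ u in Ioi (0 : ℝ), J u y‖ ≤ ∫ y, ‖G y‖ * (C * T ^ (-δ)) :=
        norm_integral_le_of_norm_le (hGi.norm.mul_const _) (Filter.Eventually.of_forall hin)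
    _ = (∫ y, ‖G y‖) * (C * T ^ (-δ)) := integral_mul_const _ _
    _ ≤ C * ((∫ y, ‖G y‖) + 1) * T ^ (-δ) := by
        have : 0 ≤ C * T ^ (-δ) := by positivity
        nlinarith

end

end Pool.Agent.Helper30K1.GD
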