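import Mathlib

/-!
PIECE LL, part 1: the derivatives of `log log (1 + t/m)`.
-/

set_option autoImplicit false

open Polynomial

namespace Pool.Agent.Helper30K1.GD

/-- the polynomials of the derivatives -/
noncomputable def QL : ℕ → ℝ[X]
  | 0 => X
  | n + 1 => C ((n : ℝ) + 1) * QL n + X ^ 2 * derivative (QL n)

lemma QL_coeff_succ (n i : ℕ) : (QL (n + 1)).coeff i
    = ((n : ℝ) + 1) * (QL n).coeff i + if 2 ≤ i then (QL n).coeff (i - 1) * ((i : ℝ) - 1) else 0 := by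
  rw [QL, coeff_add, coeff_C_mul, coeff_X_pow_mul']
  congr 1
  split_ifs with h
  · rw [coeff_derivative]
    obtain ⟨j, rfl⟩ := Nat.exists_eq_add_of_le h
    have h1 : 2 + j - 2 = j := by omega
    have h2 : 2 + j - 1 = j + 1 := by omega
    rw [h1, h2]
    push_cast
    ring
  · rfl

lemma QL_nonneg (n i : ℕ) : 0 ≤ (QL n).coeff i := by
  induction n generalizing i with
  | zero => rw [QL, coeff_X]; split_ifs <;> norm_num
  | succ n ih =>
    rw [QL_coeff_succ]
    have h1 := ih i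
    have h2 := ih (i - 1)
    split_ifs with h
    · have h3 : (2 : ℝ) ≤ i := by exact_mod_cast h
      have h4 : (0 : ℝ) ≤ (i : ℝ) - 1 := by linarith
      positivity
    · positivity

lemma QL_zero (n : ℕ) : (QL n).coeff 0 = 0 := by
  induction n with
  | zero => simp [QL]
  | succ n ih => rw [QL_coeff_succ, ih]; simp

lemma QL_one (n : ℕ) : 1 ≤ (QL n).coeff 1 := by
  induction n with
  | zero => simp [QL]
  | succ n ih =>
    rw [QL_coeff_succ]
    have h1 : (0 : ℝ) ≤ n := Nat.cast_nonneg n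
    simp only [show ¬ (2 ≤ 1) by omega, if_false, add_zero]
    nlinarith

lemma QL_top (n : ℕ) : 1 ≤ (QL n).coeff (n + 1) := by
  induction n with
  | zero => simp [QL]
  | succ n ih =>
    rw [QL_coeff_succ]
    have h1 : (0 : ℝ) ≤ n := Nat.cast_nonneg n
    have h2 := QL_nonneg n (n + 1 + 1)
    simp only [show 2 ≤ n + 1 + 1 by omega, if_true, show n + 1 + 1 - 1 = n + 1 by omega]
    push_cast
    nlinarith

lemma QL_big (n i : ℕ) (h : n + 1 < i) : (QL n).coeff i = 0 := by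
  induction n generalizing i with
  | zero => rw [QL, coeff_X]; rw [if_neg (by omega)]
  | succ n ih =>
    rw [QL_coeff_succ, ih i (by omega), ih (i - 1) (by omega)]
    simp

lemma QL_deg (n : ℕ) : (QL n).natDegree < n + 2 := by
  rw [Nat.lt_succ_iff, natDegree_le_iff_coeff_eq_zero]
  intro i hi
  exact QL_big n i hi

lemma QL_eval (n : ℕ) (x : ℝ) : (QL n).eval x = ∑ i ∈ Finset.range (n + 2), (QL n).coeff i * x ^ i :=
  eval_eq_sum_range' (QL_deg n) x

lemma QL_lower1 (n : ℕ) (x : ℝ) (hx : 0 ≤ x) : x ≤ (QL n).eval x := by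
  rw [QL_eval]
  have h1 : (QL n).coeff 1 * x ^ 1 ≤ ∑ i ∈ Finset.range (n + 2), (QL n).coeff i * x ^ i :=
    Finset.single_le_sum (f := fun i => (QL n).coeff i * x ^ i)
      (fun i _ => mul_nonneg (QL_nonneg n i) (pow_nonneg hx i)) (Finset.mem_range.mpr (by omega))
  have h2 := QL_one n
  nlinarith

lemma QL_lower2 (n : ℕ) (x : ℝ) (hx : 0 ≤ x) : x ^ (n + 1) ≤ (QL n).eval x := by
  rw [QL_eval]
  have h1 : (QL n).coeff (n + 1) * x ^ (n + 1)
      ≤ ∑ i ∈ Finset.range (n + 2), (QL n).coeff i * x ^ i :=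
    Finset.single_le_sum (f := fun i => (QL n).coeff i * x ^ i)
      (fun i _ => mul_nonneg (QL_nonneg n i) (pow_nonneg hx i)) (Finset.mem_range.mpr (by omega))
  have h2 := QL_top n
  have h3 : 0 ≤ x ^ (n + 1) := pow_nonneg hx _
  nlinarith

/-- the sum of the coefficients -/
noncomputable def BL (n : ℕ) : ℝ := ∑ i ∈ Finset.range (n + 2), (QL n).coeff i

lemma BL_nonneg (n : ℕ) : 0 ≤ BL n := Finset.sum_nonneg fun i _ => QL_nonneg n i

lemma QL_upper (n : ℕ) (x : ℝ) (hx : 0 ≤ x) : (QL n).eval x ≤ BL n * (x + x ^ (n + 1)) := by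
  rw [QL_eval, BL, Finset.sum_mul]
  refine Finset.sum_le_sum fun i hi => ?_
  have hi' := Finset.mem_range.mp hi
  by_cases h0 : i = 0
  · subst h0
    rw [QL_zero]
    simp
  · refine mul_le_mul_of_nonneg_left ?_ (QL_nonneg n i)
    have h3 : 0 ≤ x ^ (n + 1) := pow_nonneg hx _
    rcases le_total x 1 with h | h
    · have : x ^ i ≤ x ^ 1 := pow_le_pow_of_le_one hx h (by omega)
      rw [pow_one] at this
      linarith
    · have : x ^ i ≤ x ^ (n + 1) := pow_le_pow_right₀ h (by omega)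
      linarith

/-- the derivatives of `log log (1 + t/m)` -/
noncomputable def gL (m : ℕ) : ℕ → ℝ → ℝ
  | 0, t => Real.log (Real.log (1 + t / m))
  | n + 1, t => (-1) ^ n * (((m : ℝ) + t)⁻¹) ^ (n + 1) * (QL n).eval ((Real.log (1 + t / m))⁻¹)

lemma log_pos' {m : ℕ} (hm : 1 ≤ m) {t : ℝ} (ht : 0 < t) : 0 < Real.log (1 + t / m) := by
  apply Real.log_pos
  have : (0 : ℝ) < m := by exact_mod_cast hm
  have : 0 < t / m := by positivity
  linarith

lemma hasDeriv_l {m : ℕ} (hm : 1 ≤ m) {t : ℝ} (ht : 0 < t) :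
    HasDerivAt (fun t : ℝ => Real.log (1 + t / m)) (((m : ℝ) + t)⁻¹) t := by
  have hm' : (0 : ℝ) < m := by exact_mod_cast hm
  have h1 : HasDerivAt (fun t : ℝ => 1 + t / (m : ℝ)) (1 / (m : ℝ)) t :=
    ((hasDerivAt_id t).div_const (m : ℝ)).const_add 1
  have h2 : (1 + t / (m : ℝ)) ≠ 0 := by positivity
  have h3 := h1.log h2
  have h4 : 1 / (m : ℝ) / (1 + t / m) = ((m : ℝ) + t)⁻¹ := by
    field_simp
  rwa [h4] at h3

lemma gL_deriv {m : ℕ} (hm : 1 ≤ m) (j : ℕ) {t : ℝ} (ht : 0 < t) :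
    HasDerivAt (gL m j) (gL m (j + 1) t) t := by
  have hm' : (0 : ℝ) < m := by exact_mod_cast hm
  have hl := log_pos' hm ht
  have hd := hasDeriv_l hm ht
  cases j with
  | zero =>
    have h1 := hd.log hl.ne'
    have h2 : gL m (0 + 1) t = ((m : ℝ) + t)⁻¹ / Real.log (1 + t / m) := by
      simp [gL, QL]
      ring
    rw [h2]
    exact h1
  | succ n =>
    have hs : HasDerivAt (fun t : ℝ => ((m : ℝ) + t)⁻¹) (-(((m : ℝ) + t)⁻¹ ^ 2)) t := by
      have h1 : HasDerivAt (fun t : ℝ => (m : ℝ) + t) 1 t := (hasDerivAt_id t).const_add _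
      have h2 := h1.inv (by positivity : ((m : ℝ) + t) ≠ 0)
      refine h2.congr_deriv ?_
      field_simp
    have hs2 : HasDerivAt (fun t : ℝ => (((m : ℝ) + t)⁻¹) ^ (n + 1))
        (((n + 1 : ℕ) : ℝ) * (((m : ℝ) + t)⁻¹) ^ n * (-(((m : ℝ) + t)⁻¹ ^ 2))) t := by
      have := hs.pow (n + 1)
      rw [Nat.add_sub_cancel] at this
      exact this
    have hli : HasDerivAt (fun t : ℝ => (Real.log (1 + t / m))⁻¹)
        (-(((m : ℝ) + t)⁻¹) * (Real.log (1 + t / m))⁻¹ ^ 2) t := by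
      refine (hd.inv hl.ne').congr_deriv ?_
      rw [div_eq_mul_inv, inv_pow]
    have hq : HasDerivAt (fun t : ℝ => (QL n).eval ((Real.log (1 + t / m))⁻¹))
        ((derivative (QL n)).eval ((Real.log (1 + t / m))⁻¹) *
          (-(((m : ℝ) + t)⁻¹) * (Real.log (1 + t / m))⁻¹ ^ 2)) t := by
      have h0 := (QL n).hasDerivAt ((Real.log (1 + t / m))⁻¹)
      exact HasDerivAt.comp (h₂ := fun x => (QL n).eval x)
        (h := fun t : ℝ => (Real.log (1 + t / m))⁻¹) t h0 hli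
    have h3 : HasDerivAt (fun t : ℝ => ((-1 : ℝ) ^ n * (((m : ℝ) + t)⁻¹) ^ (n + 1)) *
        (QL n).eval ((Real.log (1 + t / m))⁻¹))
        (((-1 : ℝ) ^ n * (((n + 1 : ℕ) : ℝ) * (((m : ℝ) + t)⁻¹) ^ n * (-(((m : ℝ) + t)⁻¹ ^ 2)))) *
          (QL n).eval ((Real.log (1 + t / m))⁻¹) +
          ((-1 : ℝ) ^ n * (((m : ℝ) + t)⁻¹) ^ (n + 1)) *
          ((derivative (QL n)).eval ((Real.log (1 + t / m))⁻¹) *
          (-(((m : ℝ) + t)⁻¹) * (Real.log (1 + t / m))⁻¹ ^ 2))) t :=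
      (hs2.const_mul ((-1 : ℝ) ^ n)).mul hq
    have h4 : gL m (n + 1) = fun t => ((-1) ^ n * (((m : ℝ) + t)⁻¹) ^ (n + 1)) *
      (QL n).eval ((Real.log (1 + t / m))⁻¹) := rfl
    rw [h4]
    refine h3.congr_deriv ?_
    simp only [gL, QL, eval_add, eval_mul, eval_C, eval_pow, eval_X]
    generalize (((m : ℝ) + t)⁻¹) = σ
    generalize (Real.log (1 + t / m))⁻¹ = l
    push_cast
    ring

end Pool.Agent.Helper30K1.GD
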