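import Mathlib
import Pool.Agent.N879.GD.Stm
import Pool.Agent.H221R2.FB_VdcGen
import Pool.Agent.Helper30K1.GD.LLa

/-!
PIECE LL: van der Corput's method for the phase `ω log log (1+t/m)`.
-/

set_option autoImplicit false

open Polynomial

namespace Pool.Agent.Helper30K1.GD

open Pool.Agent.N879.GD

lemma rho_le (m R : ℕ) (hm : 1 ≤ m) (hR : 1 ≤ R) :
    (R : ℝ) / (m + R) * (Real.log (1 + (R : ℝ) / m))⁻¹ ≤ 1 := by
  have hm' : (0 : ℝ) < m := by exact_mod_cast hm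
  have hR' : (0 : ℝ) < R := by exact_mod_cast hR
  have hl := log_pos' hm hR'
  have h1 := Real.one_sub_inv_le_log_of_pos (show (0 : ℝ) < 1 + (R : ℝ) / m by positivity)
  have h2 : 1 - (1 + (R : ℝ) / m)⁻¹ = (R : ℝ) / (m + R) := by field_simp; ring
  rw [h2] at h1
  rw [← div_eq_mul_inv, div_le_one hl]
  exact h1

lemma lin3 (x : ℝ) (hx : 0 ≤ x) : Real.log (1 + 3 * x) ≤ 3 * Real.log (1 + x) := by
  have h1 : 3 * Real.log (1 + x) = Real.log ((1 + x) ^ 3) := by
    rw [Real.log_pow]; norm_num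
  rw [h1]
  apply Real.log_le_log (by positivity)
  nlinarith [pow_nonneg hx 2, pow_nonneg hx 3]

lemma lam_bd (m R : ℕ) (hm : 1 ≤ m) (hR : 1 ≤ R) (t : ℝ) (h1 : (R : ℝ) ≤ t) (h2 : t ≤ 3 * R) :
    (Real.log (1 + (R : ℝ) / m))⁻¹ / 3 ≤ (Real.log (1 + t / m))⁻¹ ∧
      (Real.log (1 + t / m))⁻¹ ≤ (Real.log (1 + (R : ℝ) / m))⁻¹ := by
  have hm' : (0 : ℝ) < m := by exact_mod_cast hm
  have hR' : (0 : ℝ) < R := by exact_mod_cast hR
  have hl := log_pos' hm hR'
  have ht : 0 < t := lt_of_lt_of_le hR' h1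
  have hlt := log_pos' hm ht
  have h3 : Real.log (1 + (R : ℝ) / m) ≤ Real.log (1 + t / m) := by
    apply Real.log_le_log (by positivity)
    gcongr
  have h4 : Real.log (1 + t / m) ≤ 3 * Real.log (1 + (R : ℝ) / m) := by
    refine le_trans ?_ (lin3 _ (by positivity))
    apply Real.log_le_log (by positivity)
    have : 3 * ((R : ℝ) / m) = (3 * R) / m := by ring
    rw [this]
    gcongr
  constructor
  · rw [div_le_iff₀ (by norm_num), inv_le_iff_one_le_mul₀ hl]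
    have h5 : (Real.log (1 + t / m))⁻¹ * Real.log (1 + t / m) = 1 := inv_mul_cancel₀ hlt.ne'
    have h6 : (Real.log (1 + t / m))⁻¹ * Real.log (1 + t / m)
        ≤ (Real.log (1 + t / m))⁻¹ * (3 * Real.log (1 + (R : ℝ) / m)) :=
      mul_le_mul_of_nonneg_left h4 (inv_nonneg.mpr hlt.le)
    linarith
  · exact inv_anti₀ hl h3

lemma sig_bd (m R : ℕ) (hm : 1 ≤ m) (hR : 1 ≤ R) (t : ℝ) (h1 : (R : ℝ) ≤ t) (h2 : t ≤ 3 * R) :
    (R : ℝ) / (m + R) / 3 ≤ ((m : ℝ) + t)⁻¹ * R ∧ ((m : ℝ) + t)⁻¹ * R ≤ (R : ℝ) / (m + R) := by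
  have hm' : (0 : ℝ) < m := by exact_mod_cast hm
  have hR' : (0 : ℝ) < R := by exact_mod_cast hR
  have ht : 0 < t := lt_of_lt_of_le hR' h1
  constructor
  · rw [inv_mul_eq_div, div_div]
    apply div_le_div_of_nonneg_left hR'.le (by positivity)
    linarith
  · rw [inv_mul_eq_div]
    apply div_le_div_of_nonneg_left hR'.le (by positivity)
    linarith

lemma main_bd (m R : ℕ) (hm : 1 ≤ m) (hR : 1 ≤ R) (n : ℕ) (t : ℝ) (h1 : (R : ℝ) ≤ t)
    (h2 : t ≤ 3 * R) :
    (1 / 18 : ℝ) ^ (n + 1) ≤ (-1) ^ (n + 1 + 1) * (gL m (n + 1) t / kap m R) * (R : ℝ) ^ (n + 1) ∧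
      (-1) ^ (n + 1 + 1) * (gL m (n + 1) t / kap m R) * (R : ℝ) ^ (n + 1) ≤ 2 * BL n := by
  have hm' : (0 : ℝ) < m := by exact_mod_cast hm
  have hR' : (0 : ℝ) < R := by exact_mod_cast hR
  have hl := log_pos' hm hR'
  obtain ⟨a1, a2⟩ := sig_bd m R hm hR t h1 h2
  obtain ⟨b1, b2⟩ := lam_bd m R hm hR t h1 h2
  have hr := rho_le m R hm hR
  have hk : kap m R = (R : ℝ) / (m + R) * (Real.log (1 + (R : ℝ) / m))⁻¹ := by
    rw [kap, div_eq_mul_inv]
  have hcase : (1 / 2 : ℝ) ≤ (R : ℝ) / (m + R) ∨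
      (1 / 2 : ℝ) ≤ (R : ℝ) / (m + R) * (Real.log (1 + (R : ℝ) / m))⁻¹ := by
    rcases le_total (m : ℝ) R with h | h
    · left
      rw [div_le_div_iff₀ (by norm_num) (by positivity)]
      linarith
    · right
      have h3 : Real.log (1 + (R : ℝ) / m) ≤ (R : ℝ) / m := by
        have := Real.log_le_sub_one_of_pos (show (0 : ℝ) < 1 + (R : ℝ) / m by positivity)
        linarith
      rw [← div_eq_mul_inv, le_div_iff₀ hl]
      refine (mul_le_mul_of_nonneg_left h3 (by norm_num)).trans ?_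
      rw [div_mul_div_comm, one_mul, div_le_div_iff₀ (by positivity) (by positivity)]
      nlinarith
  have hval : (-1) ^ (n + 1 + 1) * (gL m (n + 1) t / kap m R) * (R : ℝ) ^ (n + 1)
      = (((m : ℝ) + t)⁻¹ * R) ^ (n + 1) * (QL n).eval ((Real.log (1 + t / m))⁻¹) /
        ((R : ℝ) / (m + R) * (Real.log (1 + (R : ℝ) / m))⁻¹) := by
    rw [← hk]
    have h3 : ((-1 : ℝ)) ^ (n + 1 + 1) * (-1) ^ n = 1 := by
      rw [← pow_add]
      exact Even.neg_one_pow ⟨n + 1, by ring⟩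
    calc (-1) ^ (n + 1 + 1) * (gL m (n + 1) t / kap m R) * (R : ℝ) ^ (n + 1)
        = (((-1 : ℝ)) ^ (n + 1 + 1) * (-1) ^ n) * ((((m : ℝ) + t)⁻¹ * R) ^ (n + 1) *
          (QL n).eval ((Real.log (1 + t / m))⁻¹) / kap m R) := by
          simp only [gL]
          rw [mul_pow]
          ring
      _ = _ := by rw [h3, one_mul]
  rw [hval]
  have hρ : 0 < (R : ℝ) / (m + R) := by positivity
  have hρ1 : (R : ℝ) / (m + R) ≤ 1 := by
    rw [div_le_one (by positivity)]
    linarith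
  have hlm : 0 < (Real.log (1 + (R : ℝ) / m))⁻¹ := inv_pos.mpr hl
  generalize (R : ℝ) / (m + R) = ρ at *
  generalize (Real.log (1 + (R : ℝ) / m))⁻¹ = l at *
  generalize ((m : ℝ) + t)⁻¹ * R = a at *
  generalize (Real.log (1 + t / m))⁻¹ = x at *
  have ha : 0 < a := lt_of_lt_of_le (by positivity) a1
  have hx : 0 < x := lt_of_lt_of_le (by positivity) b1
  have hρl : 0 < ρ * l := by positivity
  have hB := BL_nonneg n
  constructor
  · rw [le_div_iff₀ hρl]
    have c1 : (ρ / 3) ^ (n + 1) ≤ a ^ (n + 1) := pow_le_pow_left₀ (by positivity) a1 _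
    rcases hcase with h | h
    · have c2 := QL_lower1 n x hx.le
      have c3 : l / 3 ≤ (QL n).eval x := b1.trans c2
      have c4 : (ρ / 3) ^ (n + 1) * (l / 3) ≤ a ^ (n + 1) * (QL n).eval x :=
        mul_le_mul c1 c3 (by positivity) (by positivity)
      refine le_trans ?_ c4
      have c5 : (1 / 2 : ℝ) ^ n ≤ ρ ^ n := pow_le_pow_left₀ (by norm_num) h n
      have c6 : (ρ / 3) ^ (n + 1) * (l / 3) = (1 / 3) ^ (n + 2) * ρ ^ n * (ρ * l) := by
        rw [div_pow, pow_succ ρ n, pow_succ (1 / 3 : ℝ) (n + 1), div_pow, one_pow]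
        ring
      rw [c6]
      refine mul_le_mul_of_nonneg_right ?_ hρl.le
      refine le_trans ?_ (mul_le_mul_of_nonneg_left c5 (by positivity))
      have c7 : (1 / 3 : ℝ) ^ (n + 2) * (1 / 2) ^ n = (1 / 9) * (1 / 6) ^ n := by
        rw [pow_add, show (1 / 6 : ℝ) = (1 / 3) * (1 / 2) by norm_num, mul_pow]
        ring
      rw [c7, pow_succ, mul_comm]
      have c8 : (1 / 18 : ℝ) ^ n ≤ (1 / 6) ^ n := pow_le_pow_left₀ (by norm_num) (by norm_num) n
      have c9 : (0 : ℝ) ≤ (1 / 6) ^ n := by positivity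
      nlinarith
    · have c2 := QL_lower2 n x hx.le
      have c3 : (l / 3) ^ (n + 1) ≤ (QL n).eval x :=
        (pow_le_pow_left₀ (by positivity) b1 _).trans c2
      have c4 : (ρ / 3) ^ (n + 1) * (l / 3) ^ (n + 1) ≤ a ^ (n + 1) * (QL n).eval x :=
        mul_le_mul c1 c3 (by positivity) (by positivity)
      refine le_trans ?_ c4
      have c5 : (1 / 2 : ℝ) ^ n ≤ (ρ * l) ^ n := pow_le_pow_left₀ (by norm_num) h n
      have c6 : (ρ / 3) ^ (n + 1) * (l / 3) ^ (n + 1) = (1 / 9) ^ (n + 1) * (ρ * l) ^ n * (ρ * l) := by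
        rw [← mul_pow, mul_assoc, ← pow_succ (ρ * l) n, ← mul_pow]
        congr 1
        ring
      rw [c6]
      refine mul_le_mul_of_nonneg_right ?_ hρl.le
      refine le_trans ?_ (mul_le_mul_of_nonneg_left c5 (by positivity))
      have c7 : (1 / 9 : ℝ) ^ (n + 1) * (1 / 2) ^ n = (1 / 9) * (1 / 18) ^ n := by
        rw [pow_succ, show (1 / 18 : ℝ) = (1 / 9) * (1 / 2) by norm_num, mul_pow]
        ring
      rw [c7, pow_succ, mul_comm]
      have c9 : (0 : ℝ) ≤ (1 / 18) ^ n := by positivity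
      nlinarith
  · rw [div_le_iff₀ hρl]
    have c1 : a ^ (n + 1) ≤ ρ ^ (n + 1) := pow_le_pow_left₀ ha.le a2 _
    have c2 := QL_upper n x hx.le
    have c3 : x ^ (n + 1) ≤ l ^ (n + 1) := pow_le_pow_left₀ hx.le b2 _
    have c4 : (QL n).eval x ≤ BL n * (l + l ^ (n + 1)) :=
      c2.trans (mul_le_mul_of_nonneg_left (by linarith) hB)
    have c0 : 0 ≤ (QL n).eval x := hx.le.trans (QL_lower1 n x hx.le)
    have c5 : a ^ (n + 1) * (QL n).eval x ≤ ρ ^ (n + 1) * (BL n * (l + l ^ (n + 1))) :=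
      mul_le_mul c1 c4 c0 (by positivity)
    refine c5.trans ?_
    have c6 : ρ ^ (n + 1) * (BL n * (l + l ^ (n + 1))) = BL n * (ρ ^ n + (ρ * l) ^ n) * (ρ * l) := by
      rw [mul_pow]
      ring
    rw [c6]
    refine mul_le_mul_of_nonneg_right ?_ hρl.le
    have c7 : ρ ^ n ≤ 1 := pow_le_one₀ hρ.le hρ1
    have c8 : (ρ * l) ^ n ≤ 1 := pow_le_one₀ hρl.le hr
    nlinarith

theorem t_LL : S_LL := by
  obtain ⟨η, hη0, hη1, C, hC, h⟩ := Pool.Agent.H221R2.FB.vdc_gen 5 ((1 / 18 : ℝ) ^ 9)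
    (∑ i ∈ Finset.range 9, 2 * BL i) (by positivity)
  refine ⟨η, hη0, hη1, C * (2 * Real.pi), by positivity, ?_⟩
  intro m R L u ω hm hR hu hL huL hω1 hω2
  have hm' : (0 : ℝ) < m := by exact_mod_cast hm
  have hR' : (0 : ℝ) < R := by exact_mod_cast hR
  have hR1 : (1 : ℝ) ≤ R := by exact_mod_cast hR
  have hl := log_pos' hm hR'
  have hk : 0 < kap m R := by
    rw [kap]
    positivity
  have hpi := Real.pi_pos
  have h2 := h R L u (ω * kap m R / (2 * Real.pi)) (fun j t => gL m j t / kap m R) hR hu hL huL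
    (fun j _ t ht => (gL_deriv hm j (lt_of_lt_of_le hR' ht.1)).div_const _)
    (fun j hj1 hj2 t ht => by
      obtain ⟨n, rfl⟩ : ∃ n, j = n + 1 := ⟨j - 1, by omega⟩
      obtain ⟨d1, d2⟩ := main_bd m R hm hR n t ht.1 ht.2
      constructor
      · refine le_trans ?_ d1
        exact pow_le_pow_of_le_one (by norm_num) (by norm_num) (by omega)
      · refine d2.trans ?_
        exact Finset.single_le_sum (f := fun i => 2 * BL i)
          (fun i _ => mul_nonneg (by norm_num) (BL_nonneg i)) (Finset.mem_range.mpr (by omega)))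
  have habs : |ω * kap m R / (2 * Real.pi)| = kap m R * |ω| / (2 * Real.pi) := by
    rw [abs_div, abs_mul, abs_of_pos hk, abs_of_pos (by positivity : (0 : ℝ) < 2 * Real.pi)]
    ring
  rw [habs] at h2
  have h3 := h2 (by rw [le_div_iff₀ (by positivity)]; linarith) (by
    refine le_trans (div_le_self (by positivity) ?_) hω2
    linarith [Real.two_le_pi])
  have h4 : ∑ n ∈ Finset.range L,
      Complex.exp (Complex.I * ((ω * Real.log (Real.log (1 + (u + n) / m)) : ℝ) : ℂ))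
      = ∑ n ∈ Finset.range L, Pool.Agent.H469R2.NK.e
        (ω * kap m R / (2 * Real.pi) * (gL m 0 (u + n) / kap m R)) := by
    refine Finset.sum_congr rfl fun n _ => ?_
    unfold Pool.Agent.H469R2.NK.e
    rw [mul_comm]
    congr 3
    simp only [gL]
    field_simp
  rw [h4]
  refine h3.trans ?_
  rw [mul_assoc C]
  refine mul_le_mul_of_nonneg_left ?_ hC.le
  have h5 : (R : ℝ) / (kap m R * |ω| / (2 * Real.pi)) = 2 * Real.pi * (R / (kap m R * |ω|)) := by
    field_simp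
  rw [h5, mul_add]
  have h6 : (0 : ℝ) ≤ (R : ℝ) ^ (1 - η) := by positivity
  have h7 : 1 ≤ 2 * Real.pi := by linarith [Real.two_le_pi]
  nlinarith

end Pool.Agent.Helper30K1.GD
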