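import Pool.Agent.N879.GD.Stm
import Pool.Agent.Y587.GP.V

set_option autoImplicit false

/-!
Project GD, piece OFI: the off-diagonal part of the approximate functional equation.
-/

namespace Pool.Agent.Helper30K1.GD

open Complex Filter Topology MeasureTheory Set
open Pool.Agent.Y969.GP (ff V ht lam PS co PX)
open Pool.Agent.N879.GD

noncomputable section

namespace OFI

/-- the real weight -/
def A (b : ℕ) (T u : ℝ) : ℝ := (u / T) ^ b * Real.exp (-(u / T)) / u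

/-- the kernel -/
def Ky (σ y : ℝ) : ℂ :=
  cexp (-((σ + I * y) * (Real.log (2 * Real.pi) : ℝ))) * cexp ((σ + I * y) ^ 2) / (σ + I * y)

/-- the coefficient -/
def cp (σ y h : ℝ) : ℂ := (((√h)⁻¹ : ℝ) : ℂ) * cexp (-((σ + I * y) * (Real.log h : ℝ)))

/-- the phase -/
def ph (x τ u y : ℝ) : ℂ := cexp (I * ((u * x - (τ - y) * Real.log u : ℝ) : ℂ))

/-- the integrand -/
def gg (σ : ℝ) (b : ℕ) (T x h τ u y : ℝ) : ℂ :=
  (A b T u : ℂ) * (Ky σ y * cp σ y h) * ph x τ u y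

lemma den_ne {σ : ℝ} (hσ : 0 < σ) (y : ℝ) : (σ + I * y : ℂ) ≠ 0 := by
  intro h
  have := congrArg Complex.re h
  simp at this
  linarith

lemma den_norm {σ : ℝ} (_hσ : 0 < σ) (y : ℝ) : σ ≤ ‖(σ + I * y : ℂ)‖ := by
  have h1 := Complex.re_le_norm (σ + I * y : ℂ)
  simpa using h1

lemma Ky_norm {σ : ℝ} (hσ : 0 < σ) (y : ℝ) :
    ‖Ky σ y‖ ≤ Real.exp (σ ^ 2) / σ * Real.exp (-y ^ 2) := by
  unfold Ky
  rw [norm_div, norm_mul, Complex.norm_exp, Complex.norm_exp]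
  have e1 : (-((σ + I * y : ℂ) * (Real.log (2 * Real.pi) : ℝ))).re =
      -(σ * Real.log (2 * Real.pi)) := by simp
  have e2 : ((σ + I * y : ℂ) ^ 2).re = σ ^ 2 - y ^ 2 := by simp [pow_two]
  rw [e1, e2]
  have h1 : Real.exp (-(σ * Real.log (2 * Real.pi))) ≤ 1 := by
    rw [Real.exp_le_one_iff]
    have : 0 ≤ Real.log (2 * Real.pi) := Real.log_nonneg (by linarith [Real.pi_gt_three])
    nlinarith
  have h2 := den_norm hσ y
  have h3 : 0 < ‖(σ + I * y : ℂ)‖ := hσ.trans_le h2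
  rw [div_le_iff₀ h3]
  have e3 : Real.exp (σ ^ 2 - y ^ 2) = Real.exp (σ ^ 2) * Real.exp (-y ^ 2) := by
    rw [← Real.exp_add]; congr 1
  rw [e3]
  have h4 : 0 < Real.exp (σ ^ 2) * Real.exp (-y ^ 2) := by positivity
  calc Real.exp (-(σ * Real.log (2 * Real.pi))) * (Real.exp (σ ^ 2) * Real.exp (-y ^ 2)) ≤
      1 * (Real.exp (σ ^ 2) * Real.exp (-y ^ 2)) := mul_le_mul_of_nonneg_right h1 h4.le
    _ = Real.exp (σ ^ 2) / σ * Real.exp (-y ^ 2) * σ := by field_simp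
    _ ≤ _ := mul_le_mul_of_nonneg_left h2 (by positivity)

lemma cp_norm (σ y h : ℝ) : ‖cp σ y h‖ = (√h)⁻¹ * Real.exp (-(σ * Real.log h)) := by
  unfold cp
  rw [norm_mul, Complex.norm_exp, Complex.norm_real, Real.norm_eq_abs, abs_of_nonneg (by positivity)]
  congr 2
  simp

lemma Ky_cont {σ : ℝ} (hσ : 0 < σ) : Continuous (Ky σ) := by
  unfold Ky
  refine Continuous.div ?_ (by fun_prop) (fun y => den_ne hσ y)
  fun_prop

lemma cp_cont (σ h : ℝ) : Continuous (fun y => cp σ y h) := by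
  unfold cp
  fun_prop

lemma ph_norm (x τ u y : ℝ) : ‖ph x τ u y‖ = 1 := by
  unfold ph
  rw [mul_comm, Complex.norm_exp_ofReal_mul_I]

lemma ph_meas (x τ : ℝ) : Measurable (fun z : ℝ × ℝ => ph x τ z.1 z.2) := by
  unfold ph
  have h1 : Measurable (fun z : ℝ × ℝ => (z.1 * x - (τ - z.2) * Real.log z.1 : ℝ)) :=
    (measurable_fst.mul_const x).sub
      ((measurable_const.sub measurable_snd).mul (Real.measurable_log.comp measurable_fst))
  exact Complex.measurable_exp.comp ((Complex.measurable_ofReal.comp h1).const_mul I)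

lemma kc_int {σ : ℝ} (hσ : 0 < σ) (h : ℝ) : Integrable (fun y => Ky σ y * cp σ y h) := by
  have h1 : Integrable (fun y : ℝ => Real.exp (-1 * y ^ 2)) := integrable_exp_neg_mul_sq one_pos
  refine (h1.const_mul (Real.exp (σ ^ 2) / σ * ((√h)⁻¹ * Real.exp (-(σ * Real.log h))))).mono'
    ((Ky_cont hσ).mul (cp_cont σ h)).aestronglyMeasurable (ae_of_all _ fun y => ?_)
  rw [norm_mul, cp_norm]
  have e : Real.exp (-1 * y ^ 2) = Real.exp (-y ^ 2) := by congr 1; ring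
  have := mul_le_mul_of_nonneg_right (Ky_norm hσ y)
    (by positivity : 0 ≤ (√h)⁻¹ * Real.exp (-(σ * Real.log h)))
  rw [e]
  linarith

lemma gg_int {σ : ℝ} (hσ : 0 < σ) {b : ℕ} {T : ℝ} (hA : IntegrableOn (A b T) (Ioi 0))
    (x h τ : ℝ) : Integrable (Function.uncurry (gg σ b T x h τ))
      ((volume.restrict (Ioi (0 : ℝ))).prod volume) := by
  have h2 : Integrable (fun u => (A b T u : ℂ)) (volume.restrict (Ioi (0 : ℝ))) := hA.ofReal
  have h3 := h2.mul_prod (kc_int hσ h)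
  refine h3.mono (h3.aestronglyMeasurable.mul (ph_meas x τ).aestronglyMeasurable)
    (ae_of_all _ fun z => ?_)
  show ‖(A b T z.1 : ℂ) * (Ky σ z.2 * cp σ z.2 h) * ph x τ z.1 z.2‖ ≤ _
  rw [norm_mul, ph_norm, mul_one]

lemma wA {σ : ℝ} (b : ℕ) {T u : ℝ} (hT : 0 < T) (hu : 0 < u) :
    W (b - σ) T u * u ^ σ = T ^ σ * A b T u := by
  unfold W A
  have h1 : 0 < u / T := by positivity
  have e1 : u ^ σ = (u / T) ^ σ * T ^ σ := by
    rw [← Real.mul_rpow h1.le hT.le, div_mul_cancel₀ _ hT.ne']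
  have e2 : (u / T) ^ ((b : ℝ) - σ) * (u / T) ^ σ = (u / T) ^ b := by
    rw [← Real.rpow_add h1, sub_add_cancel, Real.rpow_natCast]
  rw [e1, ← e2]
  ring

lemma point {σ : ℝ} (hσ : 0 < σ) (b : ℕ) {T u h : ℝ} (hT : 0 < T) (hu : 0 < u) (hh : 0 < h)
    (x τ : ℝ) :
    (W (b - σ) T u : ℂ) * (((2 * (√h)⁻¹ * V (2 * Real.pi * h / u) : ℝ) : ℂ) *
      cexp (I * ((u * x : ℝ) : ℂ))) * cexp (-(I * ((τ * Real.log u : ℝ) : ℂ))) =
    ((Real.pi : ℂ)⁻¹ * ((T ^ σ : ℝ) : ℂ)) * ∫ y : ℝ, gg σ b T x h τ u y := by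
  have e0 : (((2 * (√h)⁻¹ * V (2 * Real.pi * h / u) : ℝ) : ℂ)) =
      2 * (((√h)⁻¹ : ℝ) : ℂ) * ((V (2 * Real.pi * h / u) : ℝ) : ℂ) := by push_cast; ring
  rw [e0, Pool.Agent.Y587.GP.part7 σ _ hσ, ← integral_const_mul, ← integral_const_mul,
    ← integral_const_mul, ← integral_mul_const, ← integral_const_mul, ← integral_mul_const]
  congr 1
  funext y
  have hp : 0 < 2 * Real.pi := by positivity
  have e1 : Real.log (2 * Real.pi * h / u) = Real.log (2 * Real.pi) + Real.log h - Real.log u := by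
    rw [Real.log_div (by positivity) hu.ne', Real.log_mul hp.ne' hh.ne']
  have e2 : cexp (-((σ + I * y : ℂ) * (Real.log (2 * Real.pi * h / u) : ℝ))) =
      cexp (-((σ + I * y : ℂ) * (Real.log (2 * Real.pi) : ℝ))) *
        cexp (-((σ + I * y : ℂ) * (Real.log h : ℝ))) *
        (((u ^ σ : ℝ) : ℂ) * cexp (I * ((y * Real.log u : ℝ) : ℂ))) := by
    have e3 : ((u ^ σ : ℝ) : ℂ) = cexp ((σ : ℂ) * (Real.log u : ℝ)) := by
      rw [Real.rpow_def_of_pos hu, Complex.ofReal_exp]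
      congr 1
      push_cast
      ring
    rw [e1, e3, ← Complex.exp_add, ← Complex.exp_add, ← Complex.exp_add]
    congr 1
    push_cast
    ring
  have e4 : (W (b - σ) T u : ℂ) * ((u ^ σ : ℝ) : ℂ) = ((T ^ σ : ℝ) : ℂ) * (A b T u : ℂ) := by
    rw [← Complex.ofReal_mul, wA b hT hu, Complex.ofReal_mul]
  have e5 : ph x τ u y = cexp (I * ((u * x : ℝ) : ℂ)) * cexp (-(I * ((τ * Real.log u : ℝ) : ℂ))) *
      cexp (I * ((y * Real.log u : ℝ) : ℂ)) := by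
    unfold ph
    rw [← Complex.exp_add, ← Complex.exp_add]
    congr 1
    push_cast
    ring
  have hpi : (Real.pi : ℂ) ≠ 0 := by exact_mod_cast Real.pi_ne_zero
  unfold gg
  rw [e2, e5]
  unfold Ky cp
  have hd := den_ne hσ y
  have e6 : ((2 * Real.pi : ℝ) : ℂ)⁻¹ = 2⁻¹ * (Real.pi : ℂ)⁻¹ := by
    push_cast
    rw [mul_inv]
  rw [e6]
  linear_combination (2 * (((√h)⁻¹ : ℝ) : ℂ) * (2⁻¹ * (Real.pi : ℂ)⁻¹) *
    (cexp (-((σ + I * y : ℂ) * (Real.log (2 * Real.pi) : ℝ))) *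
      cexp (-((σ + I * y : ℂ) * (Real.log h : ℝ))) * cexp (I * ((y * Real.log u : ℝ) : ℂ)) *
      cexp ((σ + I * y : ℂ) ^ 2) / (σ + I * y)) * cexp (I * ((u * x : ℝ) : ℂ)) *
      cexp (-(I * ((τ * Real.log u : ℝ) : ℂ)))) * e4

/-- one pair -/
lemma pair {σ : ℝ} (hσ : 0 < σ) {b : ℕ} {T : ℝ} (hT : 0 < T) (hA : IntegrableOn (A b T) (Ioi 0))
    {h : ℝ} (hh : 0 < h) (x τ : ℝ) :
    IntegrableOn (fun u : ℝ => (W (b - σ) T u : ℂ) *
      (((2 * (√h)⁻¹ * V (2 * Real.pi * h / u) : ℝ) : ℂ) * cexp (I * ((u * x : ℝ) : ℂ))) *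
      cexp (-(I * ((τ * Real.log u : ℝ) : ℂ)))) (Ioi 0) ∧
    Integrable (fun y : ℝ => Ky σ y * (cp σ y h * GG b T x (τ - y))) ∧
    ∫ u in Ioi (0 : ℝ), (W (b - σ) T u : ℂ) *
      (((2 * (√h)⁻¹ * V (2 * Real.pi * h / u) : ℝ) : ℂ) * cexp (I * ((u * x : ℝ) : ℂ))) *
      cexp (-(I * ((τ * Real.log u : ℝ) : ℂ))) =
    ((Real.pi : ℂ)⁻¹ * ((T ^ σ : ℝ) : ℂ)) * ∫ y : ℝ, Ky σ y * (cp σ y h * GG b T x (τ - y)) := by
  have hg := gg_int hσ hA x h τ
  have p1 : ∀ u ∈ Ioi (0 : ℝ), (W (b - σ) T u : ℂ) *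
      (((2 * (√h)⁻¹ * V (2 * Real.pi * h / u) : ℝ) : ℂ) * cexp (I * ((u * x : ℝ) : ℂ))) *
      cexp (-(I * ((τ * Real.log u : ℝ) : ℂ))) =
      ((Real.pi : ℂ)⁻¹ * ((T ^ σ : ℝ) : ℂ)) * ∫ y : ℝ, gg σ b T x h τ u y := fun u hu =>
    point hσ b hT hu hh x τ
  have p2 : ∀ y : ℝ, ∫ u in Ioi (0 : ℝ), gg σ b T x h τ u y =
      Ky σ y * (cp σ y h * GG b T x (τ - y)) := by
    intro y
    have : ∀ u : ℝ, gg σ b T x h τ u y = (Ky σ y * cp σ y h) * ((((u / T) ^ b *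
        Real.exp (-(u / T)) / u : ℝ) : ℂ) * cexp (I * ((u * x - (τ - y) * Real.log u : ℝ) : ℂ))) := by
      intro u
      unfold gg A ph
      ring
    simp only [this]
    rw [integral_const_mul]
    unfold GG
    ring
  have i1 : Integrable (fun u => ∫ y : ℝ, gg σ b T x h τ u y) (volume.restrict (Ioi (0 : ℝ))) :=
    hg.integral_prod_left
  have i2 : Integrable (fun y => ∫ u in Ioi (0 : ℝ), gg σ b T x h τ u y) volume :=
    hg.integral_prod_right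
  refine ⟨?_, ?_, ?_⟩
  · refine IntegrableOn.congr_fun (f := fun u => ((Real.pi : ℂ)⁻¹ * ((T ^ σ : ℝ) : ℂ)) *
      ∫ y : ℝ, gg σ b T x h τ u y) (i1.const_mul _) (fun u hu => (p1 u hu).symm) measurableSet_Ioi
  · simpa only [p2] using i2
  · rw [setIntegral_congr_fun measurableSet_Ioi p1, integral_const_mul]
    have sw := integral_integral_swap hg
    rw [sw]
    simp only [p2]

end OFI

open OFI in
theorem t_OFI (h1 : S_GF) (h2 : S_SUM) : S_OFI := by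
  obtain ⟨ε, δ, b, hε, hε4, hδ, hδ1, hb, C, T₀, hC, hT0, hS⟩ := h2
  obtain ⟨σ, hσe⟩ : ∃ σ, σ = δ / 2 := ⟨_, rfl⟩
  have hσ : 0 < σ := by rw [hσe]; positivity
  have hσ1 : σ ≤ 1 / 2 := by rw [hσe]; linarith
  have hb' : (4 : ℝ) ≤ b := by exact_mod_cast hb
  obtain ⟨J, hJ⟩ : ∃ J : ℝ, J = ∫ y : ℝ, Real.exp (σ ^ 2) / σ * ((1 + |y|) * Real.exp (-y ^ 2)) :=
    ⟨_, rfl⟩
  have iJ : Integrable (fun y : ℝ => Real.exp (σ ^ 2) / σ * ((1 + |y|) * Real.exp (-y ^ 2))) := by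
    have g1 : Integrable (fun y : ℝ => Real.exp (-1 * y ^ 2)) := integrable_exp_neg_mul_sq one_pos
    have g2 : Integrable (fun y : ℝ => y * Real.exp (-1 * y ^ 2)) :=
      integrable_mul_exp_neg_mul_sq one_pos
    refine ((g1.add g2.norm).congr (ae_of_all _ fun y => ?_)).const_mul _
    show Real.exp (-1 * y ^ 2) + ‖y * Real.exp (-1 * y ^ 2)‖ = (1 + |y|) * Real.exp (-y ^ 2)
    rw [norm_mul, Real.norm_eq_abs, Real.norm_eq_abs, abs_of_pos (Real.exp_pos _)]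
    have e : Real.exp (-1 * y ^ 2) = Real.exp (-y ^ 2) := by congr 1; ring
    rw [e]
    ring
  have J0 : 0 ≤ J := by
    rw [hJ]
    exact integral_nonneg fun y => by positivity
  refine ⟨b - σ, ε, δ - σ, by linarith, hε, hε4, by linarith, by linarith,
    Real.pi⁻¹ * (J * C) + 1, T₀, by positivity, hT0, fun T τ X hT hX1 hX2 => ?_⟩
  have hTp : 0 < T := by linarith
  have hA : IntegrableOn (A b T) (Ioi 0) := (h1 b T 0 0 (by omega) hTp).1
  have hpos : ∀ p ∈ (PS X).filter (fun p => p.1 ≠ p.2), 0 < ht p := by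
    intro p hp
    have hp1 := (Finset.mem_filter.1 hp).1
    unfold PS at hp1
    have hp2 := (Finset.mem_filter.1 hp1).1
    rw [Finset.mem_product, Finset.mem_Icc, Finset.mem_Icc] at hp2
    have a1 : (0 : ℝ) < p.1 := by exact_mod_cast hp2.1.1
    have a2 : (0 : ℝ) < p.2 := by exact_mod_cast hp2.2.1
    unfold ht
    positivity
  have key := fun p (hp : p ∈ (PS X).filter (fun p => p.1 ≠ p.2)) =>
    pair hσ hTp hA (hpos p hp) (lam p) τ
  have e1 : ∫ u in Ioi (0 : ℝ), (W (b - σ) T u : ℂ) * (∑ p ∈ (PS X).filter (fun p => p.1 ≠ p.2),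
      (co p u : ℂ) * cexp (I * ((u * lam p : ℝ) : ℂ))) *
      cexp (-(I * ((τ * Real.log u : ℝ) : ℂ))) =
      ((Real.pi : ℂ)⁻¹ * ((T ^ σ : ℝ) : ℂ)) * ∫ y : ℝ, Ky σ y *
        ∑ p ∈ (PS X).filter (fun p => p.1 ≠ p.2), bt σ b T y (τ - y) p.1 p.2 := by
    have e2 : ∀ u : ℝ, (W (b - σ) T u : ℂ) * (∑ p ∈ (PS X).filter (fun p => p.1 ≠ p.2),
        (co p u : ℂ) * cexp (I * ((u * lam p : ℝ) : ℂ))) *
        cexp (-(I * ((τ * Real.log u : ℝ) : ℂ))) = ∑ p ∈ (PS X).filter (fun p => p.1 ≠ p.2),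
        (W (b - σ) T u : ℂ) * (((2 * (√(ht p))⁻¹ * V (2 * Real.pi * ht p / u) : ℝ) : ℂ) *
          cexp (I * ((u * lam p : ℝ) : ℂ))) * cexp (-(I * ((τ * Real.log u : ℝ) : ℂ))) := by
      intro u
      rw [Finset.mul_sum, Finset.sum_mul]
      rfl
    simp only [e2]
    rw [integral_finsetSum _ fun p hp => (key p hp).1,
      Finset.sum_congr rfl fun p hp => (key p hp).2.2, ← Finset.mul_sum,
      ← integral_finsetSum _ fun p hp => (key p hp).2.1]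
    congr 2
    funext y
    rw [Finset.mul_sum]
    rfl
  rw [e1, norm_mul, norm_mul, norm_inv, Complex.norm_real, Complex.norm_real, Real.norm_eq_abs,
    Real.norm_eq_abs, abs_of_pos Real.pi_pos, abs_of_pos (Real.rpow_pos_of_pos hTp σ)]
  have e3 : ‖∫ y : ℝ, Ky σ y * ∑ p ∈ (PS X).filter (fun p => p.1 ≠ p.2),
      bt σ b T y (τ - y) p.1 p.2‖ ≤ J * (C * T ^ (-δ)) := by
    rw [hJ, ← integral_mul_const]
    refine norm_integral_le_of_norm_le (iJ.mul_const _) (ae_of_all _ fun y => ?_)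
    rw [norm_mul]
    have b1 := Ky_norm hσ y
    have b2 := hS σ T y (τ - y) X hσ.le (by linarith) hT hX1 hX2
    have b3 : 0 < T ^ (-δ) := Real.rpow_pos_of_pos hTp _
    calc ‖Ky σ y‖ * ‖∑ p ∈ (PS X).filter (fun p => p.1 ≠ p.2), bt σ b T y (τ - y) p.1 p.2‖ ≤
        (Real.exp (σ ^ 2) / σ * Real.exp (-y ^ 2)) * (C * (1 + |y|) * T ^ (-δ)) :=
          mul_le_mul b1 b2 (norm_nonneg _) (by positivity)
      _ = _ := by ring
  have e4 : T ^ σ * T ^ (-δ) = T ^ (-(δ - σ)) := by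
    rw [← Real.rpow_add hTp]
    congr 1
    ring
  have e5 : 0 < T ^ (-(δ - σ)) := Real.rpow_pos_of_pos hTp _
  have e6 : 0 < T ^ σ := Real.rpow_pos_of_pos hTp _
  calc Real.pi⁻¹ * T ^ σ * ‖∫ y : ℝ, Ky σ y * ∑ p ∈ (PS X).filter (fun p => p.1 ≠ p.2),
      bt σ b T y (τ - y) p.1 p.2‖ ≤ Real.pi⁻¹ * T ^ σ * (J * (C * T ^ (-δ))) :=
        mul_le_mul_of_nonneg_left e3 (by positivity)
    _ = Real.pi⁻¹ * (J * C) * (T ^ σ * T ^ (-δ)) := by ring
    _ = Real.pi⁻¹ * (J * C) * T ^ (-(δ - σ)) := by rw [e4]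
    _ ≤ _ := by nlinarith

end

end Pool.Agent.Helper30K1.GD
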