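import Pool.Agent.Helper30K1.GD.SUM2

set_option autoImplicit false

/-!
Project GD, piece SUM, part 3 (helper92): the estimate of one dyadic block.
-/

namespace Pool.Agent.Helper30K1.GD

open Complex Filter Topology MeasureTheory Set
open Pool.Agent.N879.GD

/-- the conditions on `T` (`η` is the saving of BB) -/
structure Big (η T : ℝ) : Prop where
  one : 1 ≤ T
  a : 8 ≤ T ^ (1 - η / 100)
  b : 4 ≤ T ^ (1 - 3 * (η / 50))
  d : 8 ≤ T ^ (1 / 2 - 6 * (η / 50))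
  e : 2 * Real.pi ≤ T ^ (1 / 2 : ℝ)
  c : 4 / (η / 50) ≤ T ^ (η / 50 / 2)

theorem big_eventually (η : ℝ) (h0 : 0 < η) (h1 : η ≤ 1) : ∀ᶠ T : ℝ in atTop, Big η T := by
  have key : ∀ a K : ℝ, 0 < a → ∀ᶠ T : ℝ in atTop, K ≤ T ^ a := fun a K ha =>
    (tendsto_rpow_atTop ha).eventually_ge_atTop K
  filter_upwards [eventually_ge_atTop (1 : ℝ), key (1 - η / 100) 8 (by linarith),
    key (1 - 3 * (η / 50)) 4 (by linarith), key (1 / 2 - 6 * (η / 50)) 8 (by linarith),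
    key (1 / 2) (2 * Real.pi) (by norm_num), key (η / 50 / 2) (4 / (η / 50)) (by positivity)]
    with T h1 h2 h3 h4 h5 h6
  exact ⟨h1, h2, h3, h4, h5, h6⟩

theorem big_two (η T : ℝ) (h : Big η T) : 8 * T ^ (1 + η / 100) ≤ T ^ 2 := by
  have hT : 0 < T := by linarith [h.one]
  have e : T ^ 2 = T ^ (1 - η / 100) * T ^ (1 + η / 100) := by
    rw [← Real.rpow_add hT, ← Real.rpow_natCast]
    congr 1
    push_cast
    ring
  rw [e]
  exact mul_le_mul_of_nonneg_right h.a (Real.rpow_nonneg hT.le _)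

theorem big_log (η T X : ℝ) (h0 : 0 < η) (h : Big η T) (hX0 : 0 ≤ X) (hX : X ≤ 2 * T ^ (1 + η / 100)) :
    Real.log (1 + X) ≤ T ^ (η / 50) := by
  have hT1 := h.one
  have hT : 0 < T := by linarith
  have h1 : (1 : ℝ) ≤ T ^ (1 + η / 100) := Real.one_le_rpow hT1 (by positivity)
  have h2 : 1 + X ≤ T ^ 2 := by
    have := big_two η T h
    linarith
  have h3 : Real.log (1 + X) ≤ 2 * Real.log T := by
    have := Real.log_le_log (by linarith) h2
    rw [Real.log_pow] at this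
    exact_mod_cast this
  have hs : 0 < η / 50 / 2 := by positivity
  have h4 : Real.log T ≤ T ^ (η / 50 / 2) / (η / 50 / 2) := Real.log_le_rpow_div hT.le hs
  have e : T ^ (η / 50) = T ^ (η / 50 / 2) * T ^ (η / 50 / 2) := by
    rw [← Real.rpow_add hT]; congr 1; ring
  have h5 : 0 ≤ T ^ (η / 50 / 2) := Real.rpow_nonneg hT.le _
  calc Real.log (1 + X) ≤ 2 * (T ^ (η / 50 / 2) / (η / 50 / 2)) := by linarith
    _ = (4 / (η / 50)) * T ^ (η / 50 / 2) := by field_simp; ring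
    _ ≤ T ^ (η / 50 / 2) * T ^ (η / 50 / 2) := mul_le_mul_of_nonneg_right h.c h5
    _ = T ^ (η / 50) := e.symm

/-- the block is admissible for `BA` -/
theorem zz_ge_one (η T : ℝ) (X m R : ℕ) (h : Big η T) (hX : (X : ℝ) ≤ 2 * T ^ (1 + η / 100))
    (hm : 1 ≤ m) (hR : 1 ≤ R) (hmX : m * (m + R) ≤ X) : 1 ≤ zz T m R := by
  have hT1 := h.one
  have hT : 0 < T := by linarith
  have hm0 : (1 : ℝ) ≤ m := by exact_mod_cast hm
  have hR0 : (1 : ℝ) ≤ R := by exact_mod_cast hR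
  have hX' : (m : ℝ) * (m + R) ≤ X := by exact_mod_cast hmX
  have h1 : (2 * (m : ℝ)) ^ 2 ≤ T ^ 2 := by
    have := big_two η T h
    nlinarith
  have h2 : 2 * (m : ℝ) ≤ T := (pow_le_pow_iff_left₀ (by positivity) hT.le (by norm_num)).1 h1
  have hl := log_lower m R hm
  unfold zz
  have h3 : 1 ≤ T * ((R : ℝ) / (m + R)) := by
    rw [mul_div_assoc', le_div_iff₀ (by positivity)]
    nlinarith
  exact le_trans h3 (mul_le_mul_of_nonneg_left hl hT.le)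

/-- the main range: `BB` is applicable and saves a power -/
theorem main_range (η T w : ℝ) (X m R : ℕ) (h0 : 0 < η) (hη1 : η ≤ 1) (h : Big η T)
    (hXl : T ^ (1 + η / 100) ≤ X) (hX : (X : ℝ) ≤ 2 * T ^ (1 + η / 100))
    (hm : 1 ≤ m) (hR : 1 ≤ R) (hmX : m * (m + R) ≤ X) (hw : 0 ≤ w)
    (hbig : (X : ℝ) * (T ^ (-(η / 50))) ^ 2 < (R : ℝ) * m)
    (hq1 : T ^ (-(η / 50)) < (1 + w) / zz T m R) (hq2 : (1 + w) / zz T m R < T ^ (η / 50)) :
    2 * Real.pi ≤ kap m R * w ∧ kap m R * w ≤ (R : ℝ) ^ 5 ∧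
    (R : ℝ) ^ (1 - η) + R / (kap m R * w) ≤ 2 * R * T ^ (-(η / 50)) := by
  have hT1 := h.one
  have hT : 0 < T := by linarith
  have hm0 : (1 : ℝ) ≤ m := by exact_mod_cast hm
  have hR0 : (1 : ℝ) ≤ R := by exact_mod_cast hR
  have hX' : (m : ℝ) * (m + R) ≤ X := by exact_mod_cast hmX
  have hz1 := zz_ge_one η T X m R h hX hm hR hmX
  have hz0 : 0 < zz T m R := by linarith
  have hl := log_lower m R hm
  have hl' : zz T m R = T * Real.log (1 + (R : ℝ) / m) := rfl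
  have hkap : kap m R = (R : ℝ) / (m + R) / Real.log (1 + (R : ℝ) / m) := rfl
  set lm := Real.log (1 + (R : ℝ) / m) with hlm
  set P := (R : ℝ) / (m + R) with hP
  set z := zz T m R with hz
  set ρ := T ^ (-(η / 50)) with hρ
  have hρ0 : 0 < ρ := Real.rpow_pos_of_pos hT _
  have hρ1 : ρ ≤ 1 := Real.rpow_le_one_of_one_le_of_nonpos hT1 (by linarith)
  have hρinv : T ^ (η / 50) = ρ⁻¹ := by rw [hρ, Real.rpow_neg hT.le, inv_inv]
  have hP0 : 0 < P := by rw [hP]; positivity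
  have hlm0 : 0 < lm := lt_of_lt_of_le hP0 hl
  have hm2 : (m : ℝ) ^ 2 ≤ X := by nlinarith
  have hX0 : (0 : ℝ) < X := by nlinarith
  -- P ≥ ρ²/2
  have hRm : (m : ℝ) * ρ ^ 2 ≤ R := by
    have h1 : (m : ℝ) ^ 2 * ρ ^ 2 ≤ R * m := by
      have := mul_le_mul_of_nonneg_right hm2 (sq_nonneg ρ)
      linarith
    have h2 : (m : ℝ) * (m * ρ ^ 2) ≤ m * R := by nlinarith
    exact le_of_mul_le_mul_left h2 (by linarith)
  have hρ2 : ρ ^ 2 ≤ 1 := pow_le_one₀ hρ0.le hρ1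
  have hPl : ρ ^ 2 / 2 ≤ P := by
    rw [hP, le_div_iff₀ (by positivity)]
    nlinarith
  have hPle : P ≤ lm := hl
  -- lower bound of z
  have hzl : T * (ρ ^ 2 / 2) ≤ z := by
    rw [hl']
    exact mul_le_mul_of_nonneg_left (le_trans hPl hPle) hT.le
  -- upper bound of lm
  have hRX : (R : ℝ) / m ≤ X := by
    have h1 : (R : ℝ) / m ≤ R := div_le_self (by linarith) hm0
    nlinarith
  have hlmu : lm ≤ ρ⁻¹ := by
    have h1 : lm ≤ Real.log (1 + X) := by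
      rw [hlm]
      exact Real.log_le_log (by positivity) (by linarith)
    rw [← hρinv]
    exact le_trans h1 (big_log η T X h0 h hX0.le hX)
  -- lower bound of w
  have hw1 : ρ * z < 1 + w := by rwa [lt_div_iff₀ hz0] at hq1
  have hw2 : 1 + w < ρ⁻¹ * z := by
    rw [hρinv] at hq2
    rwa [div_lt_iff₀ hz0] at hq2
  have e3 : T * ρ ^ 3 = T ^ (1 - 3 * (η / 50)) := by
    rw [hρ, ← Real.rpow_natCast, ← Real.rpow_mul hT.le]
    nth_rewrite 1 [← Real.rpow_one T]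
    rw [← Real.rpow_add hT]
    congr 1
    push_cast
    ring
  have e6 : T * ρ ^ 6 = T ^ (1 / 2 - 6 * (η / 50)) * T ^ (1 / 2 : ℝ) := by
    rw [hρ, ← Real.rpow_natCast, ← Real.rpow_mul hT.le, ← Real.rpow_add hT]
    nth_rewrite 1 [← Real.rpow_one T]
    rw [← Real.rpow_add hT]
    congr 1
    push_cast
    ring
  have hw3 : T * ρ ^ 3 / 4 ≤ w := by
    have h1 : ρ * (T * (ρ ^ 2 / 2)) ≤ ρ * z := mul_le_mul_of_nonneg_left hzl hρ0.le
    have h2 : 4 ≤ T * ρ ^ 3 := by rw [e3]; exact h.b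
    nlinarith
  -- kap
  have hkl : ρ ^ 3 / 2 ≤ kap m R := by
    rw [hkap, le_div_iff₀ hlm0]
    have h1 : ρ ^ 3 / 2 * lm ≤ ρ ^ 3 / 2 * ρ⁻¹ := mul_le_mul_of_nonneg_left hlmu (by positivity)
    have h2 : ρ ^ 3 / 2 * ρ⁻¹ = ρ ^ 2 / 2 := by field_simp
    linarith
  have hku : kap m R ≤ 1 := by
    rw [hkap, div_le_one hlm0]
    exact hPle
  have hk0 : 0 < kap m R := lt_of_lt_of_le (by positivity) hkl
  have hkw : T ^ (1 / 2 : ℝ) ≤ kap m R * w := by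
    have h1 : ρ ^ 3 / 2 * (T * ρ ^ 3 / 4) ≤ kap m R * w :=
      mul_le_mul hkl hw3 (by positivity) hk0.le
    have h2 : ρ ^ 3 / 2 * (T * ρ ^ 3 / 4) = T * ρ ^ 6 / 8 := by ring
    rw [h2, e6] at h1
    have h3 : 0 ≤ T ^ (1 / 2 : ℝ) := Real.rpow_nonneg hT.le _
    have h4 : 8 * T ^ (1 / 2 : ℝ) ≤ T ^ (1 / 2 - 6 * (η / 50)) * T ^ (1 / 2 : ℝ) :=
      mul_le_mul_of_nonneg_right h.d h3
    linarith
  -- R is large
  have hR2 : T ^ (4 / 5 : ℝ) ≤ (R : ℝ) ^ 2 := by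
    have h1 : (X : ℝ) * ρ ^ 4 ≤ (R : ℝ) ^ 2 := by
      have a1 : ((X : ℝ) * ρ ^ 2) ^ 2 ≤ ((R : ℝ) * m) ^ 2 :=
        pow_le_pow_left₀ (by positivity) hbig.le 2
      have a2 : (X : ℝ) * (X * ρ ^ 4) ≤ X * (R : ℝ) ^ 2 := by
        calc (X : ℝ) * (X * ρ ^ 4) = (X * ρ ^ 2) ^ 2 := by ring
          _ ≤ ((R : ℝ) * m) ^ 2 := a1
          _ = (m : ℝ) ^ 2 * (R : ℝ) ^ 2 := by ring
          _ ≤ X * (R : ℝ) ^ 2 := mul_le_mul_of_nonneg_right hm2 (sq_nonneg _)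
      exact le_of_mul_le_mul_left a2 hX0
    have h2 : T ^ (4 / 5 : ℝ) ≤ T ^ (1 + η / 100) * ρ ^ 4 := by
      rw [hρ, ← Real.rpow_natCast, ← Real.rpow_mul hT.le, ← Real.rpow_add hT]
      apply Real.rpow_le_rpow_of_exponent_le hT1
      push_cast
      linarith
    have h3 : T ^ (1 + η / 100) * ρ ^ 4 ≤ X * ρ ^ 4 :=
      mul_le_mul_of_nonneg_right hXl (by positivity)
    linarith
  have hR25 : T ^ (2 / 5 : ℝ) ≤ R := by
    have e : (T ^ (2 / 5 : ℝ)) ^ 2 = T ^ (4 / 5 : ℝ) := by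
      rw [← Real.rpow_natCast, ← Real.rpow_mul hT.le]
      norm_num
    rw [← e] at hR2
    exact (pow_le_pow_iff_left₀ (Real.rpow_nonneg hT.le _) (by linarith) (by norm_num)).1 hR2
  refine ⟨le_trans h.e hkw, ?_, ?_⟩
  · -- upper bound
    have h1 : kap m R * w ≤ w := by nlinarith
    have h2 : w ≤ ρ⁻¹ * (T * ρ⁻¹) := by
      have : ρ⁻¹ * z ≤ ρ⁻¹ * (T * ρ⁻¹) := by
        refine mul_le_mul_of_nonneg_left ?_ (inv_nonneg.2 hρ0.le)
        rw [hl']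
        exact mul_le_mul_of_nonneg_left hlmu hT.le
      linarith
    have h3 : ρ⁻¹ * (T * ρ⁻¹) ≤ T ^ (2 : ℝ) := by
      rw [← hρinv]
      nth_rewrite 2 [← Real.rpow_one T]
      rw [← Real.rpow_add hT, ← Real.rpow_add hT]
      exact Real.rpow_le_rpow_of_exponent_le hT1 (by linarith)
    have h4 : T ^ (2 : ℝ) = (T ^ (2 / 5 : ℝ)) ^ 5 := by
      rw [← Real.rpow_natCast, ← Real.rpow_mul hT.le]
      norm_num
    have h5 : (T ^ (2 / 5 : ℝ)) ^ 5 ≤ (R : ℝ) ^ 5 :=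
      pow_le_pow_left₀ (Real.rpow_nonneg hT.le _) hR25 5
    linarith
  · have hRp : (0 : ℝ) < R := by linarith
    have h1 : (R : ℝ) ^ (1 - η) ≤ R * ρ := by
      rw [sub_eq_add_neg, Real.rpow_add hRp, Real.rpow_one]
      refine mul_le_mul_of_nonneg_left ?_ hRp.le
      have a1 : (R : ℝ) ^ (-η) ≤ (T ^ (2 / 5 : ℝ)) ^ (-η) :=
        Real.rpow_le_rpow_of_nonpos (Real.rpow_pos_of_pos hT _) hR25 (by linarith)
      refine le_trans a1 ?_
      rw [← Real.rpow_mul hT.le, hρ]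
      apply Real.rpow_le_rpow_of_exponent_le hT1
      linarith
    have h2 : R / (kap m R * w) ≤ R * ρ := by
      have hkw0 : 0 < T ^ (1 / 2 : ℝ) := Real.rpow_pos_of_pos hT _
      have a1 : R / (kap m R * w) ≤ R / T ^ (1 / 2 : ℝ) :=
        div_le_div_of_nonneg_left hRp.le hkw0 hkw
      refine le_trans a1 ?_
      rw [div_eq_mul_inv, ← Real.rpow_neg hT.le]
      refine mul_le_mul_of_nonneg_left ?_ hRp.le
      rw [hρ]
      apply Real.rpow_le_rpow_of_exponent_le hT1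
      linarith
    linarith

end Pool.Agent.Helper30K1.GD
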