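import Pool.Agent.Helper30K1.GD.SUM1
import Pool.Agent.Helper30K1.GD.SUM3

set_option autoImplicit false

/-!
Project GD, piece SUM (helper92): the sum over all pairs off the diagonal.
-/

namespace Pool.Agent.Helper30K1.GD

open Complex Filter Topology MeasureTheory Set
open scoped ComplexConjugate
open Pool.Agent.Y969.GP (ff V ht lam PS co PX)
open Pool.Agent.N879.GD

theorem block (η CA CB : ℝ) (h0 : 0 < η) (h1 : η ≤ 1) (hCA : 0 < CA) (hCB : 0 < CB)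
    (hA : ∀ (σ T y ω : ℝ) (m R L : ℕ), 0 ≤ σ → σ ≤ 1 →
      0 < T → 1 ≤ m → 1 ≤ R → L ≤ R → 1 ≤ zz T m R →
      ‖∑ r ∈ Finset.range L, bt σ 4 T y ω m (m + R + r)‖ ≤
        CA * (√((m : ℝ) * (m + R)))⁻¹ * (1 + |ω|) ^ (-(1 / 2 : ℝ)) * ((1 + |ω|) / zz T m R) ^ 4 *
          Real.exp (-(|ω| / (4 * zz T m R))) * R)
    (hB : ∀ (σ T y ω : ℝ) (m R L : ℕ), 0 ≤ σ → σ ≤ 1 → 0 < T → 1 ≤ m → 1 ≤ R → L ≤ R →
      1 ≤ zz T m R → 2 * Real.pi ≤ kap m R * |ω| → kap m R * |ω| ≤ (R : ℝ) ^ 5 →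
      ‖∑ r ∈ Finset.range L, bt σ 4 T y ω m (m + R + r)‖ ≤
        CB * (1 + |y|) * (√((m : ℝ) * (m + R)))⁻¹ * (1 + |ω|) ^ (-(1 / 2 : ℝ)) *
          ((1 + |ω|) / zz T m R) ^ 4 * (1 + (1 + |ω|) / zz T m R) *
          Real.exp (-(|ω| / (4 * zz T m R))) * ((R : ℝ) ^ (1 - η) + R / (kap m R * |ω|)))
    (σ T y ω : ℝ) (X m R L : ℕ) (hσ0 : 0 ≤ σ) (hσ1 : σ ≤ 1) (h : Big η T)
    (hXl : T ^ (1 + η / 100) ≤ X) (hX : (X : ℝ) ≤ 2 * T ^ (1 + η / 100))
    (hm : 1 ≤ m) (hR : 1 ≤ R) (hL : L ≤ R) (hmX : m * (m + R) ≤ X) :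
    ‖∑ r ∈ Finset.range L, bt σ 4 T y ω m (m + R + r)‖ ≤
      C1 * (CA + 2 * CB) * (1 + |y|) * T ^ (-(η / 50)) * √(X / T) * (m : ℝ)⁻¹ := by
  have hT1 := h.one
  have hT : 0 < T := by linarith
  have hm0 : (1 : ℝ) ≤ m := by exact_mod_cast hm
  have hR0 : (1 : ℝ) ≤ R := by exact_mod_cast hR
  have hX' : (m : ℝ) * (m + R) ≤ X := by exact_mod_cast hmX
  have hz1 := zz_ge_one η T X m R h hX hm hR hmX
  have hz0 : 0 < zz T m R := by linarith
  have hw : 0 ≤ |ω| := abs_nonneg ω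
  have hy : 1 ≤ 1 + |y| := by linarith [abs_nonneg y]
  have hXn : (0 : ℝ) ≤ X := Nat.cast_nonneg _
  have hRmX : (R : ℝ) * m ≤ X := by nlinarith
  set w := |ω| with hwdef
  set z := zz T m R with hz
  set ρ := T ^ (-(η / 50)) with hρ
  have hρ0 : 0 < ρ := Real.rpow_pos_of_pos hT _
  have hρinv : T ^ (η / 50) = ρ⁻¹ := by rw [hρ, Real.rpow_neg hT.le, inv_inv]
  set q := (1 + w) / z with hq
  have hq0 : 0 < q := by rw [hq]; positivity
  set E := Real.exp (-(w / (4 * z))) with hE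
  have hE0 : 0 < E := Real.exp_pos _
  have hC1 := C1_pos
  have hfac := fac w z q hw hz0 hq
  have hG1 : q ^ 3 * √q * (1 + q) * E ≤ C1 := g1 w z q hw hz1 hq
  have hGn : 0 ≤ q ^ 3 * √q * E := by positivity
  have hG1' : q ^ 3 * √q * E ≤ C1 := by
    refine le_trans ?_ hG1
    have : q ^ 3 * √q * E * 1 ≤ q ^ 3 * √q * E * (1 + q) :=
      mul_le_mul_of_nonneg_left (by linarith) hGn
    nlinarith
  have hK := K0_nonneg T m R
  have hK1 : K0 T m R ≤ √(X / T) * 1 / m :=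
    K0_le T 1 X m R hT hm hR (by norm_num) hXn (by simpa using hRmX)
  have hKdef : K0 T m R = (√((m : ℝ) * (m + R)))⁻¹ * (√z)⁻¹ * R := rfl
  have hsq : 0 ≤ √((X : ℝ) / T) := Real.sqrt_nonneg _
  have hmi : 0 < (m : ℝ)⁻¹ := by positivity
  -- BA in closed form
  have hBA := hA σ T y ω m R L hσ0 hσ1 hT hm hR hL hz1
  have hBA' : ‖∑ r ∈ Finset.range L, bt σ 4 T y ω m (m + R + r)‖ ≤
      CA * K0 T m R * (q ^ 3 * √q * E) := by
    refine le_trans hBA (le_of_eq ?_)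
    calc CA * (√((m : ℝ) * (m + R)))⁻¹ * (1 + w) ^ (-(1 / 2 : ℝ)) * q ^ 4 * E * R
        = CA * (√((m : ℝ) * (m + R)))⁻¹ * ((1 + w) ^ (-(1 / 2 : ℝ)) * q ^ 4) * E * R := by ring
      _ = CA * (√((m : ℝ) * (m + R)))⁻¹ * ((√z)⁻¹ * (q ^ 3 * √q)) * E * R := by rw [hfac]
      _ = CA * K0 T m R * (q ^ 3 * √q * E) := by rw [hKdef]; ring
  -- the common final form
  have fin1 : ∀ v : ℝ, v ≤ CA * (√(X / T) * (m : ℝ)⁻¹) * (C1 * ρ) →
      v ≤ C1 * (CA + 2 * CB) * (1 + |y|) * ρ * √(X / T) * (m : ℝ)⁻¹ := by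
    intro v hv
    refine le_trans hv ?_
    have a1 : 0 ≤ C1 * ρ * (√(X / T) * (m : ℝ)⁻¹) := by positivity
    have a2 : CA ≤ (CA + 2 * CB) * (1 + |y|) := by nlinarith
    calc CA * (√(X / T) * (m : ℝ)⁻¹) * (C1 * ρ) = CA * (C1 * ρ * (√(X / T) * (m : ℝ)⁻¹)) := by ring
      _ ≤ ((CA + 2 * CB) * (1 + |y|)) * (C1 * ρ * (√(X / T) * (m : ℝ)⁻¹)) :=
          mul_le_mul_of_nonneg_right a2 a1
      _ = C1 * (CA + 2 * CB) * (1 + |y|) * ρ * √(X / T) * (m : ℝ)⁻¹ := by ring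
  have eK1 : √((X : ℝ) / T) * 1 / m = √(X / T) * (m : ℝ)⁻¹ := by rw [mul_one, div_eq_mul_inv]
  rw [eK1] at hK1
  by_cases c1 : (R : ℝ) * m ≤ X * ρ ^ 2
  · apply fin1
    refine le_trans hBA' ?_
    have hK2 := K0_le T ρ X m R hT hm hR hρ0.le hXn c1
    have e : √((X : ℝ) / T) * ρ / m = √(X / T) * (m : ℝ)⁻¹ * ρ := by rw [div_eq_mul_inv]; ring
    rw [e] at hK2
    calc CA * K0 T m R * (q ^ 3 * √q * E) ≤ CA * (√(X / T) * (m : ℝ)⁻¹ * ρ) * C1 := by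
          apply mul_le_mul (mul_le_mul_of_nonneg_left hK2 hCA.le) hG1' hGn (by positivity)
      _ = CA * (√(X / T) * (m : ℝ)⁻¹) * (C1 * ρ) := by ring
  by_cases c2 : q ≤ ρ
  · apply fin1
    refine le_trans hBA' ?_
    exact mul_le_mul (mul_le_mul_of_nonneg_left hK1 hCA.le) (g2 w z q ρ hw hz1 hq c2) hGn
      (by positivity)
  by_cases c3 : ρ⁻¹ ≤ q
  · apply fin1
    refine le_trans hBA' ?_
    exact mul_le_mul (mul_le_mul_of_nonneg_left hK1 hCA.le) (g3 w z q ρ hw hz1 hq hρ0 c3) hGn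
      (by positivity)
  rw [not_le] at c1 c2 c3
  obtain ⟨m1, m2, m3⟩ := main_range η T w X m R h0 h1 h hXl hX hm hR hmX hw c1 c2
    (by rw [hρinv]; exact c3)
  have hBB := hB σ T y ω m R L hσ0 hσ1 hT hm hR hL hz1 m1 m2
  refine le_trans hBB ?_
  have a0 : 0 ≤ CB * (1 + |y|) * (√((m : ℝ) * (m + R)))⁻¹ * (1 + w) ^ (-(1 / 2 : ℝ)) * q ^ 4 *
      (1 + q) * E := by positivity
  calc CB * (1 + |y|) * (√((m : ℝ) * (m + R)))⁻¹ * (1 + w) ^ (-(1 / 2 : ℝ)) * q ^ 4 *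
      (1 + q) * E * ((R : ℝ) ^ (1 - η) + R / (kap m R * w))
      ≤ CB * (1 + |y|) * (√((m : ℝ) * (m + R)))⁻¹ * (1 + w) ^ (-(1 / 2 : ℝ)) * q ^ 4 *
      (1 + q) * E * (2 * R * ρ) := mul_le_mul_of_nonneg_left m3 a0
    _ = CB * (1 + |y|) * (√((m : ℝ) * (m + R)))⁻¹ * ((1 + w) ^ (-(1 / 2 : ℝ)) * q ^ 4) *
      (1 + q) * E * (2 * R * ρ) := by ring
    _ = CB * (1 + |y|) * (√((m : ℝ) * (m + R)))⁻¹ * ((√z)⁻¹ * (q ^ 3 * √q)) *
      (1 + q) * E * (2 * R * ρ) := by rw [hfac]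
    _ = 2 * CB * (1 + |y|) * ρ * K0 T m R * (q ^ 3 * √q * (1 + q) * E) := by rw [hKdef]; ring
    _ ≤ 2 * CB * (1 + |y|) * ρ * (√(X / T) * (m : ℝ)⁻¹) * C1 := by
        apply mul_le_mul (mul_le_mul_of_nonneg_left hK1 (by positivity)) hG1 (by positivity)
          (by positivity)
    _ ≤ C1 * (CA + 2 * CB) * (1 + |y|) * ρ * √(X / T) * (m : ℝ)⁻¹ := by
        have a1 : 0 ≤ C1 * (1 + |y|) * ρ * (√(X / T) * (m : ℝ)⁻¹) := by positivity
        have a2 : 2 * CB ≤ CA + 2 * CB := by linarith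
        calc 2 * CB * (1 + |y|) * ρ * (√(X / T) * (m : ℝ)⁻¹) * C1
            = 2 * CB * (C1 * (1 + |y|) * ρ * (√(X / T) * (m : ℝ)⁻¹)) := by ring
          _ ≤ (CA + 2 * CB) * (C1 * (1 + |y|) * ρ * (√(X / T) * (m : ℝ)⁻¹)) :=
              mul_le_mul_of_nonneg_right a2 a1
          _ = C1 * (CA + 2 * CB) * (1 + |y|) * ρ * √(X / T) * (m : ℝ)⁻¹ := by ring

theorem harm_le (X : ℕ) : ∑ m ∈ Finset.Icc 1 X, ((m : ℝ))⁻¹ ≤ 1 + Real.log X := by
  have h := harmonic_le_one_add_log X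
  rw [harmonic_eq_sum_Icc] at h
  push_cast at h
  exact h

theorem log2_le (X : ℕ) (hX : 1 ≤ X) : ((Nat.log 2 X + 1 : ℕ) : ℝ) ≤ 2 * (1 + Real.log X) := by
  have h1 : (2 : ℝ) ^ Nat.log 2 X ≤ X := by exact_mod_cast Nat.pow_log_le_self 2 (by omega)
  have h2 := Real.log_le_log (by positivity) h1
  rw [Real.log_pow] at h2
  have h3 : (1 : ℝ) / 2 ≤ Real.log 2 := by linarith [Real.log_two_gt_d9]
  have h4 : (0 : ℝ) ≤ (Nat.log 2 X : ℝ) := Nat.cast_nonneg _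
  push_cast
  nlinarith

theorem t_SUM (hBA : S_BA) (hBB : S_BB) : S_SUM := by
  obtain ⟨η, h0, h1, hB⟩ := hBB
  obtain ⟨CA, hCA, hA⟩ := hBA 4 (by norm_num)
  obtain ⟨CB, hCB, hB⟩ := hB 4 (by norm_num)
  obtain ⟨T₀, hT₀⟩ := (big_eventually η h0 h1).exists_forall_of_atTop
  have hC1 := C1_pos
  set D := C1 * (CA + 2 * CB) with hD
  have hD0 : 0 < D := by rw [hD]; positivity
  refine ⟨η / 100, η / 100, 4, by positivity, by linarith, by positivity, by linarith, le_refl _,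
    2 * (D * 2 * 2 * (1 + 800 / η) ^ 2), max T₀ 1, by positivity, le_max_right _ _, ?_⟩
  -- one half
  have half : ∀ (σ T y ω : ℝ) (X : ℕ), 0 ≤ σ → σ ≤ 1 → Big η T → T ^ (1 + η / 100) ≤ X →
      (X : ℝ) ≤ 2 * T ^ (1 + η / 100) →
      ‖∑ p ∈ (PS X).filter (fun p => p.1 < p.2), bt σ 4 T y ω p.1 p.2‖ ≤
        D * 2 * 2 * (1 + 800 / η) ^ 2 * (1 + |y|) * T ^ (-(η / 100)) := by
    intro σ T y ω X hσ0 hσ1 h hXl hXu
    have hT1 := h.one
    have hT : 0 < T := by linarith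
    have hX1 : (1 : ℝ) ≤ X := le_trans (Real.one_le_rpow hT1 (by positivity)) hXl
    have hX1' : 1 ≤ X := by exact_mod_cast hX1
    set B := D * (1 + |y|) * T ^ (-(η / 50)) * √(X / T) with hBdef
    have hB0 : 0 ≤ B := by rw [hBdef]; positivity
    rw [half_sum X (bt σ 4 T y ω)]
    have s1 : ‖∑ m ∈ Finset.Icc 1 X, ∑ i ∈ Finset.range (Nat.log 2 X + 1),
        ∑ r ∈ Finset.range (LL X m i), bt σ 4 T y ω m (m + 2 ^ i + r)‖ ≤
        ∑ m ∈ Finset.Icc 1 X, ∑ i ∈ Finset.range (Nat.log 2 X + 1), B * (m : ℝ)⁻¹ := by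
      refine le_trans (norm_sum_le _ _) (Finset.sum_le_sum fun m hm => ?_)
      refine le_trans (norm_sum_le _ _) (Finset.sum_le_sum fun i _ => ?_)
      have hm1 := (Finset.mem_Icc.1 hm).1
      by_cases hL : LL X m i = 0
      · rw [hL, Finset.range_zero, Finset.sum_empty, norm_zero]
        positivity
      · exact block η CA CB h0 h1 hCA hCB hA hB σ T y ω X m (2 ^ i) (LL X m i) hσ0 hσ1 h hXl hXu hm1
          Nat.one_le_two_pow (LL_le X m i) (LL_pos hm1 hL)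
    refine le_trans s1 ?_
    have s2 : ∑ m ∈ Finset.Icc 1 X, ∑ i ∈ Finset.range (Nat.log 2 X + 1), B * (m : ℝ)⁻¹ =
        B * ((Nat.log 2 X + 1 : ℕ) : ℝ) * ∑ m ∈ Finset.Icc 1 X, (m : ℝ)⁻¹ := by
      rw [Finset.mul_sum]
      refine Finset.sum_congr rfl fun m _ => ?_
      rw [Finset.sum_const, Finset.card_range, nsmul_eq_mul]
      ring
    rw [s2]
    have hlogX : 0 ≤ Real.log X := Real.log_nonneg hX1
    have ha : 0 < η / 400 := by positivity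
    have hTa : (1 : ℝ) ≤ T ^ (η / 400) := Real.one_le_rpow hT1 ha.le
    have s3 : 1 + Real.log X ≤ (1 + 800 / η) * T ^ (η / 400) := by
      have b1 : (X : ℝ) ≤ T ^ 2 := by
        have := big_two η T h
        have b0 : 0 ≤ T ^ (1 + η / 100) := Real.rpow_nonneg hT.le _
        linarith
      have b2 := Real.log_le_log (by linarith) b1
      rw [Real.log_pow] at b2
      have b3 : Real.log T ≤ T ^ (η / 400) / (η / 400) := Real.log_le_rpow_div hT.le ha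
      have b4 : T ^ (η / 400) / (η / 400) = 400 / η * T ^ (η / 400) := by field_simp
      rw [b4] at b3
      push_cast at b2
      have b5 : (1 + 800 / η) * T ^ (η / 400) = T ^ (η / 400) + 2 * (400 / η * T ^ (η / 400)) := by ring
      rw [b5]
      linarith
    have s4 : √((X : ℝ) / T) ≤ 2 * T ^ (η / 200) := by
      rw [Real.sqrt_le_left (by positivity)]
      have b1 : (2 * T ^ (η / 200)) ^ 2 = 4 * T ^ (η / 100) := by
        rw [mul_pow, ← Real.rpow_natCast (T ^ (η / 200)), ← Real.rpow_mul hT.le]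
        norm_num
        congr 1
        ring
      rw [b1, div_le_iff₀ hT]
      have b2 : T ^ (1 + η / 100) = T ^ (η / 100) * T := by
        rw [Real.rpow_add hT, Real.rpow_one, mul_comm]
      rw [b2] at hXu
      have b3 : 0 ≤ T ^ (η / 100) * T := by positivity
      nlinarith
    have s5 := log2_le X hX1'
    have s6 := harm_le X
    have s7 : (0 : ℝ) ≤ ∑ m ∈ Finset.Icc 1 X, (m : ℝ)⁻¹ := Finset.sum_nonneg fun m _ => by positivity
    calc B * ((Nat.log 2 X + 1 : ℕ) : ℝ) * ∑ m ∈ Finset.Icc 1 X, (m : ℝ)⁻¹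
        ≤ B * (2 * (1 + Real.log X)) * (1 + Real.log X) := by
          apply mul_le_mul (mul_le_mul_of_nonneg_left s5 hB0) s6 s7
          positivity
      _ = B * 2 * (1 + Real.log X) ^ 2 := by ring
      _ ≤ B * 2 * ((1 + 800 / η) * T ^ (η / 400)) ^ 2 := by
          apply mul_le_mul_of_nonneg_left _ (by positivity)
          exact pow_le_pow_left₀ (by positivity) s3 2
      _ ≤ (D * (1 + |y|) * T ^ (-(η / 50)) * (2 * T ^ (η / 200))) * 2 *
            ((1 + 800 / η) * T ^ (η / 400)) ^ 2 := by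
          apply mul_le_mul_of_nonneg_right _ (by positivity)
          apply mul_le_mul_of_nonneg_right _ (by norm_num)
          rw [hBdef]
          exact mul_le_mul_of_nonneg_left s4 (by positivity)
      _ = D * 2 * 2 * (1 + 800 / η) ^ 2 * (1 + |y|) *
            (T ^ (-(η / 50)) * T ^ (η / 200) * (T ^ (η / 400) * T ^ (η / 400))) := by ring
      _ = D * 2 * 2 * (1 + 800 / η) ^ 2 * (1 + |y|) * T ^ (-(η / 100)) := by
          rw [← Real.rpow_add hT, ← Real.rpow_add hT, ← Real.rpow_add hT]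
          congr 2
          ring
  intro σ T y ω X hσ0 hσ1 hT hXl hXu
  have h := hT₀ T (le_trans (le_max_left _ _) hT)
  rw [split_sum]
  refine le_trans (norm_add_le _ _) ?_
  rw [RCLike.norm_conj]
  have a1 := half σ T y ω X hσ0 hσ1 h hXl hXu
  have a2 := half σ T (-y) (-ω) X hσ0 hσ1 h hXl hXu
  rw [abs_neg] at a2
  linarith

end Pool.Agent.Helper30K1.GD
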