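import Pool.Agent.Helper30K1.GD.GK
import Pool.Agent.Helper30K1.GD.LL
import Pool.Agent.Helper30K1.GD.BA
import Pool.Agent.Helper30K1.GD.BB
import Pool.Agent.Helper30K1.GD.SUM
import Pool.Agent.Helper30K1.GD.OFI
import Pool.Agent.Helper30K1.GD.DIA
import Pool.Agent.Helper30K1.GD.LEM
import Pool.Agent.Helper30K1.GD.LEW
import Pool.Agent.Helper30K1.GD.PL
import Pool.Agent.Helper30K1.GD.DIL1
import Pool.Agent.Helper30K1.GD.DILK
import Pool.Agent.Helper30K1.GD.COV
import Pool.Agent.Helper30K1.GD.MB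
import Pool.Agent.Helper30K1.GD.LIP
import Pool.Agent.Helper30K1.GD.DET
import Pool.Agent.Helper30K1.GD.FIN
import Pool.Agent.Y587.GP.V
import Pool.Agent.Y587.GP.Chi
import Pool.Agent.Y891.GP.AFE

set_option autoImplicit false

/-! Project GD: all pieces. -/

namespace Pool.Agent.Helper30K1.GD

open Pool.Agent.N879.GD

theorem aAFE : Pool.Agent.Y969.GP.S_AFE :=
  Pool.Agent.Y891.GP.t_AFE Pool.Agent.Y587.GP.t_V Pool.Agent.Y587.GP.Chi.t_CHI

end Pool.Agent.Helper30K1.GD
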