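import Pool.Agent.N879.GD.Stm

set_option autoImplicit false

/-!
Project GD, piece DILK (helper40): several dilations.
-/

namespace Pool.Agent.Helper30K1.GD

open Complex Filter Topology MeasureTheory Set
open Pool.Agent.Y969.GP (ff V ht lam PS co PX)
open Pool.Agent.N879.GD

namespace Dilk

/-- Lebesgue measure on `[A⁻¹, A]` -/
noncomputable def nu (A : ℝ) : Measure ℝ := volume.restrict (Icc A⁻¹ A)

/-- Lebesgue measure on the box -/
noncomputable def muk (k : ℕ) (A : ℝ) : Measure (Fin k → ℝ) := Measure.pi fun _ => nu A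

instance (A : ℝ) : IsFiniteMeasure (nu A) := by unfold nu; infer_instance

instance (k : ℕ) (A : ℝ) : IsFiniteMeasure (muk k A) := by unfold muk; infer_instance

lemma muk_eq (k : ℕ) (A : ℝ) :
    (volume : Measure (Fin k → ℝ)).restrict (Icc (fun _ : Fin k => A⁻¹) (fun _ => A)) = muk k A := by
  rw [muk, ← pi_univ_Icc, volume_pi, Measure.restrict_pi_pi]
  rfl

lemma lint_succ (k : ℕ) (A : ℝ) (f : (Fin (k + 1) → ℝ) → ENNReal) :
    ∫⁻ l, f l ∂(muk (k + 1) A) =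
      ∫⁻ p : ℝ × (Fin k → ℝ), f (Fin.cons p.1 p.2) ∂((nu A).prod (muk k A)) := by
  have h := (measurePreserving_piFinSuccAbove (fun _ : Fin (k + 1) => nu A) 0).symm
  have h2 := h.lintegral_comp_emb
    (MeasurableEquiv.measurableEmbedding (MeasurableEquiv.piFinSuccAbove (fun _ : Fin (k + 1) => ℝ) 0).symm) f
  rw [muk, ← h2]
  refine lintegral_congr fun p => ?_
  congr 1
  exact Fin.insertNth_zero' p.1 p.2

lemma meas_ff (hC : Continuous ff) : Measurable ff := hC.measurable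

lemma meas_D0 : Measurable D0 := by
  unfold D0
  fun_prop

/-- the fourth moment over the dilations -/
lemma one_mom (hC : Continuous ff) (hM : S_M4) {A : ℝ} (hA : 1 ≤ A) {ε : ℝ} (hε : 0 < ε) :
    ∃ C : ℝ, 0 < C ∧ ∀ t : ℝ, 1 ≤ t → ∫⁻ x, ‖((ff (x * t) : ℝ) : ℂ)‖ₑ ^ 2 ∂(nu A) ≤ ENNReal.ofReal (C * t ^ ε) := by
  obtain ⟨C, hC0, h⟩ := hM ε hε
  refine ⟨C * A ^ (1 + ε), by positivity, ?_⟩
  intro t ht
  have ht0 : 0 < t := by linarith
  have hA0 : 0 < A := by linarith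
  have e1 : ∀ x : ℝ, ‖((ff (x * t) : ℝ) : ℂ)‖ₑ ^ 2 = ENNReal.ofReal (ff (x * t) ^ 2) := by
    intro x
    rw [← ofReal_norm, ← ENNReal.ofReal_pow (norm_nonneg _), Complex.norm_real,
      Real.norm_eq_abs, sq_abs]
  simp_rw [e1]
  have hcont : Continuous fun x : ℝ => ff (x * t) ^ 2 := by fun_prop
  have hAA : A⁻¹ ≤ A := (inv_le_one_of_one_le₀ hA).trans hA
  rw [nu, ← ofReal_integral_eq_lintegral_ofReal (hcont.integrableOn_Icc) (ae_of_all _ fun x => sq_nonneg _)]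
  apply ENNReal.ofReal_le_ofReal
  rw [integral_Icc_eq_integral_Ioc, ← intervalIntegral.integral_of_le hAA]
  rw [intervalIntegral.integral_comp_mul_right (fun u => ff u ^ 2) ht0.ne']
  have h1 := h (A * t) (by nlinarith)
  have h2 : ∫ u in (A⁻¹ * t)..(A * t), ff u ^ 2 ≤ ∫ u in (0 : ℝ)..(A * t), ff u ^ 2 := by
    apply intervalIntegral.integral_mono_interval (by positivity) (by nlinarith) le_rfl
    · exact ae_of_all _ fun x => sq_nonneg _
    · exact (hC.pow 2).intervalIntegrable _ _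
  have h3 : ∫ u in (A⁻¹ * t)..(A * t), ff u ^ 2 ≤ C * (A * t) ^ (1 + ε) := h2.trans h1
  rw [smul_eq_mul]
  calc t⁻¹ * ∫ u in (A⁻¹ * t)..(A * t), ff u ^ 2 ≤ t⁻¹ * (C * (A * t) ^ (1 + ε)) := by gcongr
    _ = C * A ^ (1 + ε) * t ^ ε := by
        rw [Real.mul_rpow hA0.le ht0.le, Real.rpow_add ht0 1 ε, Real.rpow_one]
        field_simp

lemma prod_cons {k : ℕ} (g : ℝ → ℝ) (x : ℝ) (y : Fin k → ℝ) (t : ℝ) :
    ∏ j : Fin (k + 1), g ((Fin.cons x y : Fin (k + 1) → ℝ) j * t) = g (x * t) * ∏ j, g (y j * t) := by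
  rw [Fin.prod_univ_succ]
  simp

lemma meas_prod {k : ℕ} {g : ℝ → ℝ} (hg : Measurable g) :
    Measurable fun p : (Fin k → ℝ) × ℝ => ∏ j, g (p.1 j * p.2) := by
  apply Finset.measurable_prod
  intro j _
  exact hg.comp (((measurable_pi_apply j).comp measurable_fst).mul measurable_snd)

lemma k_mom (hC : Continuous ff) (hM : S_M4) {A : ℝ} (hA : 1 ≤ A) (k : ℕ) : ∀ {ε : ℝ}, 0 < ε →
    ∃ C : ℝ, 0 < C ∧ ∀ t : ℝ, 1 ≤ t →
      ∫⁻ y, ‖((∏ j, ff (y j * t) : ℝ) : ℂ)‖ₑ ^ 2 ∂(muk k A) ≤ ENNReal.ofReal (C * t ^ ε) := by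
  induction k with
  | zero =>
    intro ε hε
    refine ⟨((muk 0 A) univ).toReal + 1, by positivity, ?_⟩
    intro t ht
    simp only [Finset.univ_eq_empty, Finset.prod_empty, ofReal_one, enorm_one, one_pow,
      lintegral_const, one_mul]
    have h1 : (1 : ℝ) ≤ t ^ ε := Real.one_le_rpow ht hε.le
    have h2 : (muk 0 A) univ ≠ ⊤ := measure_ne_top _ _
    rw [← ENNReal.ofReal_toReal h2]
    apply ENNReal.ofReal_le_ofReal
    have h3 : 0 ≤ ((muk 0 A) univ).toReal := ENNReal.toReal_nonneg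
    rw [ENNReal.ofReal_toReal h2]
    nlinarith
  | succ k ih =>
    intro ε hε
    obtain ⟨C1, hC1, h1⟩ := one_mom hC hM hA (half_pos hε)
    obtain ⟨C2, hC2, h2⟩ := ih (half_pos hε)
    refine ⟨C1 * C2, by positivity, ?_⟩
    intro t ht
    have ht0 : 0 < t := by linarith
    rw [lint_succ]
    have e1 : ∀ p : ℝ × (Fin k → ℝ),
        ‖((∏ j, ff ((Fin.cons p.1 p.2 : Fin (k + 1) → ℝ) j * t) : ℝ) : ℂ)‖ₑ ^ 2 =
        ‖((ff (p.1 * t) : ℝ) : ℂ)‖ₑ ^ 2 * ‖((∏ j, ff (p.2 j * t) : ℝ) : ℂ)‖ₑ ^ 2 := by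
      intro p
      rw [prod_cons, Complex.ofReal_mul, enorm_mul, mul_pow]
    simp_rw [e1]
    have m1 : Measurable fun x : ℝ => ‖((ff (x * t) : ℝ) : ℂ)‖ₑ ^ 2 := by
      have : Measurable fun x : ℝ => ff (x * t) := hC.measurable.comp (measurable_id.mul_const t)
      exact ((Complex.measurable_ofReal.comp this).enorm).pow_const 2
    have m2 : Measurable fun y : Fin k → ℝ => ‖((∏ j, ff (y j * t) : ℝ) : ℂ)‖ₑ ^ 2 := by
      have : Measurable fun y : Fin k → ℝ => ∏ j, ff (y j * t) := by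
        apply Finset.measurable_prod
        intro j _
        have hj : Measurable fun a : Fin k → ℝ => a j := measurable_pi_apply j
        exact hC.measurable.comp (hj.mul_const t)
      exact ((Complex.measurable_ofReal.comp this).enorm).pow_const 2
    rw [lintegral_prod_mul m1.aemeasurable m2.aemeasurable]
    refine (mul_le_mul' (h1 t ht) (h2 t ht)).trans (le_of_eq ?_)
    have e2 : t ^ ε = t ^ (ε / 2) * t ^ (ε / 2) := by
      rw [← Real.rpow_add ht0]; congr 1; ring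
    have e3 : 0 ≤ C1 * t ^ (ε / 2) := mul_nonneg hC1.le (Real.rpow_nonneg ht0.le _)
    rw [← ENNReal.ofReal_mul e3, e2]
    congr 1
    ring

end Dilk

end Pool.Agent.Helper30K1.GD
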