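import Pool.Agent.Helper30K1.GD.DILKa

set_option autoImplicit false

/-!
Project GD, piece DILK (helper40): several dilations.
-/

namespace Pool.Agent.Helper30K1.GD

open Complex Filter Topology MeasureTheory Set
open Pool.Agent.Y969.GP (ff V ht lam PS co PX)
open Pool.Agent.N879.GD

namespace Dilk

lemma log_bd {u ε : ℝ} (hu : 0 < u) (hε : 0 < ε) : |Real.log u| ≤ (u ^ ε + (u⁻¹) ^ ε) / ε := by
  have h1 := Real.log_le_rpow_div hu.le hε
  have h2 := Real.log_le_rpow_div (inv_pos.2 hu).le hε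
  rw [Real.log_inv] at h2
  have h3 : 0 ≤ u ^ ε / ε := by positivity
  have h4 : 0 ≤ (u⁻¹) ^ ε / ε := by positivity
  rw [abs_le, add_div]
  constructor <;> linarith

lemma D0_bd {A : ℝ} (hA : 1 ≤ A) {ε : ℝ} (hε : 0 < ε) : ∃ C : ℝ, 0 < C ∧ ∀ T t x : ℝ, 1 ≤ T →
    t ∈ Icc T (2 * T) → x ∈ Icc A⁻¹ A → |D0 (x * t)| ≤ C * T ^ ε := by
  refine ⟨((2 * A) ^ ε + A ^ ε) / ε + |Real.log (2 * Real.pi)| + |2 * Real.eulerMascheroniConstant|,
    by positivity, ?_⟩
  intro T t x hT ht hx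
  have hA0 : 0 < A := by linarith
  have hx0 : 0 < x := (inv_pos.2 hA0).trans_le hx.1
  have ht0 : 0 < t := by linarith [ht.1]
  have hT0 : 0 < T := by linarith
  have hu : 0 < x * t := by positivity
  have hTe : 1 ≤ T ^ ε := Real.one_le_rpow hT hε.le
  unfold D0
  rw [Real.log_div hu.ne' (by positivity)]
  have h1 := log_bd hu hε
  have h2 : x * t ≤ 2 * A * T := by
    calc x * t ≤ A * (2 * T) := mul_le_mul hx.2 ht.2 ht0.le hA0.le
      _ = _ := by ring
  have h3 : (x * t)⁻¹ ≤ A := by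
    have h4 : A⁻¹ ≤ x * t := by
      calc A⁻¹ = A⁻¹ * 1 := by ring
        _ ≤ x * t := mul_le_mul hx.1 (hT.trans ht.1) zero_le_one hx0.le
    calc (x * t)⁻¹ ≤ (A⁻¹)⁻¹ := inv_anti₀ (inv_pos.2 hA0) h4
      _ = A := inv_inv A
  have h5 : (x * t) ^ ε ≤ (2 * A) ^ ε * T ^ ε := by
    rw [← Real.mul_rpow (by positivity) hT0.le]
    exact Real.rpow_le_rpow hu.le h2 hε.le
  have h6 : ((x * t)⁻¹) ^ ε ≤ A ^ ε * T ^ ε := by
    calc ((x * t)⁻¹) ^ ε ≤ A ^ ε := Real.rpow_le_rpow (inv_pos.2 hu).le h3 hε.le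
      _ ≤ A ^ ε * T ^ ε := le_mul_of_one_le_right (by positivity) hTe
  have h7 : |Real.log (x * t)| ≤ ((2 * A) ^ ε + A ^ ε) / ε * T ^ ε := by
    refine h1.trans ?_
    rw [div_mul_eq_mul_div, add_mul]
    exact div_le_div_of_nonneg_right (add_le_add h5 h6) hε.le
  have h8 : |Real.log (2 * Real.pi)| ≤ |Real.log (2 * Real.pi)| * T ^ ε :=
    le_mul_of_one_le_right (abs_nonneg _) hTe
  have h9 : |2 * Real.eulerMascheroniConstant| ≤ |2 * Real.eulerMascheroniConstant| * T ^ ε :=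
    le_mul_of_one_le_right (abs_nonneg _) hTe
  calc |Real.log (x * t) - Real.log (2 * Real.pi) + 2 * Real.eulerMascheroniConstant|
      ≤ |Real.log (x * t)| + |Real.log (2 * Real.pi)| + |2 * Real.eulerMascheroniConstant| :=
        (abs_add_le _ _).trans (add_le_add_left (abs_sub _ _) _)
    _ ≤ _ := by rw [add_mul, add_mul]; linarith

lemma dif_cons {k : ℕ} (x : ℝ) (y : Fin k → ℝ) (t : ℝ) :
    dif (Fin.cons x y : Fin (k + 1) → ℝ) t =
      (∏ j, ff (y j * t)) * (ff (x * t) - D0 (x * t)) + D0 (x * t) * dif y t := by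
  unfold dif
  rw [prod_cons, prod_cons]
  ring

section
variable {k : ℕ} (T : ℝ) (F : ℝ → ℂ)

/-- first part -/
noncomputable def I1 (p : ℝ × (Fin k → ℝ)) : ℂ :=
  ∫ t in Icc T (2 * T), (F t * ((∏ j, ff (p.2 j * t) : ℝ) : ℂ)) *
    ((ff (p.1 * t) - D0 (p.1 * t) : ℝ) : ℂ)

/-- second part -/
noncomputable def I2 (p : ℝ × (Fin k → ℝ)) : ℂ :=
  ∫ t in Icc T (2 * T), (F t * ((D0 (p.1 * t) : ℝ) : ℂ)) * ((dif p.2 t : ℝ) : ℂ)

variable {T F}

lemma meas_prod3 {g : ℝ → ℝ} (hg : Measurable g) :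
    Measurable fun q : (ℝ × (Fin k → ℝ)) × ℝ => ∏ j, g (q.1.2 j * q.2) := by
  apply Finset.measurable_prod
  intro j _
  have hj : Measurable fun q : (ℝ × (Fin k → ℝ)) × ℝ => q.1.2 j :=
    (measurable_pi_apply j).comp (measurable_snd.comp measurable_fst)
  exact hg.comp (hj.mul measurable_snd)

lemma meas_dif3 (hC : Continuous ff) :
    Measurable fun q : (ℝ × (Fin k → ℝ)) × ℝ => dif q.1.2 q.2 :=
  (meas_prod3 hC.measurable).sub (meas_prod3 meas_D0)

lemma meas_I1 (hC : Continuous ff) (hF : Measurable F) : Measurable (I1 (k := k) T F) := by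
  have h1 : Measurable fun q : (ℝ × (Fin k → ℝ)) × ℝ => (F q.2 * ((∏ j, ff (q.1.2 j * q.2) : ℝ) : ℂ)) *
    ((ff (q.1.1 * q.2) - D0 (q.1.1 * q.2) : ℝ) : ℂ) := by
    have a1 : Measurable fun q : (ℝ × (Fin k → ℝ)) × ℝ => F q.2 := hF.comp measurable_snd
    have a3 : Measurable fun q : (ℝ × (Fin k → ℝ)) × ℝ => ∏ j, ff (q.1.2 j * q.2) :=
      meas_prod3 hC.measurable
    have a4 : Measurable fun q : (ℝ × (Fin k → ℝ)) × ℝ => q.1.1 * q.2 :=
      (measurable_fst.comp measurable_fst).mul measurable_snd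
    have a5 : Measurable fun q : (ℝ × (Fin k → ℝ)) × ℝ => ff (q.1.1 * q.2) - D0 (q.1.1 * q.2) :=
      (hC.measurable.comp a4).sub (meas_D0.comp a4)
    exact (a1.mul (Complex.measurable_ofReal.comp a3)).mul (Complex.measurable_ofReal.comp a5)
  exact (h1.stronglyMeasurable.integral_prod_right (ν := volume.restrict (Icc T (2 * T)))).measurable

lemma meas_I2 (hC : Continuous ff) (hF : Measurable F) : Measurable (I2 (k := k) T F) := by
  have h1 : Measurable fun q : (ℝ × (Fin k → ℝ)) × ℝ => (F q.2 * ((D0 (q.1.1 * q.2) : ℝ) : ℂ)) *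
      ((dif q.1.2 q.2 : ℝ) : ℂ) := by
    have a1 : Measurable fun q : (ℝ × (Fin k → ℝ)) × ℝ => F q.2 := hF.comp measurable_snd
    have a3 : Measurable fun q : (ℝ × (Fin k → ℝ)) × ℝ => dif q.1.2 q.2 := meas_dif3 hC
    have a4 : Measurable fun q : (ℝ × (Fin k → ℝ)) × ℝ => q.1.1 * q.2 :=
      (measurable_fst.comp measurable_fst).mul measurable_snd
    exact (a1.mul (Complex.measurable_ofReal.comp (meas_D0.comp a4))).mul
      (Complex.measurable_ofReal.comp a3)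
  exact (h1.stronglyMeasurable.integral_prod_right (ν := volume.restrict (Icc T (2 * T)))).measurable

lemma cont_ff (hC : Continuous ff) (x : ℝ) : Continuous fun t : ℝ => ff (x * t) :=
  hC.comp (continuous_const.mul continuous_id)

lemma contOn_D0 (hT : 0 < T) {x : ℝ} (hx : 0 < x) : ContinuousOn (fun t : ℝ => D0 (x * t)) (Icc T (2 * T)) := by
  unfold D0
  apply ContinuousOn.add _ continuousOn_const
  apply ContinuousOn.log
  · fun_prop
  · intro t ht
    have : 0 < t := hT.trans_le ht.1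
    positivity

lemma contOn_dif (hC : Continuous ff) (hT : 0 < T) {y : Fin k → ℝ} (hy : ∀ j, 0 < y j) :
    ContinuousOn (fun t : ℝ => dif y t) (Icc T (2 * T)) := by
  unfold dif
  apply ContinuousOn.sub
  · exact continuousOn_finsetProd _ fun j _ => (cont_ff hC _).continuousOn
  · exact continuousOn_finsetProd _ fun j _ => contOn_D0 hT (hy j)

lemma int_F (hF : Measurable F) (hS : ∫⁻ t in Icc T (2 * T), ‖F t‖ₑ ^ 2 ≠ ⊤) :
    IntegrableOn F (Icc T (2 * T)) := by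
  have h1 : MemLp F 2 (volume.restrict (Icc T (2 * T))) := by
    refine ⟨hF.aestronglyMeasurable, ?_⟩
    rw [eLpNorm_lt_top_iff_lintegral_rpow_enorm_lt_top (by norm_num) (by norm_num)]
    have e : (2 : ENNReal).toReal = ((2 : ℕ) : ℝ) := by norm_num
    simp_rw [e, ENNReal.rpow_natCast]
    exact lt_top_iff_ne_top.2 hS
  exact h1.integrable (by norm_num)

lemma split (hC : Continuous ff) (hT : 0 < T) (hF : Measurable F)
    (hS : ∫⁻ t in Icc T (2 * T), ‖F t‖ₑ ^ 2 ≠ ⊤) {p : ℝ × (Fin k → ℝ)} (hp : 0 < p.1)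
    (hp2 : ∀ j, 0 < p.2 j) :
    ∫ t in Icc T (2 * T), F t * ((dif (Fin.cons p.1 p.2 : Fin (k + 1) → ℝ) t : ℝ) : ℂ) =
      I1 T F p + I2 T F p := by
  have hFi := int_F hF hS
  have c1 : ContinuousOn (fun t : ℝ => ((∏ j, ff (p.2 j * t) : ℝ) : ℂ)) (Icc T (2 * T)) :=
    Complex.continuous_ofReal.comp_continuousOn
      (continuousOn_finsetProd _ fun j _ => (cont_ff hC _).continuousOn)
  have c2 : ContinuousOn (fun t : ℝ => ((ff (p.1 * t) - D0 (p.1 * t) : ℝ) : ℂ)) (Icc T (2 * T)) :=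
    Complex.continuous_ofReal.comp_continuousOn ((cont_ff hC _).continuousOn.sub (contOn_D0 hT hp))
  have c3 : ContinuousOn (fun t : ℝ => ((D0 (p.1 * t) : ℝ) : ℂ)) (Icc T (2 * T)) :=
    Complex.continuous_ofReal.comp_continuousOn (contOn_D0 hT hp)
  have c4 : ContinuousOn (fun t : ℝ => ((dif p.2 t : ℝ) : ℂ)) (Icc T (2 * T)) :=
    Complex.continuous_ofReal.comp_continuousOn (contOn_dif hC hT hp2)
  have i1 := (hFi.mul_continuousOn c1 isCompact_Icc).mul_continuousOn c2 isCompact_Icc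
  have i2 := (hFi.mul_continuousOn c3 isCompact_Icc).mul_continuousOn c4 isCompact_Icc
  unfold I1 I2
  rw [← integral_add i1 i2]
  apply integral_congr_ae
  refine ae_of_all _ fun t => ?_
  simp only
  rw [dif_cons]
  push_cast
  ring

end

lemma sq_add_le (a b : ℂ) : ‖a + b‖ₑ ^ 2 ≤ 2 * ‖a‖ₑ ^ 2 + 2 * ‖b‖ₑ ^ 2 := by
  have e : ∀ z : ℂ, ‖z‖ₑ ^ 2 = ENNReal.ofReal (‖z‖ ^ 2) := by
    intro z
    rw [← ofReal_norm, ← ENNReal.ofReal_pow (norm_nonneg _)]
  have e2 : (2 : ENNReal) = ENNReal.ofReal 2 := by norm_num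
  rw [e, e, e, e2, ← ENNReal.ofReal_mul (by norm_num), ← ENNReal.ofReal_mul (by norm_num),
    ← ENNReal.ofReal_add (by positivity) (by positivity)]
  apply ENNReal.ofReal_le_ofReal
  have h := norm_add_le a b
  have h0 := norm_nonneg (a + b)
  nlinarith [sq_nonneg (‖a‖ - ‖b‖), norm_nonneg a, norm_nonneg b]

end Dilk

end Pool.Agent.Helper30K1.GD
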