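import Pool.Agent.N879.GD.Stm
import Pool.Agent.H581R3.GPR.Rot

set_option autoImplicit false

/-!
Project GD: the closed form and the bound of `GG` (GF, GAM, GK).
-/

namespace Pool.Agent.Helper30K1.GD

open Complex Filter Topology MeasureTheory Set
open Pool.Agent.N879.GD

noncomputable section

theorem t_GF : S_GF := by
  intro b T x ω hb hT
  have hb1 : (1 : ℝ) ≤ b := by exact_mod_cast hb
  have hT0 : T ≠ 0 := hT.ne'
  constructor
  · have h := integrableOn_rpow_mul_exp_neg_mul_rpow (p := 1) (s := (b : ℝ) - 1) (b := 1 / T)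
      (by linarith) one_pos (by positivity)
    refine (IntegrableOn.congr_fun (h.const_mul ((T ^ b)⁻¹)) ?_ measurableSet_Ioi)
    intro u hu
    have hu0 : (0 : ℝ) < u := hu
    simp only [Real.rpow_one]
    rw [Real.rpow_sub_one hu0.ne', Real.rpow_natCast, div_pow]
    rw [show -(1 / T) * u = -(u / T) by ring]
    field_simp
  · have hr : 0 < ((T : ℂ)⁻¹ - I * x).re := by
      simp only [sub_re, mul_re, I_re, I_im, ofReal_re, ofReal_im, zero_mul, mul_zero, sub_zero]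
      rw [← ofReal_inv, ofReal_re]
      positivity
    have ha : 0 < ((b : ℂ) - I * ω).re := by
      simp only [sub_re, mul_re, I_re, I_im, ofReal_re, ofReal_im, zero_mul, mul_zero, sub_zero,
        natCast_re]
      linarith
    have key := Pool.Agent.H581R3.GPR.Rot.rot_formula ha hr
    have hz0 : ((T : ℂ)⁻¹ - I * x) ≠ 0 := by
      intro h
      rw [h] at hr
      simp at hr
    have harg : arg ((T : ℂ)⁻¹ - I * x) ≠ Real.pi := by
      intro h
      have := (abs_arg_lt_pi_div_two_iff.2 (Or.inl hr))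
      rw [h, abs_of_pos Real.pi_pos] at this
      linarith [Real.pi_pos]
    have hpow : (1 / ((T : ℂ)⁻¹ - I * x)) ^ ((b : ℂ) - I * ω) =
        cexp (-((b : ℂ) - I * ω) * Complex.log ((T : ℂ)⁻¹ - I * x)) := by
      rw [one_div, cpow_def_of_ne_zero (inv_ne_zero hz0), log_inv _ harg]
      congr 1
      ring
    rw [← hpow]
    have hgg : GG b T x ω = ∫ u in Ioi (0 : ℝ), ((T : ℂ) ^ b)⁻¹ *
        ((u : ℂ) ^ (((b : ℂ) - I * ω) - 1) * cexp (-(((T : ℂ)⁻¹ - I * x) * u))) := by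
      unfold GG
      apply setIntegral_congr_fun measurableSet_Ioi
      intro u hu
      have hu0 : (0 : ℝ) < u := hu
      have huc : (u : ℂ) ≠ 0 := by exact_mod_cast hu0.ne'
      have hTc : (T : ℂ) ≠ 0 := by exact_mod_cast hT0
      simp only
      rw [cpow_def_of_ne_zero huc, ← ofReal_log hu0.le]
      have e1 : (u : ℂ) ^ b = cexp ((b : ℂ) * (Real.log u : ℝ)) := by
        rw [Complex.exp_nat_mul, ← ofReal_exp, Real.exp_log hu0]
      have e2 : (u : ℂ)⁻¹ = cexp (-(Real.log u : ℝ)) := by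
        rw [Complex.exp_neg, ← ofReal_exp, Real.exp_log hu0]
      push_cast
      rw [div_pow, div_eq_mul_inv _ (u : ℂ), e2, div_eq_mul_inv ((u : ℂ) ^ b), e1]
      have e3 : cexp ((b : ℂ) * (Real.log u : ℝ)) * ((T : ℂ) ^ b)⁻¹ * cexp (-((u : ℂ) / T)) *
          cexp (-(Real.log u : ℝ)) * cexp (I * ((u : ℂ) * x - ω * (Real.log u : ℝ))) =
          ((T : ℂ) ^ b)⁻¹ * (cexp ((b : ℂ) * (Real.log u : ℝ)) * cexp (-((u : ℂ) / T)) *
          cexp (-(Real.log u : ℝ)) * cexp (I * ((u : ℂ) * x - ω * (Real.log u : ℝ)))) := by ring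
      rw [e3]
      congr 1
      rw [← Complex.exp_add, ← Complex.exp_add, ← Complex.exp_add, ← Complex.exp_add]
      congr 1
      field_simp
      ring
    rw [hgg, integral_const_mul, key]
    ring

/-- `|Γ(1-iω)|² ≤ 2 π (1+|ω|) e^(-π|ω|)` -/
lemma gam1 (ω : ℝ) : ‖Gamma (1 - I * ω)‖ ^ 2 ≤
    2 * Real.pi * (1 + |ω|) * Real.exp (-(Real.pi * |ω|)) := by
  have hπ := Real.pi_gt_three
  by_cases h0 : ω = 0
  · rw [h0]
    simp
    linarith
  have hconj : Gamma (1 + I * ω) = (starRingEnd ℂ) (Gamma (1 - I * ω)) := by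
    rw [← Gamma_conj]
    congr 1
    simp
  have hn : ‖Gamma (1 + I * ω)‖ = ‖Gamma (1 - I * ω)‖ := by
    rw [hconj, norm_conj]
  have h1 : ‖Gamma (1 - I * ω)‖ ^ 2 = ‖Gamma (1 + I * ω) * Gamma (1 - I * ω)‖ := by
    rw [norm_mul, hn]
    ring
  have hI : I * (ω : ℂ) ≠ 0 := mul_ne_zero I_ne_zero (by exact_mod_cast h0)
  have h2 : Gamma (1 + I * ω) * Gamma (1 - I * ω) = I * ω * (Real.pi / sin (Real.pi * (I * ω))) := by
    rw [← Gamma_mul_Gamma_one_sub, add_comm, Gamma_add_one _ hI]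
    ring
  have h3 : sin (Real.pi * (I * ω)) = Complex.sinh (Real.pi * ω) * I := by
    rw [show (Real.pi : ℂ) * (I * ω) = (Real.pi * ω) * I by ring, sin_mul_I]
  have hsh : Complex.sinh (Real.pi * ω) = ((Real.sinh (Real.pi * ω) : ℝ) : ℂ) := by
    push_cast
    rfl
  have h4 : ‖Gamma (1 - I * ω)‖ ^ 2 = Real.pi * |ω| / Real.sinh (Real.pi * |ω|) := by
    rw [h1, h2, h3, hsh, norm_mul, norm_mul, norm_div, norm_mul, norm_I, norm_real, norm_real,
      norm_real]
    have e1 : ‖Real.sinh (Real.pi * ω)‖ = Real.sinh (Real.pi * |ω|) := by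
      rw [Real.norm_eq_abs, Real.abs_sinh, abs_mul, abs_of_pos Real.pi_pos]
    rw [e1, Real.norm_eq_abs, Real.norm_eq_abs, abs_of_pos Real.pi_pos]
    ring
  rw [h4]
  set y := Real.pi * |ω| with hy
  have hy0 : 0 < y := by positivity
  have h5 : 0 < Real.sinh y := Real.sinh_pos_iff.2 hy0
  rw [div_le_iff₀ h5, Real.sinh_eq]
  have h6 : 1 + 2 * y ≤ Real.exp (2 * y) := by
    have := Real.add_one_le_exp (2 * y)
    linarith
  have h7 : Real.exp (-y) * Real.exp y = 1 := by rw [← Real.exp_add]; simp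
  have h8 : Real.exp (-y) * Real.exp (-y) * Real.exp (2 * y) = 1 := by
    rw [← Real.exp_add, ← Real.exp_add]
    simp
    ring
  have h9 : 0 < Real.exp (-y) * Real.exp (-y) := by positivity
  set E := Real.exp (-y) * Real.exp (-y) with hE
  have h10 : E * (1 + 2 * y) ≤ 1 := by
    calc E * (1 + 2 * y) ≤ E * Real.exp (2 * y) := mul_le_mul_of_nonneg_left h6 h9.le
      _ = 1 := h8
  have h11 : 1 + 2 * y ≤ 2 * Real.pi * (1 + |ω|) := by
    rw [hy]
    nlinarith [abs_nonneg ω]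
  have h12 : Real.exp (-y) * ((Real.exp y - Real.exp (-y)) / 2) = (1 - E) / 2 := by
    rw [hE, ← h7]
    ring
  have h13 : E ≤ 1 := by nlinarith
  calc y ≤ (1 + 2 * y) * ((1 - E) / 2) := by nlinarith
    _ ≤ 2 * Real.pi * (1 + |ω|) * ((1 - E) / 2) := by
        apply mul_le_mul_of_nonneg_right h11
        linarith
    _ = _ := by
        rw [← h12]
        ring

theorem t_GAM : S_GAM := by
  intro b hb
  induction b, hb using Nat.le_induction with
  | base =>
    refine ⟨√(2 * Real.pi), by positivity, fun ω => ?_⟩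
    have h := gam1 ω
    have hω : 0 ≤ |ω| := abs_nonneg ω
    have h1 : √(2 * Real.pi) * (1 + |ω|) ^ (((1 : ℕ) : ℝ) - 1 / 2) *
        Real.exp (-(Real.pi * |ω| / 2)) =
        √(2 * Real.pi * (1 + |ω|) * Real.exp (-(Real.pi * |ω|))) := by
      rw [Real.sqrt_mul (show 0 ≤ 2 * Real.pi * (1 + |ω|) by positivity),
        Real.sqrt_mul (show 0 ≤ 2 * Real.pi by positivity), Real.sqrt_eq_rpow (1 + |ω|)]
      congr 1
      · congr 1
        congr 1
        norm_num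
      · rw [show -(Real.pi * |ω|) = -(Real.pi * |ω| / 2) + -(Real.pi * |ω| / 2) by ring,
          Real.exp_add, Real.sqrt_mul_self (Real.exp_pos _).le]
    rw [h1, Nat.cast_one]
    exact Real.le_sqrt_of_sq_le h
  | succ b hb ih =>
    obtain ⟨C, hC, H⟩ := ih
    have hb1 : (1 : ℝ) ≤ b := by exact_mod_cast hb
    refine ⟨b * C, by positivity, fun ω => ?_⟩
    have hω : 0 ≤ |ω| := abs_nonneg ω
    have hne : (b : ℂ) - I * ω ≠ 0 := by
      intro h
      have := congrArg re h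
      simp at this
      omega
    have e1 : ((b + 1 : ℕ) : ℂ) - I * ω = ((b : ℂ) - I * ω) + 1 := by
      push_cast
      ring
    rw [e1, Gamma_add_one _ hne, norm_mul]
    have h1 : ‖(b : ℂ) - I * ω‖ ≤ b * (1 + |ω|) := by
      calc ‖(b : ℂ) - I * ω‖ ≤ ‖(b : ℂ)‖ + ‖I * (ω : ℂ)‖ := norm_sub_le _ _
        _ = b + |ω| := by
            rw [norm_mul, norm_I, one_mul, norm_real, Complex.norm_natCast, Real.norm_eq_abs]
        _ ≤ b * (1 + |ω|) := by nlinarith
    have h2 : (1 + |ω|) ^ (((b + 1 : ℕ) : ℝ) - 1 / 2) =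
        (1 + |ω|) ^ ((b : ℝ) - 1 / 2) * (1 + |ω|) := by
      rw [← Real.rpow_add_one (by positivity)]
      congr 1
      push_cast
      ring
    rw [h2]
    calc ‖(b : ℂ) - I * ω‖ * ‖Gamma ((b : ℂ) - I * ω)‖ ≤ b * (1 + |ω|) *
        (C * (1 + |ω|) ^ ((b : ℝ) - 1 / 2) * Real.exp (-(Real.pi * |ω| / 2))) :=
          mul_le_mul h1 (H ω) (norm_nonneg _) (by positivity)
      _ = _ := by ring

/-- the argument of `1/T - ix` -/
lemma arg_bd {T x : ℝ} (hT : 0 < T) (hx : 1 ≤ |x| * T) :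
    |arg ((T : ℂ)⁻¹ - I * x)| ≤ Real.pi / 2 - 1 / (2 * (|x| * T)) := by
  set z : ℂ := (T : ℂ)⁻¹ - I * x with hz
  have hre : z.re = T⁻¹ := by
    rw [hz, ← ofReal_inv]
    simp
  have him : z.im = -x := by
    rw [hz, ← ofReal_inv]
    simp
  have hre0 : 0 ≤ z.re := by rw [hre]; positivity
  have hxT : 0 < |x| * T := by linarith
  have hx0 : 0 < |x| := by
    by_contra h
    push Not at h
    nlinarith
  set δ : ℝ := 1 / (2 * (|x| * T)) with hδ
  have hδ0 : 0 < δ := by positivity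
  have hδ1 : δ ≤ 1 / 2 := by
    rw [hδ, div_le_div_iff₀ (by positivity) (by norm_num)]
    linarith
  have hzn : ‖z‖ ^ 2 = x ^ 2 * (1 + 4 * δ ^ 2) := by
    rw [← normSq_eq_norm_sq, normSq_apply, hre, him, hδ]
    have : x ≠ 0 := abs_pos.1 hx0
    have h2 : |x| ^ 2 = x ^ 2 := sq_abs x
    field_simp
    rw [h2]
    ring
  have hzpos : 0 < ‖z‖ := by
    rw [norm_pos_iff]
    intro h
    rw [h] at hre
    simp at hre
    exact hT.ne' hre.symm
  have hs : |z.im / ‖z‖| ≤ Real.cos δ := by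
    have hc : 1 - δ ^ 2 / 2 ≤ Real.cos δ := Real.one_sub_sq_div_two_le_cos
    refine le_trans ?_ hc
    rw [abs_div, abs_of_pos hzpos, div_le_iff₀ hzpos, him, abs_neg]
    have h1 : 0 ≤ (1 - δ ^ 2 / 2) := by nlinarith
    refine (pow_le_pow_iff_left₀ (abs_nonneg x) (by positivity) two_ne_zero).1 ?_
    rw [mul_pow, hzn, sq_abs]
    have hx2 : 0 ≤ x ^ 2 := sq_nonneg x
    have hδ2 : 0 < δ ^ 2 := by positivity
    have hδ3 : δ ^ 2 ≤ 1 / 4 := by nlinarith
    have h2 : 1 ≤ (1 - δ ^ 2 / 2) ^ 2 * (1 + 4 * δ ^ 2) := by nlinarith [mul_pos hδ2 hδ2]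
    nlinarith [mul_le_mul_of_nonneg_left h2 hx2]
  rw [arg_of_re_nonneg hre0]
  have hπ := Real.pi_gt_three
  have hcs : Real.sin (Real.pi / 2 - δ) = Real.cos δ := Real.sin_pi_div_two_sub δ
  rw [abs_le] at hs ⊢
  constructor
  · rw [Real.le_arcsin_iff_sin_le' ⟨by linarith, by linarith⟩, Real.sin_neg, hcs]
    exact hs.1
  · rw [Real.arcsin_le_iff_le_sin' ⟨by linarith, by linarith⟩, hcs]
    exact hs.2

theorem t_GK : S_GK := by
  intro b hb
  obtain ⟨C, hC, H⟩ := t_GAM b hb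
  refine ⟨C, hC, fun T x ω hT hx => ?_⟩
  rw [(t_GF b T x ω hb hT).2]
  have hω : 0 ≤ |ω| := abs_nonneg ω
  have hxT : 0 < |x| * T := by linarith
  have hx0 : 0 < |x| := by
    by_contra h
    push Not at h
    nlinarith
  have harg := arg_bd hT hx
  have hre : ((T : ℂ)⁻¹ - I * x).re = T⁻¹ := by
    rw [← ofReal_inv]
    simp
  have him : ((T : ℂ)⁻¹ - I * x).im = -x := by
    rw [← ofReal_inv]
    simp
  have hzx : |x| ≤ ‖(T : ℂ)⁻¹ - I * x‖ := by
    have h := abs_im_le_norm ((T : ℂ)⁻¹ - I * x)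
    rwa [him, abs_neg] at h
  set z : ℂ := (T : ℂ)⁻¹ - I * x with hz
  have hz0 : 0 < ‖z‖ := by linarith
  have h1 : ‖cexp (-((b : ℂ) - I * ω) * Complex.log z)‖ =
      Real.exp (-(b * Real.log ‖z‖)) * Real.exp (-(ω * arg z)) := by
    rw [norm_exp, ← Real.exp_add]
    congr 1
    simp [log_re, log_im]
    ring
  have h2 : Real.exp (-(b * Real.log ‖z‖)) = (‖z‖ ^ b)⁻¹ := by
    rw [Real.exp_neg, Real.exp_nat_mul, Real.exp_log hz0]
  have h3 : (‖z‖ ^ b)⁻¹ ≤ (|x| ^ b)⁻¹ := by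
    apply inv_anti₀ (by positivity)
    exact pow_le_pow_left₀ hx0.le hzx b
  have h4 : Real.exp (-(ω * arg z)) ≤ Real.exp (|ω| * (Real.pi / 2 - 1 / (2 * (|x| * T)))) := by
    apply Real.exp_le_exp.2
    calc -(ω * arg z) ≤ |ω * arg z| := neg_le_abs _
      _ = |ω| * |arg z| := abs_mul _ _
      _ ≤ _ := mul_le_mul_of_nonneg_left harg hω
  have h5 : ‖((T : ℂ) ^ b)⁻¹‖ = (T ^ b)⁻¹ := by
    rw [norm_inv, norm_pow, norm_real, Real.norm_of_nonneg hT.le]
  rw [norm_mul, norm_mul, h5, h1, h2]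
  have h6 : (1 + |ω|) ^ ((b : ℝ) - 1 / 2) = (1 + |ω|) ^ (-(1 / 2 : ℝ)) * (1 + |ω|) ^ b := by
    rw [← Real.rpow_natCast (1 + |ω|) b, ← Real.rpow_add (by positivity)]
    congr 1
    ring
  have h7 : Real.exp (-(Real.pi * |ω| / 2)) *
      Real.exp (|ω| * (Real.pi / 2 - 1 / (2 * (|x| * T)))) = Real.exp (-(|ω| / (2 * (|x| * T)))) := by
    rw [← Real.exp_add]
    congr 1
    ring
  calc (T ^ b)⁻¹ * ‖Gamma ((b : ℂ) - I * ω)‖ * ((‖z‖ ^ b)⁻¹ * Real.exp (-(ω * arg z))) ≤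
      (T ^ b)⁻¹ * (C * (1 + |ω|) ^ ((b : ℝ) - 1 / 2) * Real.exp (-(Real.pi * |ω| / 2))) *
        ((|x| ^ b)⁻¹ * Real.exp (|ω| * (Real.pi / 2 - 1 / (2 * (|x| * T))))) := by
        apply mul_le_mul
        · exact mul_le_mul_of_nonneg_left (H ω) (by positivity)
        · exact mul_le_mul h3 h4 (Real.exp_pos _).le (by positivity)
        · positivity
        · positivity
    _ = C * (1 + |ω|) ^ (-(1 / 2 : ℝ)) * ((1 + |ω|) ^ b * (T ^ b)⁻¹ * (|x| ^ b)⁻¹) *
        (Real.exp (-(Real.pi * |ω| / 2)) *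
          Real.exp (|ω| * (Real.pi / 2 - 1 / (2 * (|x| * T))))) := by
        rw [h6]
        ring
    _ = _ := by
        rw [h7, div_pow, mul_pow, div_eq_mul_inv ((1 + |ω|) ^ b), mul_inv]
        ring

end

end Pool.Agent.Helper30K1.GD
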