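import Pool.Agent.N879.GD.Cru

set_option autoImplicit false

/-!
Project GD, piece MB: measure of the bad set (Chebyshev), helper44.
-/

namespace Pool.Agent.Helper30K1.GD

open Filter Topology MeasureTheory Set
open Pool.Agent.N879.GD
open Pool.Agent.Y969.GP (ff)
open scoped ENNReal

namespace MB

lemma meas_dif (k : ℕ) : Measurable (fun q : (Fin k → ℝ) × ℝ => dif q.1 q.2) := by
  obtain ⟨_, _, _, hc, _⟩ := t_CRU
  unfold dif D0
  refine Measurable.sub ?_ ?_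
  · refine Finset.measurable_prod _ fun j _ => ?_
    refine hc.measurable.comp ?_
    fun_prop
  · refine Finset.measurable_prod _ fun j _ => ?_
    refine Measurable.add_const ?_ _
    refine Real.measurable_log.comp ?_
    fun_prop

lemma meas_int {k : ℕ} {F : ℝ → ℂ} (hF : Measurable F) (a b : ℝ) :
    StronglyMeasurable (fun l : Fin k → ℝ => ∫ t in Icc a b, F t * ((dif l t : ℝ) : ℂ)) := by
  have hf : StronglyMeasurable
      (fun q : (Fin k → ℝ) × ℝ => F q.2 * ((dif q.1 q.2 : ℝ) : ℂ)) :=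
    ((hF.comp measurable_snd).mul (Complex.measurable_ofReal.comp (meas_dif k))).stronglyMeasurable
  exact hf.integral_prod_right'

lemma cheb {k : ℕ} {F : ℝ → ℂ} (hF : Measurable F) {A T a b s : ℝ} {D : ℝ≥0∞} (ha : T ≤ a)
    (hb : b ≤ 2 * T) (hs : 0 < s)
    (hP : ∀ G : ℝ → ℂ, Measurable G → ∫⁻ l in Icc (fun _ : Fin k => A⁻¹) (fun _ => A),
      ‖∫ t in Icc T (2 * T), G t * ((dif l t : ℝ) : ℂ)‖ₑ ^ 2 ≤
      D * ∫⁻ t in Icc T (2 * T), ‖G t‖ₑ ^ 2) :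
    volume {l : Fin k → ℝ | (∀ j, A⁻¹ ≤ l j ∧ l j ≤ A) ∧ s < JJ F l a b} ≤
      D * (∫⁻ t in Icc T (2 * T), ‖F t‖ₑ ^ 2) / ENNReal.ofReal (s ^ 2) := by
  set Box : Set (Fin k → ℝ) := Icc (fun _ : Fin k => A⁻¹) (fun _ => A) with hBox
  set g : (Fin k → ℝ) → ℂ := fun l => ∫ t in Icc a b, F t * ((dif l t : ℝ) : ℂ) with hg
  have hgm : StronglyMeasurable g := meas_int hF a b
  have hsub : {l : Fin k → ℝ | (∀ j, A⁻¹ ≤ l j ∧ l j ≤ A) ∧ s < JJ F l a b} ⊆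
      {l | ENNReal.ofReal (s ^ 2) ≤ ‖g l‖ₑ ^ 2} ∩ Box := by
    rintro l ⟨h1, h2⟩
    refine ⟨?_, ⟨fun j => (h1 j).1, fun j => (h1 j).2⟩⟩
    change s < ‖g l‖ at h2
    change ENNReal.ofReal (s ^ 2) ≤ ‖g l‖ₑ ^ 2
    rw [← ofReal_norm, ← ENNReal.ofReal_pow (norm_nonneg _)]
    exact ENNReal.ofReal_le_ofReal (pow_le_pow_left₀ hs.le h2.le 2)
  refine (measure_mono hsub).trans ?_
  rw [← Measure.restrict_apply' (measurableSet_Icc : MeasurableSet Box)]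
  have hne : ENNReal.ofReal (s ^ 2) ≠ 0 := by
    rw [Ne, ENNReal.ofReal_eq_zero, not_le]
    positivity
  refine (meas_ge_le_lintegral_div (hgm.measurable.enorm.pow_const 2).aemeasurable hne
    ENNReal.ofReal_ne_top).trans ?_
  refine ENNReal.div_le_div_right ?_ _
  have hG := hP (indicator (Icc a b) F) (hF.indicator measurableSet_Icc)
  have e1 : ∀ l : Fin k → ℝ, ∫ t in Icc T (2 * T), indicator (Icc a b) F t * ((dif l t : ℝ) : ℂ) =
      g l := by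
    intro l
    have e2 : (fun t => indicator (Icc a b) F t * ((dif l t : ℝ) : ℂ)) =
        indicator (Icc a b) (fun t => F t * ((dif l t : ℝ) : ℂ)) := by
      funext t
      by_cases ht : t ∈ Icc a b
      · rw [indicator_of_mem ht, indicator_of_mem ht]
      · rw [indicator_of_notMem ht, indicator_of_notMem ht, zero_mul]
    rw [e2, setIntegral_indicator measurableSet_Icc, inter_eq_right.2 (Icc_subset_Icc ha hb)]
  simp only [e1] at hG
  refine hG.trans ?_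
  gcongr with t
  by_cases ht : t ∈ Icc a b
  · rw [indicator_of_mem ht]
  · rw [indicator_of_notMem ht]; simp

lemma gp_ge (θ : ℝ) (n i : ℕ) : (2 : ℝ) ^ n ≤ gp θ n i := by
  unfold gp
  have h1 : (0 : ℝ) ≤ (i : ℝ) / NN θ n := by positivity
  have h2 : (0 : ℝ) < 2 ^ n := by positivity
  nlinarith

lemma gp_le (θ : ℝ) (n i : ℕ) (hi : i ≤ NN θ n) : gp θ n i ≤ 2 * 2 ^ n := by
  unfold gp
  have h1 : (i : ℝ) / NN θ n ≤ 1 := div_le_one_of_le₀ (by exact_mod_cast hi) (by positivity)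
  have h2 : (0 : ℝ) < 2 ^ n := by positivity
  nlinarith

end MB

open MB in
theorem t_MB : S_MB := by
  intro δ θ ρ κ hδ hθ hθ1 hρ hρ1 hP hlt k F hF A c hA hc
  set ε : ℝ := 2 * δ - θ - 2 * ρ - κ with hε
  have hε0 : 0 < ε := by rw [hε]; linarith
  obtain ⟨C₀, T₀, hC₀, hT₀, hD⟩ := hP k A hA
  obtain ⟨C₁, hC₁, hM⟩ := hF.2 ε hε0
  set K : ℝ := 4 * (C₀ * (C₁ * 2 ^ (1 + ε))) / c ^ 2 with hK
  have hK0 : 0 < K := by positivity
  refine ⟨K, hK0, ?_⟩
  have hev : ∀ᶠ n : ℕ in atTop, T₀ ≤ (2 : ℝ) ^ n :=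
    (tendsto_pow_atTop_atTop_of_one_lt (by norm_num : (1 : ℝ) < 2)).eventually_ge_atTop T₀
  filter_upwards [hev] with n hn
  set T : ℝ := (2 : ℝ) ^ n with hT
  have hT1 : 1 ≤ T := hT₀.trans hn
  have hTpos : 0 < T := by linarith
  set s : ℝ := c * T ^ (1 - ρ) with hs
  have hs0 : 0 < s := by positivity
  set M : ℝ≥0∞ := ∫⁻ t in Icc T (2 * T), ‖F t‖ₑ ^ 2 with hMdef
  have hMle : M ≤ ENNReal.ofReal (C₁ * (2 * T) ^ (1 + ε)) := by
    refine le_trans ?_ (hM (2 * T) (by linarith))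
    refine lintegral_mono_set ?_
    intro t ht
    exact ⟨by linarith [ht.1], ht.2⟩
  set D : ℝ≥0∞ := ENNReal.ofReal (C₀ * T ^ (1 - 2 * δ)) with hDdef
  have hD' : ∀ G : ℝ → ℂ, Measurable G → ∫⁻ l in Icc (fun _ : Fin k => A⁻¹) (fun _ => A),
      ‖∫ t in Icc T (2 * T), G t * ((dif l t : ℝ) : ℂ)‖ₑ ^ 2 ≤
      D * ∫⁻ t in Icc T (2 * T), ‖G t‖ₑ ^ 2 := fun G hG => hD T G hn hG
  set X : ℝ≥0∞ := D * M / ENNReal.ofReal (s ^ 2) with hX
  have hnorm : ∀ t, ‖(((‖F t‖ : ℝ) : ℂ))‖ₑ = ‖F t‖ₑ := by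
    intro t
    rw [← ofReal_norm, Complex.norm_real, norm_norm, ofReal_norm]
  have hsub : Bad k F A c θ ρ n ⊆ ⋃ i ∈ Finset.range (NN θ n),
      ({l : Fin k → ℝ | (∀ j, A⁻¹ ≤ l j ∧ l j ≤ A) ∧ s < JJ F l T (gp θ n i)} ∪
      {l : Fin k → ℝ | (∀ j, A⁻¹ ≤ l j ∧ l j ≤ A) ∧
        s < JJ (fun t => ((‖F t‖ : ℝ) : ℂ)) l (gp θ n i) (gp θ n (i + 1))}) := by
    rintro l ⟨h1, i, hi, h2⟩
    simp only [mem_iUnion]
    refine ⟨i, Finset.mem_range.2 hi, ?_⟩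
    rcases h2 with h2 | h2
    · exact Or.inl ⟨h1, h2⟩
    · exact Or.inr ⟨h1, h2⟩
  have hcell : ∀ i ∈ Finset.range (NN θ n),
      volume ({l : Fin k → ℝ | (∀ j, A⁻¹ ≤ l j ∧ l j ≤ A) ∧ s < JJ F l T (gp θ n i)} ∪
      {l : Fin k → ℝ | (∀ j, A⁻¹ ≤ l j ∧ l j ≤ A) ∧
        s < JJ (fun t => ((‖F t‖ : ℝ) : ℂ)) l (gp θ n i) (gp θ n (i + 1))}) ≤ 2 * X := by
    intro i hi
    have hi' := Finset.mem_range.1 hi
    refine (measure_union_le _ _).trans ?_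
    rw [two_mul]
    refine add_le_add ?_ ?_
    · exact cheb hF.1 le_rfl (gp_le θ n i hi'.le) hs0 hD'
    · have := cheb (k := k) (F := fun t => ((‖F t‖ : ℝ) : ℂ))
        (Complex.measurable_ofReal.comp hF.1.norm) (gp_ge θ n i) (gp_le θ n (i + 1) hi') hs0 hD'
      simp only [hnorm] at this
      exact this
  have hsum : volume (Bad k F A c θ ρ n) ≤ NN θ n * (2 * X) := by
    refine (measure_mono hsub).trans ((measure_biUnion_finset_le _ _).trans ?_)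
    refine (Finset.sum_le_sum hcell).trans ?_
    rw [Finset.sum_const, Finset.card_range, nsmul_eq_mul]
  refine hsum.trans ?_
  have hXle : X ≤ ENNReal.ofReal (C₀ * T ^ (1 - 2 * δ) * (C₁ * (2 * T) ^ (1 + ε)) / s ^ 2) := by
    rw [hX, ENNReal.ofReal_div_of_pos (by positivity), ENNReal.ofReal_mul (by positivity)]
    gcongr
  have hNN : (NN θ n : ℝ) ≤ 2 * T ^ θ := by
    have h1 : (1 : ℝ) ≤ T ^ θ := Real.one_le_rpow hT1 hθ.le
    have h2 : (NN θ n : ℝ) < T ^ θ + 1 := Nat.ceil_lt_add_one (by positivity)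
    linarith
  have hNNe : (NN θ n : ℝ≥0∞) ≤ ENNReal.ofReal (2 * T ^ θ) := by
    rw [← ENNReal.ofReal_natCast]
    exact ENNReal.ofReal_le_ofReal hNN
  calc (NN θ n : ℝ≥0∞) * (2 * X) ≤ ENNReal.ofReal (2 * T ^ θ) *
        (ENNReal.ofReal 2 * ENNReal.ofReal (C₀ * T ^ (1 - 2 * δ) * (C₁ * (2 * T) ^ (1 + ε)) / s ^ 2)) := by
        gcongr
        simp
    _ = ENNReal.ofReal (2 * T ^ θ *
        (2 * (C₀ * T ^ (1 - 2 * δ) * (C₁ * (2 * T) ^ (1 + ε)) / s ^ 2))) := by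
        rw [ENNReal.ofReal_mul (p := 2 * T ^ θ) (by positivity)]
        congr 1
        rw [ENNReal.ofReal_mul (by norm_num)]
    _ = ENNReal.ofReal (K * T ^ (-κ)) := by
        congr 1
        have e1 : T ^ θ * T ^ (1 - 2 * δ) * T ^ (1 + ε) = T ^ (-κ) * (T ^ (1 - ρ)) ^ 2 := by
          rw [← Real.rpow_natCast (T ^ (1 - ρ)) 2, ← Real.rpow_mul hTpos.le,
            ← Real.rpow_add hTpos, ← Real.rpow_add hTpos, ← Real.rpow_add hTpos]
          congr 1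
          rw [hε]
          push_cast
          ring
        rw [Real.mul_rpow (by norm_num) hTpos.le, hs, hK]
        have hq : (T ^ (1 - ρ)) ^ 2 ≠ 0 := by positivity
        field_simp
        linear_combination 4 * e1

end Pool.Agent.Helper30K1.GD
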