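import Pool.Agent.N879.GD.Stm

set_option autoImplicit false

/-!
Project GD, piece SUM, part 1 (helper92): symmetry of the summand, dyadic decomposition.
-/

namespace Pool.Agent.Helper30K1.GD

open Complex Filter Topology MeasureTheory Set
open scoped ComplexConjugate
open Pool.Agent.Y969.GP (ff V ht lam PS co PX)
open Pool.Agent.N879.GD

theorem GG_conj (b : ℕ) (T x ω : ℝ) : conj (GG b T x ω) = GG b T (-x) (-ω) := by
  unfold GG
  rw [← integral_conj]
  refine integral_congr_ae (Filter.Eventually.of_forall fun u => ?_)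
  simp only [map_mul, Complex.conj_ofReal]
  congr 1
  rw [← Complex.exp_conj]
  congr 1
  rw [map_mul, Complex.conj_I, Complex.conj_ofReal]
  push_cast
  ring

theorem bt_conj (σ : ℝ) (b : ℕ) (T y ω : ℝ) (m n : ℕ) :
    conj (bt σ b T y ω m n) = bt σ b T (-y) (-ω) n m := by
  unfold bt
  rw [map_mul, map_mul, GG_conj, Complex.conj_ofReal, ← Complex.exp_conj]
  have e1 : (n : ℝ) * m = (m : ℝ) * n := mul_comm _ _
  have e2 : -(Real.log n - Real.log m) = Real.log m - Real.log n := by ring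
  rw [e1, e2]
  congr 2
  congr 1
  rw [map_neg, map_mul, map_add, map_mul, Complex.conj_ofReal, Complex.conj_I, Complex.conj_ofReal,
    Complex.conj_ofReal]
  push_cast
  ring

/-- the length of a block -/
def LL (X m i : ℕ) : ℕ := min (2 ^ i) (X / m + 1 - (m + 2 ^ i))

theorem LL_le (X m i : ℕ) : LL X m i ≤ 2 ^ i := min_le_left _ _

theorem LL_pos {X m i : ℕ} (hm : 1 ≤ m) (h : LL X m i ≠ 0) : m * (m + 2 ^ i) ≤ X := by
  have h1 : 0 < X / m + 1 - (m + 2 ^ i) := by
    have : LL X m i ≤ X / m + 1 - (m + 2 ^ i) := min_le_right _ _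
    omega
  have h2 : m + 2 ^ i ≤ X / m := by omega
  calc m * (m + 2 ^ i) ≤ m * (X / m) := Nat.mul_le_mul_left _ h2
    _ ≤ X := Nat.mul_div_le X m

theorem row_sum {M : Type*} [AddCommMonoid M] (X m : ℕ) (hm : 1 ≤ m) (f : ℕ → M) :
    ∑ n ∈ (Finset.Icc 1 X).filter (fun n => m * n ≤ X ∧ m < n), f n =
      ∑ i ∈ Finset.range (Nat.log 2 X + 1), ∑ r ∈ Finset.range (LL X m i), f (m + 2 ^ i + r) := by
  rw [Finset.sum_sigma']
  refine Finset.sum_nbij' (fun n => (⟨Nat.log 2 (n - m), n - m - 2 ^ Nat.log 2 (n - m)⟩ : Σ _ : ℕ, ℕ))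
    (fun q => m + 2 ^ q.1 + q.2) ?_ ?_ ?_ ?_ ?_
  · intro n hn
    simp only [Finset.mem_filter, Finset.mem_Icc] at hn
    obtain ⟨⟨h1, h2⟩, h3, h4⟩ := hn
    have hd : n - m ≠ 0 := by omega
    have hp := Nat.pow_log_le_self 2 hd
    have hlt := Nat.lt_pow_succ_log_self (b := 2) (by norm_num) (n - m)
    rw [pow_succ] at hlt
    have h5 : n ≤ X / m := (Nat.le_div_iff_mul_le (by omega)).2 (by rw [mul_comm]; exact h3)
    simp only [Finset.mem_sigma, Finset.mem_range, LL]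
    refine ⟨?_, ?_⟩
    · have : Nat.log 2 (n - m) ≤ Nat.log 2 X := Nat.log_mono_right (by omega)
      omega
    · rw [lt_min_iff]
      constructor <;> omega
  · intro q hq
    simp only [Finset.mem_sigma, Finset.mem_range, LL, lt_min_iff] at hq
    obtain ⟨h1, h2, h3⟩ := hq
    have h5 : m + 2 ^ q.1 + q.2 ≤ X / m := by omega
    have h6 : (m + 2 ^ q.1 + q.2) * m ≤ X := (Nat.le_div_iff_mul_le (by omega)).1 h5
    have hp : 1 ≤ 2 ^ q.1 := Nat.one_le_two_pow
    simp only [Finset.mem_filter, Finset.mem_Icc]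
    refine ⟨⟨by omega, ?_⟩, by rw [mul_comm]; exact h6, by omega⟩
    exact le_trans (Nat.le_mul_of_pos_right _ (by omega)) h6
  · intro n hn
    simp only [Finset.mem_filter, Finset.mem_Icc] at hn
    obtain ⟨⟨h1, h2⟩, h3, h4⟩ := hn
    have hd : n - m ≠ 0 := by omega
    have hp := Nat.pow_log_le_self 2 hd
    simp only
    omega
  · rintro ⟨i, r⟩ hq
    simp only [Finset.mem_sigma, Finset.mem_range, LL, lt_min_iff] at hq
    obtain ⟨h1, h2, h3⟩ := hq
    have e1 : m + 2 ^ i + r - m = 2 ^ i + r := by omega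
    have e2 : Nat.log 2 (2 ^ i + r) = i := by
      rw [Nat.log_eq_iff (Or.inr ⟨by norm_num, by have := Nat.one_le_two_pow (n := i); omega⟩)]
      rw [pow_succ]
      omega
    simp only [e1, e2]
    congr 1
    omega
  · intro n hn
    simp only [Finset.mem_filter, Finset.mem_Icc] at hn
    obtain ⟨⟨h1, h2⟩, h3, h4⟩ := hn
    have hd : n - m ≠ 0 := by omega
    have hp := Nat.pow_log_le_self 2 hd
    simp only
    congr 1
    omega

theorem half_sum {M : Type*} [AddCommMonoid M] (X : ℕ) (f : ℕ → ℕ → M) :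
    ∑ p ∈ (PS X).filter (fun p => p.1 < p.2), f p.1 p.2 =
      ∑ m ∈ Finset.Icc 1 X, ∑ i ∈ Finset.range (Nat.log 2 X + 1),
        ∑ r ∈ Finset.range (LL X m i), f m (m + 2 ^ i + r) := by
  have h0 : (PS X).filter (fun p => p.1 < p.2) =
      (Finset.Icc 1 X ×ˢ Finset.Icc 1 X).filter (fun p => p.1 * p.2 ≤ X ∧ p.1 < p.2) := by
    unfold PS
    rw [Finset.filter_filter]
  rw [h0, Finset.sum_filter, Finset.sum_product]
  refine Finset.sum_congr rfl fun m hm => ?_
  rw [← row_sum X m (Finset.mem_Icc.1 hm).1 (f m), Finset.sum_filter]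

theorem split_sum (X : ℕ) (σ : ℝ) (b : ℕ) (T y ω : ℝ) :
    ∑ p ∈ (PS X).filter (fun p => p.1 ≠ p.2), bt σ b T y ω p.1 p.2 =
      ∑ p ∈ (PS X).filter (fun p => p.1 < p.2), bt σ b T y ω p.1 p.2 +
      conj (∑ p ∈ (PS X).filter (fun p => p.1 < p.2), bt σ b T (-y) (-ω) p.1 p.2) := by
  have h0 : (PS X).filter (fun p => p.1 ≠ p.2) =
      (PS X).filter (fun p => p.1 < p.2) ∪ (PS X).filter (fun p => p.2 < p.1) := by
    ext p
    simp only [Finset.mem_filter, Finset.mem_union]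
    constructor
    · rintro ⟨h1, h2⟩
      rcases lt_or_gt_of_ne h2 with h | h
      · exact Or.inl ⟨h1, h⟩
      · exact Or.inr ⟨h1, h⟩
    · rintro (⟨h1, h2⟩ | ⟨h1, h2⟩)
      · exact ⟨h1, ne_of_lt h2⟩
      · exact ⟨h1, (ne_of_lt h2).symm⟩
  have hdisj : Disjoint ((PS X).filter (fun p => p.1 < p.2)) ((PS X).filter (fun p => p.2 < p.1)) := by
    rw [Finset.disjoint_left]
    intro p h1 h2
    have a1 := (Finset.mem_filter.1 h1).2
    have a2 := (Finset.mem_filter.1 h2).2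
    omega
  rw [h0, Finset.sum_union hdisj, map_sum]
  congr 1
  refine Finset.sum_nbij' (fun p => (p.2, p.1)) (fun p => (p.2, p.1)) ?_ ?_ ?_ ?_ ?_
  · intro p hp
    simp only [PS, Finset.mem_filter, Finset.mem_product, Finset.mem_Icc] at hp ⊢
    exact ⟨⟨⟨hp.1.1.2, hp.1.1.1⟩, by rw [mul_comm]; exact hp.1.2⟩, hp.2⟩
  · intro p hp
    simp only [PS, Finset.mem_filter, Finset.mem_product, Finset.mem_Icc] at hp ⊢
    exact ⟨⟨⟨hp.1.1.2, hp.1.1.1⟩, by rw [mul_comm]; exact hp.1.2⟩, hp.2⟩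
  · intro p _; rfl
  · intro p _; rfl
  · intro p _
    rw [bt_conj, neg_neg, neg_neg]

end Pool.Agent.Helper30K1.GD
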