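import Pool.Agent.N879.GD.Stm

set_option autoImplicit false

/-!
Project GD, piece SUM, part 2 (helper92): the estimate of one dyadic block.
-/

namespace Pool.Agent.Helper30K1.GD

open Complex Filter Topology MeasureTheory Set
open Pool.Agent.N879.GD

theorem log_lower (m R : ℕ) (hm : 1 ≤ m) :
    (R : ℝ) / (m + R) ≤ Real.log (1 + (R : ℝ) / m) := by
  have hm0 : (0 : ℝ) < m := by exact_mod_cast hm
  have hR0 : (0 : ℝ) ≤ R := Nat.cast_nonneg _
  have h1 : (0 : ℝ) < 1 + (R : ℝ) / m := by positivity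
  have h2 := Real.one_sub_inv_le_log_of_pos h1
  have h3 : 1 - (1 + (R : ℝ) / m)⁻¹ = (R : ℝ) / (m + R) := by
    have : (m : ℝ) + R ≠ 0 := by positivity
    field_simp
    ring
  rw [h3] at h2
  exact h2

/-- the constant of the decay -/
noncomputable def C1 : ℝ := 720 * 4 ^ 6 * Real.exp (1 / 2)

theorem C1_pos : 0 < C1 := by unfold C1; positivity

theorem decay (w z q : ℝ) (hw : 0 ≤ w) (hz : 1 ≤ z) (hq : q = (1 + w) / z) :
    (1 + q) ^ 6 * Real.exp (-(w / (4 * z))) ≤ C1 := by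
  have hz0 : 0 < z := by linarith
  have hq0 : 0 < q := by rw [hq]; positivity
  have h1 : (1 + q) / 4 ≤ 1 / 2 + w / (4 * z) := by
    have e : q = 1 / z + w / z := by rw [hq]; ring
    have e2 : 1 / z ≤ 1 := by rw [div_le_one hz0]; exact hz
    have e3 : w / (4 * z) = (w / z) / 4 := by field_simp
    rw [e3]
    linarith
  have h2 := Real.pow_div_factorial_le_exp (x := (1 + q) / 4) (by positivity) 6
  have h3 : Real.exp ((1 + q) / 4) ≤ Real.exp (1 / 2) * Real.exp (w / (4 * z)) := by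
    rw [← Real.exp_add]
    exact Real.exp_le_exp.2 h1
  have h4 : (1 + q) ^ 6 ≤ 720 * 4 ^ 6 * (Real.exp (1 / 2) * Real.exp (w / (4 * z))) := by
    have h5 : ((1 + q) / 4) ^ 6 / ((Nat.factorial 6 : ℕ) : ℝ) ≤
        Real.exp (1 / 2) * Real.exp (w / (4 * z)) := le_trans h2 h3
    have e : ((Nat.factorial 6 : ℕ) : ℝ) = 720 := by norm_num [Nat.factorial]
    rw [e, div_pow] at h5
    have h6 : (1 + q) ^ 6 = 720 * 4 ^ 6 * ((1 + q) ^ 6 / 4 ^ 6 / 720) := by ring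
    rw [h6]
    exact mul_le_mul_of_nonneg_left h5 (by norm_num)
  have h7 : Real.exp (w / (4 * z)) * Real.exp (-(w / (4 * z))) = 1 := by
    rw [← Real.exp_add]; simp
  calc (1 + q) ^ 6 * Real.exp (-(w / (4 * z)))
      ≤ 720 * 4 ^ 6 * (Real.exp (1 / 2) * Real.exp (w / (4 * z))) * Real.exp (-(w / (4 * z))) :=
        mul_le_mul_of_nonneg_right h4 (Real.exp_pos _).le
    _ = 720 * 4 ^ 6 * Real.exp (1 / 2) * (Real.exp (w / (4 * z)) * Real.exp (-(w / (4 * z)))) := by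
        ring
    _ = C1 := by rw [h7, mul_one]; rfl

theorem fac (w z q : ℝ) (hw : 0 ≤ w) (hz : 0 < z) (hq : q = (1 + w) / z) :
    (1 + w) ^ (-(1 / 2 : ℝ)) * q ^ 4 = (√z)⁻¹ * (q ^ 3 * √q) := by
  have hq0 : 0 < q := by rw [hq]; positivity
  have e1 : 1 + w = q * z := by rw [hq]; field_simp
  rw [e1, Real.rpow_neg (by positivity), ← Real.sqrt_eq_rpow, Real.sqrt_mul hq0.le]
  have h1 : √q * √q = q := Real.mul_self_sqrt hq0.le
  have h2 : √q ≠ 0 := (Real.sqrt_pos.2 hq0).ne'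
  have h3 : √z ≠ 0 := (Real.sqrt_pos.2 hz).ne'
  field_simp
  nlinarith [h1]

theorem sqrt_le_one_add (q : ℝ) (hq : 0 ≤ q) : √q ≤ 1 + q := by
  rw [Real.sqrt_le_left (by linarith)]
  nlinarith

/-- `q³ √q (1+q) E ≤ C1` -/
theorem g1 (w z q : ℝ) (hw : 0 ≤ w) (hz : 1 ≤ z) (hq : q = (1 + w) / z) :
    q ^ 3 * √q * (1 + q) * Real.exp (-(w / (4 * z))) ≤ C1 := by
  have hz0 : 0 < z := by linarith
  have hq0 : 0 < q := by rw [hq]; positivity
  refine le_trans ?_ (decay w z q hw hz hq)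
  refine mul_le_mul_of_nonneg_right ?_ (Real.exp_pos _).le
  have h1 : q ^ 3 ≤ (1 + q) ^ 3 := pow_le_pow_left₀ hq0.le (by linarith) 3
  have h2 := sqrt_le_one_add q hq0.le
  calc q ^ 3 * √q * (1 + q) ≤ (1 + q) ^ 3 * (1 + q) * (1 + q) := by
        apply mul_le_mul_of_nonneg_right _ (by linarith)
        exact mul_le_mul h1 h2 (Real.sqrt_nonneg _) (by positivity)
    _ = (1 + q) ^ 5 := by ring
    _ ≤ (1 + q) ^ 6 := pow_le_pow_right₀ (by linarith) (by norm_num)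

/-- small `q` -/
theorem g2 (w z q t : ℝ) (hw : 0 ≤ w) (hz : 1 ≤ z) (hq : q = (1 + w) / z) (ht : q ≤ t) :
    q ^ 3 * √q * Real.exp (-(w / (4 * z))) ≤ C1 * t := by
  have hz0 : 0 < z := by linarith
  have hq0 : 0 < q := by rw [hq]; positivity
  have h0 := decay w z q hw hz hq
  have hE := (Real.exp_pos (-(w / (4 * z)))).le
  have h1 : q ^ 2 ≤ (1 + q) ^ 2 := pow_le_pow_left₀ hq0.le (by linarith) 2
  have h2 := sqrt_le_one_add q hq0.le
  have h3 : q ^ 2 * √q ≤ (1 + q) ^ 6 := by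
    calc q ^ 2 * √q ≤ (1 + q) ^ 2 * (1 + q) :=
          mul_le_mul h1 h2 (Real.sqrt_nonneg _) (by positivity)
      _ = (1 + q) ^ 3 := by ring
      _ ≤ (1 + q) ^ 6 := pow_le_pow_right₀ (by linarith) (by norm_num)
  calc q ^ 3 * √q * Real.exp (-(w / (4 * z))) = q * (q ^ 2 * √q * Real.exp (-(w / (4 * z)))) := by ring
    _ ≤ q * C1 := by
        refine mul_le_mul_of_nonneg_left ?_ hq0.le
        exact le_trans (mul_le_mul_of_nonneg_right h3 hE) h0
    _ ≤ t * C1 := mul_le_mul_of_nonneg_right ht C1_pos.le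
    _ = C1 * t := mul_comm _ _

/-- large `q` -/
theorem g3 (w z q t : ℝ) (hw : 0 ≤ w) (hz : 1 ≤ z) (hq : q = (1 + w) / z) (ht0 : 0 < t)
    (ht : t⁻¹ ≤ q) : q ^ 3 * √q * Real.exp (-(w / (4 * z))) ≤ C1 * t := by
  have hz0 : 0 < z := by linarith
  have hq0 : 0 < q := by rw [hq]; positivity
  have h0 := g1 w z q hw hz hq
  have hE := (Real.exp_pos (-(w / (4 * z)))).le
  have h1 : 1 ≤ t * (1 + q) := by
    have : t * t⁻¹ ≤ t * q := mul_le_mul_of_nonneg_left ht ht0.le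
    rw [mul_inv_cancel₀ ht0.ne'] at this
    nlinarith
  have h2 : 0 ≤ q ^ 3 * √q * Real.exp (-(w / (4 * z))) := by positivity
  calc q ^ 3 * √q * Real.exp (-(w / (4 * z)))
      ≤ q ^ 3 * √q * Real.exp (-(w / (4 * z))) * (t * (1 + q)) := le_mul_of_one_le_right h2 h1
    _ = t * (q ^ 3 * √q * (1 + q) * Real.exp (-(w / (4 * z)))) := by ring
    _ ≤ t * C1 := mul_le_mul_of_nonneg_left h0 ht0.le
    _ = C1 * t := mul_comm _ _

/-- the size of a block -/
noncomputable def K0 (T : ℝ) (m R : ℕ) : ℝ := (√((m : ℝ) * (m + R)))⁻¹ * (√(zz T m R))⁻¹ * R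

theorem K0_nonneg (T : ℝ) (m R : ℕ) : 0 ≤ K0 T m R := by unfold K0; positivity

theorem K0_le (T ρ X : ℝ) (m R : ℕ) (hT : 0 < T) (hm : 1 ≤ m) (hR : 1 ≤ R) (hρ : 0 ≤ ρ) (hX : 0 ≤ X)
    (h : (R : ℝ) * m ≤ X * ρ ^ 2) : K0 T m R ≤ √(X / T) * ρ / m := by
  have hm0 : (0 : ℝ) < m := by exact_mod_cast hm
  have hR0 : (0 : ℝ) < R := by exact_mod_cast hR
  have hl := log_lower m R hm
  have hP : (0 : ℝ) < (R : ℝ) / (m + R) := by positivity
  have hz : T * ((R : ℝ) / (m + R)) ≤ zz T m R := by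
    unfold zz
    exact mul_le_mul_of_nonneg_left hl hT.le
  have hz0 : 0 < zz T m R := lt_of_lt_of_le (by positivity) hz
  have h2 : (K0 T m R) ^ 2 ≤ (√(X / T) * ρ / m) ^ 2 := by
    unfold K0
    rw [mul_pow, mul_pow, inv_pow, inv_pow, Real.sq_sqrt (by positivity), Real.sq_sqrt hz0.le,
      div_pow, mul_pow, Real.sq_sqrt (by positivity)]
    have e1 : ((m : ℝ) * (m + R))⁻¹ * (zz T m R)⁻¹ * (R : ℝ) ^ 2 ≤
        ((m : ℝ) * (m + R))⁻¹ * (T * ((R : ℝ) / (m + R)))⁻¹ * (R : ℝ) ^ 2 := by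
      refine mul_le_mul_of_nonneg_right ?_ (by positivity)
      refine mul_le_mul_of_nonneg_left ?_ (by positivity)
      exact inv_anti₀ (by positivity) hz
    refine le_trans e1 ?_
    have e2 : ((m : ℝ) * (m + R))⁻¹ * (T * ((R : ℝ) / (m + R)))⁻¹ * (R : ℝ) ^ 2 = (R * m) / (m ^ 2 * T) := by
      have : (m : ℝ) + R ≠ 0 := by positivity
      field_simp
    rw [e2]
    have e3 : X / T * ρ ^ 2 / (m : ℝ) ^ 2 = (X * ρ ^ 2) / (m ^ 2 * T) := by field_simp
    rw [e3]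
    exact div_le_div_of_nonneg_right h (by positivity)
  exact (pow_le_pow_iff_left₀ (K0_nonneg T m R) (by positivity) (by norm_num)).1 h2

end Pool.Agent.Helper30K1.GD
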